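import Pool.Agent.Helper27.HY.Stm

/-!
# The decomposition of a strictly nonpositive array (P2)
-/

set_option autoImplicit false

open scoped BigOperators

namespace Pool.Agent.Helper27.HY

namespace Dc

variable {J : Type} [Fintype J] [DecidableEq J] (R : J → J → J → J → ℝ)

/-- the bilinear form of the array -/
def T (g h : J → J → ℝ) : ℝ := ∑ i, ∑ j, ∑ k, ∑ l, R i k j l * (g i j * h k l)

omit [DecidableEq J] in
lemma T_add_left (g g' h : J → J → ℝ) : T R (fun i j => g i j + g' i j) h = T R g h + T R g' h := by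
  simp only [T, add_mul, mul_add, Finset.sum_add_distrib]

omit [DecidableEq J] in
lemma T_add_right (g h h' : J → J → ℝ) : T R g (fun i j => h i j + h' i j) = T R g h + T R g h' := by
  simp only [T, mul_add, Finset.sum_add_distrib]

omit [DecidableEq J] in
lemma T_smul_left (c : ℝ) (g h : J → J → ℝ) : T R (fun i j => c * g i j) h = c * T R g h := by
  simp only [T, Finset.mul_sum]
  refine Finset.sum_congr rfl fun i _ => Finset.sum_congr rfl fun j _ =>
    Finset.sum_congr rfl fun k _ => Finset.sum_congr rfl fun l _ => by ring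

omit [DecidableEq J] in
lemma T_smul_right (c : ℝ) (g h : J → J → ℝ) : T R g (fun i j => c * h i j) = c * T R g h := by
  simp only [T, Finset.mul_sum]
  refine Finset.sum_congr rfl fun i _ => Finset.sum_congr rfl fun j _ =>
    Finset.sum_congr rfl fun k _ => Finset.sum_congr rfl fun l _ => by ring

omit [DecidableEq J] in
lemma T_comm (h1 : ∀ a b c d, R b a c d = - R a b c d) (h2 : ∀ a b c d, R c d a b = R a b c d)
    (g h : J → J → ℝ) : T R g h = T R h g := by
  have h3 : ∀ a b c d, R a b d c = - R a b c d := fun a b c d => by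
    rw [h2 d c a b, h1 c d a b, h2 a b c d]
  have e : T R g h = ∑ i, ∑ j, ∑ k, ∑ l, R k i l j * (g i j * h k l) := by
    refine Finset.sum_congr rfl fun i _ => Finset.sum_congr rfl fun j _ =>
      Finset.sum_congr rfl fun k _ => Finset.sum_congr rfl fun l _ => ?_
    rw [h1 i k l j, h3 i k j l]; ring
  have e2 : ∑ i, ∑ j, ∑ k, ∑ l, R k i l j * (g i j * h k l) =
      ∑ k, ∑ l, ∑ i, ∑ j, R k i l j * (g i j * h k l) := by
    have a1 : ∀ i, ∑ j, ∑ k, ∑ l, R k i l j * (g i j * h k l) =
        ∑ k, ∑ l, ∑ j, R k i l j * (g i j * h k l) := fun i => by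
      rw [Finset.sum_comm]
      exact Finset.sum_congr rfl fun k _ => Finset.sum_comm
    simp only [a1]
    rw [Finset.sum_comm]
    exact Finset.sum_congr rfl fun k _ => Finset.sum_comm
  rw [e, e2]
  refine Finset.sum_congr rfl fun i _ => Finset.sum_congr rfl fun j _ =>
    Finset.sum_congr rfl fun k _ => Finset.sum_congr rfl fun l _ => by ring

omit [DecidableEq J] in
lemma T_transp (h2 : ∀ a b c d, R c d a b = R a b c d)
    (g h : J → J → ℝ) : T R (fun i j => g j i) h = T R g (fun k l => h l k) := by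
  unfold T
  rw [Finset.sum_comm]
  refine Finset.sum_congr rfl fun i _ => Finset.sum_congr rfl fun j _ => ?_
  rw [Finset.sum_comm]
  refine Finset.sum_congr rfl fun k _ => Finset.sum_congr rfl fun l _ => ?_
  rw [h2 i k j l]

/-- the array `C` -/
noncomputable def C (lam : ℝ) (i j k l : J) : ℝ :=
  lam ^ 2 * ((if i = j then 1 else 0) * (if k = l then 1 else 0)) -
    1 / 2 * (R i k j l + R i l j k)

lemma C_form (h2 : ∀ a b c d, R c d a b = R a b c d)
    (lam : ℝ) (X : J → J → ℝ) :
    ∑ i, ∑ j, ∑ k, ∑ l, X i j * X k l * C R lam i j k l =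
      lam ^ 2 * (∑ a, X a a) ^ 2 -
        T R (fun i j => 1 / 2 * (X i j + X j i)) (fun i j => 1 / 2 * (X i j + X j i)) := by
  have e1 : ∑ i, ∑ j, ∑ k, ∑ l, X i j * X k l * C R lam i j k l =
      lam ^ 2 * (∑ i, ∑ j, ∑ k, ∑ l, (X i j * (if i = j then 1 else 0)) *
        (X k l * (if k = l then 1 else 0))) -
      1 / 2 * (∑ i, ∑ j, ∑ k, ∑ l, R i k j l * (X i j * X k l)) -
      1 / 2 * (∑ i, ∑ j, ∑ k, ∑ l, R i l j k * (X i j * X k l)) := by
    simp only [Finset.mul_sum, ← Finset.sum_sub_distrib]
    refine Finset.sum_congr rfl fun i _ => Finset.sum_congr rfl fun j _ =>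
      Finset.sum_congr rfl fun k _ => Finset.sum_congr rfl fun l _ => ?_
    unfold C
    ring
  have e2 : ∑ i, ∑ j, ∑ k, ∑ l, (X i j * (if i = j then 1 else 0)) *
        (X k l * (if k = l then 1 else 0)) = (∑ a, X a a) ^ 2 := by
    have a1 : ∑ i, ∑ j, X i j * (if i = j then (1:ℝ) else 0) = ∑ a, X a a := by
      refine Finset.sum_congr rfl fun i _ => ?_
      simp
    have a2 : ∀ i j, ∑ k, ∑ l, (X i j * (if i = j then (1:ℝ) else 0)) *
        (X k l * (if k = l then (1:ℝ) else 0)) =
        (X i j * (if i = j then (1:ℝ) else 0)) * ∑ a, X a a := fun i j => by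
      simp only [← Finset.mul_sum]
      rw [a1]
    simp only [a2, ← Finset.sum_mul]
    rw [a1, sq]
  have e3 : ∑ i, ∑ j, ∑ k, ∑ l, R i l j k * (X i j * X k l) = T R X (fun k l => X l k) := by
    unfold T
    refine Finset.sum_congr rfl fun i _ => Finset.sum_congr rfl fun j _ => ?_
    rw [Finset.sum_comm]
  have e4 : ∑ i, ∑ j, ∑ k, ∑ l, R i k j l * (X i j * X k l) = T R X X := rfl
  rw [e1, e2, e3, e4]
  have t1 : T R (fun i j => 1 / 2 * (X i j + X j i)) (fun i j => 1 / 2 * (X i j + X j i)) =
      1 / 4 * (T R X X + T R X (fun i j => X j i) + T R (fun i j => X j i) X +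
        T R (fun i j => X j i) (fun i j => X j i)) := by
    rw [T_smul_left, T_smul_right, T_add_left, T_add_right, T_add_right]
    ring
  have t2 : T R (fun i j => X j i) X = T R X (fun i j => X j i) := T_transp R h2 X X
  have t3 : T R (fun i j => X j i) (fun i j => X j i) = T R X X :=
    T_transp R h2 X (fun i j => X j i)
  rw [t1, t2, t3]
  ring

end Dc

open Dc in
theorem decomp : DecompStm := by
  intro J _ _ R h1 h2 _ κ hκ hB
  rcases isEmpty_or_nonempty J with hJ | hJ
  · exact ⟨0, fun a => a.elim0, 1, one_pos, fun k => k.elim0, fun i => (hJ.false i).elim⟩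
  have h3 : ∀ a b c d, R a b d c = - R a b c d := fun a b c d => by
    rw [h2 d c a b, h1 c d a b, h2 a b c d]
  -- the constants
  set δ : J → J → ℝ := fun i j => if i = j then 1 else 0 with hδ
  set ρ : J → J → ℝ := fun i j => ∑ k, ∑ l, R i k j l * δ k l with hρ
  set lam : ℝ := 1 + (∑ i, ∑ j, ρ i j * ρ i j) / κ + |T R δ δ| with hlam
  have hρ0 : 0 ≤ (∑ i, ∑ j, ρ i j * ρ i j) / κ :=
    div_nonneg (Finset.sum_nonneg fun i _ => Finset.sum_nonneg fun j _ => mul_self_nonneg _) hκ.le
  have hlam1 : 1 ≤ lam := by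
    have := abs_nonneg (T R δ δ)
    rw [hlam]; linarith
  have hn1 : (1:ℝ) ≤ (Fintype.card J : ℝ) := by exact_mod_cast Fintype.card_pos
  -- nonnegativity
  have hQ : ∀ X : J → J → ℝ, 0 ≤ ∑ i, ∑ j, ∑ k, ∑ l, X i j * X k l * C R lam i j k l := by
    intro X
    rw [C_form R h2]
    set n : ℝ := (Fintype.card J : ℝ) with hn
    set t : ℝ := (∑ a, X a a) / n with ht
    set h : J → J → ℝ := fun i j => 1 / 2 * (X i j + X j i) - t * δ i j with hh
    have hs : ∀ a b, h a b = h b a := by
      intro a b
      simp only [hh, hδ]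
      by_cases hab : a = b
      · subst hab; ring
      · have hba : ¬ b = a := fun h => hab h.symm
        simp only [hab, hba, if_false]; ring
    have htr : ∑ a, h a a = 0 := by
      have e1 : ∀ a, h a a = X a a - t := fun a => by
        simp only [hh, hδ, if_true]; ring
      simp only [e1, Finset.sum_sub_distrib, Finset.sum_const, Finset.card_univ, nsmul_eq_mul]
      rw [ht]
      have : n ≠ 0 := by positivity
      rw [← hn]
      field_simp
      ring
    have hb := hB h hs htr
    have e0 : (fun i j => 1 / 2 * (X i j + X j i)) = fun i j => h i j + t * δ i j := by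
      funext i j
      simp only [hh]; ring
    have e1 : T R (fun i j => 1 / 2 * (X i j + X j i)) (fun i j => 1 / 2 * (X i j + X j i)) =
        T R h h + 2 * t * T R h δ + t ^ 2 * T R δ δ := by
      rw [e0, T_add_left, T_add_right, T_add_right, T_smul_left, T_smul_left, T_smul_right,
        T_smul_right, T_comm R h1 h2 δ h]
      ring
    have e2 : T R h δ = ∑ i, ∑ j, h i j * ρ i j := by
      unfold T
      refine Finset.sum_congr rfl fun i _ => Finset.sum_congr rfl fun j _ => ?_
      simp only [hρ, Finset.mul_sum]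
      refine Finset.sum_congr rfl fun k _ => Finset.sum_congr rfl fun l _ => by ring
    have e3 : 2 * t * T R h δ ≤ κ * (∑ i, ∑ j, h i j * h i j) +
        t ^ 2 * ((∑ i, ∑ j, ρ i j * ρ i j) / κ) := by
      rw [e2, Finset.sum_div]
      simp only [Finset.sum_div, Finset.mul_sum, ← Finset.sum_add_distrib]
      refine Finset.sum_le_sum fun i _ => Finset.sum_le_sum fun j _ => ?_
      have : 0 ≤ κ * (h i j - t * ρ i j / κ) ^ 2 := by positivity
      have e : κ * (h i j - t * ρ i j / κ) ^ 2 =
          κ * (h i j * h i j) + t ^ 2 * (ρ i j * ρ i j / κ) - 2 * t * (h i j * ρ i j) := by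
        field_simp
        ring
      linarith
    have e4 : ∑ a, X a a = n * t := by
      rw [ht]
      field_simp
    have e5 : T R h h ≤ -(κ * ∑ i, ∑ j, h i j * h i j) := hb
    rw [e1, e4]
    have e6 : (∑ i, ∑ j, ρ i j * ρ i j) / κ + T R δ δ ≤ lam ^ 2 * n ^ 2 := by
      have a1 : (∑ i, ∑ j, ρ i j * ρ i j) / κ + T R δ δ ≤ lam := by
        rw [hlam]; linarith [le_abs_self (T R δ δ)]
      have a2 : lam ≤ lam ^ 2 * n ^ 2 := by
        have b1 : (1:ℝ) ≤ n ^ 2 := one_le_pow₀ hn1
        have b2 : lam ≤ lam ^ 2 := by nlinarith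
        nlinarith [sq_nonneg lam]
      linarith
    have e7 := mul_le_mul_of_nonneg_left e6 (sq_nonneg t)
    nlinarith
  -- the matrix
  set CM : Matrix (J × J) (J × J) ℝ := Matrix.of fun p q => C R lam p.1 p.2 q.1 q.2 with hCM
  have hH : CM.IsHermitian := by
    ext p q
    simp only [hCM, Matrix.conjTranspose_apply, Matrix.of_apply, star_trivial, C]
    rw [h1 p.1 q.1 q.2 p.2, h3 p.1 q.1 p.2 q.2, h2 q.2 p.1 q.1 p.2, h1 p.1 q.2 q.1 p.2,
      h3 p.1 q.2 p.2 q.1]
    ring
  have hP : CM.PosSemidef := by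
    refine Matrix.PosSemidef.of_dotProduct_mulVec_nonneg hH fun x => ?_
    have := hQ (fun i j => x (i, j))
    have e : star x ⬝ᵥ (CM.mulVec x) =
        ∑ i, ∑ j, ∑ k, ∑ l, x (i, j) * x (k, l) * C R lam i j k l := by
      simp only [dotProduct, Matrix.mulVec, hCM, Matrix.of_apply, star_trivial,
        Fintype.sum_prod_type, Pi.star_apply]
      refine Finset.sum_congr rfl fun i _ => Finset.sum_congr rfl fun j _ => ?_
      rw [Finset.mul_sum]
      refine Finset.sum_congr rfl fun k _ => ?_
      rw [Finset.mul_sum]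
      exact Finset.sum_congr rfl fun l _ => by ring
    rw [e]
    exact this
  obtain ⟨m, v, hv⟩ := Matrix.posSemidef_iff_eq_sum_vecMulVec.1 hP
  have hg : ∀ a b c d, ∑ i, v i (a, b) * v i (c, d) = C R lam a b c d := by
    intro a b c d
    have e1 : CM (a, b) (c, d) = C R lam a b c d := rfl
    rw [← e1, hv, Matrix.sum_apply]
    simp [Matrix.vecMulVec_apply]
  have hCs : ∀ a b c d, C R lam b a c d = C R lam a b c d := by
    intro a b c d
    unfold C
    rw [h2 a d b c, h2 a c b d]
    by_cases hab : a = b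
    · subst hab; ring
    · have hba : ¬ b = a := fun h => hab h.symm
      simp only [hab, hba, if_false]; ring
  have hCs' : ∀ a b c d, C R lam a b d c = C R lam a b c d := by
    intro a b c d
    unfold C
    by_cases hcd : c = d
    · subst hcd; ring
    · have hdc : ¬ d = c := fun h => hcd h.symm
      simp only [hcd, hdc, if_false]; ring
  refine ⟨m, fun k => Matrix.of fun a b => v k (a, b), lam, by linarith, ?_, ?_⟩
  · intro n a b
    have e1 : ∑ i, (v i (a, b) - v i (b, a)) * (v i (a, b) - v i (b, a)) = 0 := by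
      have e : ∀ i, (v i (a, b) - v i (b, a)) * (v i (a, b) - v i (b, a)) =
          v i (a, b) * v i (a, b) - v i (a, b) * v i (b, a) - v i (b, a) * v i (a, b) +
          v i (b, a) * v i (b, a) := fun i => by ring
      simp only [e, Finset.sum_add_distrib, Finset.sum_sub_distrib, hg]
      rw [hCs' a b a b, hCs a b a b, hCs a b b a, hCs' a b a b]
      ring
    have e2 := (Finset.sum_eq_zero_iff_of_nonneg
      (fun i _ => mul_self_nonneg (v i (a, b) - v i (b, a)))).1 e1 n (Finset.mem_univ n)
    have e3 := mul_self_eq_zero.1 e2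
    simp only [Matrix.of_apply]
    linarith
  · intro i j k l
    unfold Bf
    simp only [Matrix.of_apply, hg, Matrix.smul_apply, Matrix.one_apply, smul_eq_mul]
    unfold C
    ring

end Pool.Agent.Helper27.HY
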