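import Pool.Agent.Helper27.HY.Gl

/-!
# Real symmetric matrices
-/

set_option autoImplicit false
set_option linter.unusedSectionVars false

open scoped BigOperators

namespace Pool.Agent.Helper27.HY

variable {J : Type} [Fintype J] [DecidableEq J]

/-- quadratic form -/
def qf (M : Matrix J J ℝ) (x : J → ℝ) : ℝ := ∑ i, ∑ j, M i j * (x i * x j)

/-- pairing -/
def pr (M N : Matrix J J ℝ) : ℝ := ∑ i, ∑ j, M i j * N i j

theorem qf_dot (M : Matrix J J ℝ) (x : J → ℝ) : qf M x = x ⬝ᵥ M.mulVec x := by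
  simp only [qf, dotProduct, Matrix.mulVec, Finset.mul_sum]
  exact Finset.sum_congr rfl fun _ _ => Finset.sum_congr rfl fun _ _ => by ring

theorem qf_trf (T M : Matrix J J ℝ) (x : J → ℝ) : qf (trf T M) x = qf M (T.mulVec x) := by
  rw [qf_dot, qf_dot, trf, ← Matrix.mulVec_mulVec, ← Matrix.mulVec_mulVec,
    Matrix.dotProduct_mulVec x T.transpose, Matrix.vecMul_transpose]

theorem qf_one (x : J → ℝ) : qf (1 : Matrix J J ℝ) x = ∑ i, x i ^ 2 := by
  rw [qf_dot, Matrix.one_mulVec]
  simp [dotProduct, pow_two]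

theorem trf_symm {T M : Matrix J J ℝ} (hM : ∀ i j, M i j = M j i) (i j : J) :
    trf T M i j = trf T M j i := by
  have h : (trf T M).transpose = trf T M := by
    unfold trf
    rw [Matrix.transpose_mul, Matrix.transpose_mul, Matrix.transpose_transpose, Matrix.mul_assoc]
    congr 2
    ext a b
    exact hM b a
  exact congrFun (congrFun h j) i

theorem psd_dec {M : Matrix J J ℝ} (hs : ∀ i j, M i j = M j i) (hp : ∀ x, 0 ≤ qf M x) :
    ∃ (m : ℕ) (a : Fin m → J → ℝ), ∀ i j, M i j = ∑ k, a k i * a k j := by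
  have hP : M.PosSemidef := by
    refine Matrix.PosSemidef.of_dotProduct_mulVec_nonneg ?_ fun x => ?_
    · ext i j
      simp only [Matrix.conjTranspose_apply, star_trivial]
      exact hs j i
    · have := hp x
      rw [qf_dot] at this
      simpa using this
  obtain ⟨m, v, hv⟩ := Matrix.posSemidef_iff_eq_sum_vecMulVec.1 hP
  refine ⟨m, v, fun i j => ?_⟩
  rw [hv, Matrix.sum_apply]
  simp [Matrix.vecMulVec_apply]

theorem pr_dec {M N : Matrix J J ℝ} {m : ℕ} {a : Fin m → J → ℝ}
    (h : ∀ i j, N i j = ∑ k, a k i * a k j) : pr M N = ∑ k, qf M (a k) := by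
  unfold pr qf
  simp only [h, Finset.mul_sum]
  have e : ∀ i, ∑ j, ∑ k, M i j * (a k i * a k j) = ∑ k, ∑ j, M i j * (a k i * a k j) :=
    fun i => Finset.sum_comm
  simp only [e]
  exact Finset.sum_comm

theorem pr_nonneg {M N : Matrix J J ℝ} (hM : ∀ x, 0 ≤ qf M x) (hs : ∀ i j, N i j = N j i)
    (hN : ∀ x, 0 ≤ qf N x) : 0 ≤ pr M N := by
  obtain ⟨m, a, ha⟩ := psd_dec hs hN
  rw [pr_dec ha]
  exact Finset.sum_nonneg fun k _ => hM _

theorem exists_root' (Q : Matrix J J ℝ) (hs : ∀ i j, Q i j = Q j i)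
    (hp : ∀ x, x ≠ 0 → 0 < qf Q x) :
    ∃ B : Matrix J J ℝ, IsUnit B.det ∧ B.transpose * Q * B = 1 := by
  have h : Q.PosDef := by
    refine Matrix.PosDef.of_dotProduct_mulVec_pos ?_ fun x hx => ?_
    · ext i j
      simp only [Matrix.conjTranspose_apply, star_trivial]
      exact hs j i
    · have := hp x hx
      rw [qf_dot] at this
      simpa using this
  open scoped MatrixOrder ComplexOrder in
  obtain ⟨A, hA⟩ := CStarAlgebra.nonneg_iff_eq_star_mul_self.mp h.posSemidef.nonneg
  have hA' : Q = A.transpose * A := by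
    rw [hA]
    simp [Matrix.star_eq_conjTranspose]
  have hd : Q.det ≠ 0 := h.det_pos.ne'
  have hd2 : A.det ≠ 0 := by
    intro h0
    rw [hA', Matrix.det_mul, h0, mul_zero] at hd
    exact hd rfl
  have hu : IsUnit A.det := isUnit_iff_ne_zero.2 hd2
  refine ⟨A⁻¹, ?_, ?_⟩
  · rw [Matrix.det_nonsing_inv]
    exact hu.ringInverse
  · rw [hA', Matrix.transpose_nonsing_inv, ← Matrix.mul_assoc,
      Matrix.nonsing_inv_mul _ (by rwa [Matrix.det_transpose]), Matrix.one_mul,
      Matrix.mul_nonsing_inv _ hu]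

/-- simultaneous diagonalisation -/
theorem simul (X P : Matrix J J ℝ) (hX : ∀ i j, X i j = X j i) (hP : ∀ i j, P i j = P j i)
    (hp : ∀ x, x ≠ 0 → 0 < qf P x) :
    ∃ (T : Matrix J J ℝ) (x : J → ℝ), T.det ≠ 0 ∧ trf T P = 1 ∧ trf T X = Matrix.diagonal x := by
  obtain ⟨B, hB, hBP⟩ := exists_root' P hP hp
  have hH : (trf B X).IsHermitian := by
    ext i j
    simp only [Matrix.conjTranspose_apply, star_trivial]
    exact trf_symm hX j i
  have h1 := hH.conjStarAlgAut_star_eigenvectorUnitary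
  set U : Matrix J J ℝ := (hH.eigenvectorUnitary : Matrix J J ℝ) with hU
  have h2 : U.transpose * trf B X * U = Matrix.diagonal hH.eigenvalues := by
    rw [Unitary.conjStarAlgAut_star_apply] at h1
    simpa [hU, Matrix.star_eq_conjTranspose] using h1
  have h3 : U.transpose * U = 1 := by
    have := Unitary.coe_star_mul_self hH.eigenvectorUnitary
    simpa [hU, Matrix.star_eq_conjTranspose] using this
  refine ⟨B * U, hH.eigenvalues, ?_, ?_, ?_⟩
  · rw [Matrix.det_mul]
    refine mul_ne_zero hB.ne_zero fun h0 => ?_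
    have h4 : (U.transpose * U).det = 1 := by rw [h3, Matrix.det_one]
    rw [Matrix.det_mul, h0, mul_zero] at h4
    exact zero_ne_one h4
  · unfold trf
    have : (B * U).transpose * P * (B * U) = U.transpose * (B.transpose * P * B) * U := by
      rw [Matrix.transpose_mul]
      simp only [Matrix.mul_assoc]
    rw [this, hBP, Matrix.mul_one, h3]
  · rw [← h2]
    unfold trf
    rw [Matrix.transpose_mul]
    simp only [Matrix.mul_assoc]

/-- the trace decreases -/
theorem decr {A0 P Q T : Matrix J J ℝ} (hs : ∀ i j, A0 i j = A0 j i) (h0 : ∀ x, 0 ≤ qf A0 x)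
    (hT : trf T P = 1) (hQ : ∀ x, 0 ≤ qf Q x) (hP : ∀ x, ∑ i, x i ^ 2 + qf Q x ≤ qf P x)
    (hpos : 0 < pr Q A0) : (trf T A0).trace < A0.trace := by
  obtain ⟨m, a, ha⟩ := psd_dec hs h0
  have tr1 : A0.trace = ∑ k, ∑ i, a k i ^ 2 := by
    simp only [Matrix.trace, Matrix.diag_apply, ha]
    rw [Finset.sum_comm]
    exact Finset.sum_congr rfl fun k _ => Finset.sum_congr rfl fun i _ => by ring
  have hAm : A0 = ∑ k, Matrix.vecMulVec (a k) (a k) := by
    ext i j
    rw [ha, Matrix.sum_apply]
    simp [Matrix.vecMulVec_apply]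
  have tr2 : (trf T A0).trace = ∑ k, ∑ i, (T.transpose.mulVec (a k)) i ^ 2 := by
    rw [hAm]
    unfold trf
    rw [Matrix.mul_sum, Matrix.sum_mul, Matrix.trace_sum]
    refine Finset.sum_congr rfl fun k _ => ?_
    rw [Matrix.mul_vecMulVec, Matrix.vecMulVec_mul, ← Matrix.mulVec_transpose]
    simp [Matrix.trace, Matrix.vecMulVec_apply, pow_two]
  rw [tr1, tr2]
  have key : ∀ b : J → ℝ, ∑ i, (T.transpose.mulVec b) i ^ 2 ≤ ∑ i, b i ^ 2 ∧
      (0 < qf Q b → ∑ i, (T.transpose.mulVec b) i ^ 2 < ∑ i, b i ^ 2) := by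
    intro b
    set z := T.transpose.mulVec b with hz
    set y := T.mulVec z with hy
    set s := ∑ i, z i ^ 2 with hsd
    set n := ∑ i, b i ^ 2 with hn
    have f1 : ∑ i, b i * y i = s := by
      have : b ⬝ᵥ T.mulVec z = z ⬝ᵥ z := by
        rw [Matrix.dotProduct_mulVec, ← Matrix.mulVec_transpose]
      have e2 : z ⬝ᵥ z = s := by simp [dotProduct, hsd, pow_two]
      rw [e2] at this
      exact this
    have f2 : qf P y = s := by
      rw [hy, ← qf_trf, hT, qf_one]
    have f3 := hP y
    rw [f2] at f3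
    have f4 := hQ y
    have f5 : (∑ i, b i * y i) ^ 2 ≤ n * ∑ i, y i ^ 2 := Finset.sum_mul_sq_le_sq_mul_sq _ _ _
    rw [f1] at f5
    have hn0 : 0 ≤ n := Finset.sum_nonneg fun i _ => sq_nonneg _
    have hs0 : 0 ≤ s := Finset.sum_nonneg fun i _ => sq_nonneg _
    have f6 : s ^ 2 ≤ n * (s - qf Q y) := f5.trans (mul_le_mul_of_nonneg_left (by linarith) hn0)
    have f7 : s ≤ n := by
      by_contra hc
      push Not at hc
      have : n * (s - qf Q y) ≤ n * s := mul_le_mul_of_nonneg_left (by linarith) hn0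
      nlinarith
    refine ⟨f7, fun hb => ?_⟩
    by_contra hc
    push Not at hc
    have hsn : s = n := le_antisymm f7 hc
    have f8 : ∑ i, (b i - y i) ^ 2 = n - 2 * s + ∑ i, y i ^ 2 := by
      rw [← f1, hn, Finset.mul_sum, ← Finset.sum_sub_distrib, ← Finset.sum_add_distrib]
      exact Finset.sum_congr rfl fun i _ => by ring
    have f9 : ∑ i, (b i - y i) ^ 2 ≤ 0 := by
      rw [f8]
      linarith
    have f10 : y = b := by
      funext i
      have h1 := (Finset.sum_eq_zero_iff_of_nonneg (fun i _ => sq_nonneg (b i - y i))).1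
        (le_antisymm f9 (Finset.sum_nonneg fun i _ => sq_nonneg _)) i (Finset.mem_univ i)
      have h2 : b i - y i = 0 := by
        exact pow_eq_zero_iff (two_ne_zero) |>.1 h1
      linarith
    rw [f10] at f3 f6
    rw [hsn] at f6
    have f11 : 0 < n := by
      by_contra h0
      push Not at h0
      have : n = 0 := le_antisymm h0 hn0
      have hbz : b = 0 := by
        funext i
        have h1 := (Finset.sum_eq_zero_iff_of_nonneg (fun i _ => sq_nonneg (b i))).1
          (this ▸ hn.symm) i (Finset.mem_univ i)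
        exact pow_eq_zero_iff (two_ne_zero) |>.1 h1
      rw [hbz] at hb
      unfold qf at hb
      simp at hb
    nlinarith [mul_pos f11 hb]
  rw [pr_dec ha] at hpos
  obtain ⟨k, -, hk⟩ : ∃ k ∈ Finset.univ, 0 < qf Q (a k) := by
    by_contra hc
    push Not at hc
    exact absurd hpos (not_lt.2 (Finset.sum_nonpos hc))
  exact Finset.sum_lt_sum (fun k _ => (key (a k)).1) ⟨k, Finset.mem_univ k, (key (a k)).2 hk⟩

/-! ### Lorentzian decomposition -/

theorem lor {r : ℕ} (c0 : ℝ) (c : Fin r → ℝ) (h : ∑ k, c k ^ 2 < c0 ^ 2) :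
    ∃ (m : ℕ) (w0 : Fin m → ℝ) (w : Fin m → Fin r → ℝ),
      (∑ t, w0 t * w0 t = c0 * c0 / (c0 ^ 2 - ∑ k, c k ^ 2) - 1) ∧
      (∀ k, ∑ t, w0 t * w t k = -(c0 * c k) / (c0 ^ 2 - ∑ k, c k ^ 2)) ∧
      (∀ k l, ∑ t, w t k * w t l = c k * c l / (c0 ^ 2 - ∑ k, c k ^ 2) +
        (if k = l then 1 else 0)) ∧
      ∀ t, w0 t * c0 + ∑ k, w t k * c k = 0 := by
  set β := c0 ^ 2 - ∑ k, c k ^ 2 with hβ
  have hβ0 : 0 < β := by linarith
  set Q : Matrix (Option (Fin r)) (Option (Fin r)) ℝ := fun a b =>
    match a, b with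
    | none, none => c0 * c0 / β - 1
    | none, some l => -(c0 * c l) / β
    | some k, none => -(c0 * c k) / β
    | some k, some l => c k * c l / β + (if k = l then 1 else 0) with hQ
  have hqf : ∀ x : Option (Fin r) → ℝ, qf Q x = (c0 * x none - ∑ k, c k * x (some k)) ^ 2 / β -
      x none ^ 2 + ∑ k, x (some k) ^ 2 := by
    intro x
    unfold qf
    simp only [Fintype.sum_option, hQ]
    have e1 : ∑ l, -(c0 * c l) / β * (x none * x (some l)) =
        -(c0 * x none / β) * ∑ l, c l * x (some l) := by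
      rw [Finset.mul_sum]
      exact Finset.sum_congr rfl fun l _ => by ring
    have e2 : ∀ k, ∑ l, (c k * c l / β + if k = l then 1 else 0) * (x (some k) * x (some l)) =
        (c k * x (some k) / β) * (∑ l, c l * x (some l)) + x (some k) ^ 2 := by
      intro k
      simp only [add_mul, Finset.sum_add_distrib]
      congr 1
      · rw [Finset.mul_sum]
        exact Finset.sum_congr rfl fun l _ => by ring
      · rw [Finset.sum_eq_single k]
        · simp [pow_two]
        · intro b _ hb
          rw [if_neg (Ne.symm hb), zero_mul]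
        · simp
    simp only [e1, e2, Finset.sum_add_distrib, ← Finset.sum_mul]
    have e3 : ∑ k, -(c0 * c k) / β * (x (some k) * x none) =
        -(c0 * x none / β) * ∑ l, c l * x (some l) := by
      rw [Finset.mul_sum]
      exact Finset.sum_congr rfl fun l _ => by ring
    have e4 : ∑ k, c k * x (some k) / β = (∑ k, c k * x (some k)) / β := by
      rw [Finset.sum_div]
    rw [e3, e4]
    field_simp
    ring
  have hpsd : ∀ x, 0 ≤ qf Q x := by
    intro x
    rw [hqf]
    set a := ∑ k, c k ^ 2 with ha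
    set T := ∑ k, x (some k) ^ 2 with hT
    set d := ∑ k, c k * x (some k) with hd
    set t := x none with ht
    have hU : 0 ≤ t ^ 2 * a - 2 * t * c0 * d + c0 ^ 2 * T := by
      have : t ^ 2 * a - 2 * t * c0 * d + c0 ^ 2 * T = ∑ k, (t * c k - c0 * x (some k)) ^ 2 := by
        rw [ha, hd, hT, Finset.mul_sum, Finset.mul_sum, Finset.mul_sum, ← Finset.sum_sub_distrib,
          ← Finset.sum_add_distrib]
        exact Finset.sum_congr rfl fun k _ => by ring
      rw [this]
      exact Finset.sum_nonneg fun k _ => sq_nonneg _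
    set U := t ^ 2 * a - 2 * t * c0 * d + c0 ^ 2 * T with hUd
    have ha0 : 0 ≤ a := Finset.sum_nonneg fun k _ => sq_nonneg _
    have hc0 : 0 < c0 ^ 2 := by linarith
    have h1 : c0 ^ 2 * (a * T - d ^ 2) ≤ c0 ^ 2 * U := by
      have e : c0 ^ 2 * (a * T - d ^ 2) = a * U - (t * a - c0 * d) ^ 2 := by
        rw [hUd]
        ring
      rw [e]
      nlinarith [sq_nonneg (t * a - c0 * d), mul_le_mul_of_nonneg_right h.le hU]
    have h2 : a * T - d ^ 2 ≤ U := le_of_mul_le_mul_left h1 hc0
    have h3 : (c0 * t - d) ^ 2 / β - t ^ 2 + T = ((c0 * t - d) ^ 2 - β * (t ^ 2 - T)) / β := by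
      field_simp
      ring
    rw [h3]
    refine div_nonneg ?_ hβ0.le
    have h4 : (c0 * t - d) ^ 2 - β * (t ^ 2 - T) = U - (a * T - d ^ 2) := by
      rw [hUd, hβ]
      ring
    rw [h4]
    linarith
  have hsym : ∀ i j, Q i j = Q j i := by
    intro i j
    rcases i with _ | k <;> rcases j with _ | l <;> simp only [hQ]
    by_cases hkl : k = l
    · subst hkl
      rfl
    · rw [if_neg hkl, if_neg (Ne.symm hkl), mul_comm (c k)]
  obtain ⟨m, a, ha⟩ := psd_dec hsym hpsd
  refine ⟨m, fun t => a t none, fun t k => a t (some k), ?_, ?_, ?_, ?_⟩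
  · have := ha none none
    simp only [hQ] at this
    exact this.symm
  · intro k
    have := ha none (some k)
    simp only [hQ] at this
    exact this.symm
  · intro k l
    have := ha (some k) (some l)
    simp only [hQ] at this
    exact this.symm
  · set x : Option (Fin r) → ℝ := fun o => match o with
      | none => c0
      | some k => c k with hx
    have h1 : qf Q x = 0 := by
      rw [hqf]
      simp only [hx]
      have e : ∑ k, c k * c k = ∑ k, c k ^ 2 := Finset.sum_congr rfl fun k _ => by ring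
      rw [e]
      have e2 : c0 * c0 - ∑ k, c k ^ 2 = β := by rw [hβ]; ring
      rw [e2]
      have e3 : β ^ 2 / β = β := by field_simp
      rw [e3, hβ]
      ring
    have h2 : qf Q x = ∑ t, (∑ o, a t o * x o) ^ 2 := by
      unfold qf
      simp only [ha]
      have e : ∀ t, (∑ o, a t o * x o) ^ 2 = ∑ i, ∑ j, a t i * a t j * (x i * x j) := by
        intro t
        rw [pow_two, Finset.sum_mul_sum]
        exact Finset.sum_congr rfl fun _ _ => Finset.sum_congr rfl fun _ _ => by ring
      simp only [e, Finset.sum_mul]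
      have e5 : ∀ i, ∑ j, ∑ t, a t i * a t j * (x i * x j) = ∑ t, ∑ j, a t i * a t j * (x i * x j) :=
        fun i => Finset.sum_comm
      simp only [e5]
      exact Finset.sum_comm
    rw [h2] at h1
    intro t
    have h3 := (Finset.sum_eq_zero_iff_of_nonneg (fun t _ => sq_nonneg _)).1 h1 t
      (Finset.mem_univ t)
    have h4 : ∑ o, a t o * x o = 0 := pow_eq_zero_iff (two_ne_zero) |>.1 h3
    rw [Fintype.sum_option] at h4
    exact h4

end Pool.Agent.Helper27.HY
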