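import Pool.Agent.Helper27.HY.Gl

/-!
# Algebraic lemmas
-/

set_option autoImplicit false
set_option linter.unusedSectionVars false

open scoped BigOperators

namespace Pool.Agent.Helper27.HY

/-! ### polynomials -/

theorem real_poly (V : Polynomial ℝ) (h0 : V.coeff 0 = 0) (h : ∀ t : ℝ, 0 ≤ V.eval t) :
    V.coeff 1 = 0 ∧ 0 ≤ V.coeff 2 := by
  have e1 : V = Polynomial.X * V.divX := by
    have := Polynomial.X_mul_divX_add V
    rw [h0, Polynomial.C_0, add_zero] at this
    exact this.symm
  set V1 := V.divX with hV1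
  have hV1c : Continuous fun t : ℝ => V1.eval t := V1.continuous
  have h1 : ∀ t : ℝ, 0 ≤ t * V1.eval t := by
    intro t
    have := h t
    rw [e1] at this
    simpa using this
  have hz : V1.eval 0 = 0 := by
    refine le_antisymm ?_ ?_
    · by_contra hc
      push Not at hc
      have h2 : ∀ᶠ t in nhds (0 : ℝ), 0 < V1.eval t := hV1c.continuousAt.eventually (lt_mem_nhds hc)
      obtain ⟨δ, hδ, hb⟩ := Metric.eventually_nhds_iff.1 h2
      have h3 := hb (y := -(δ / 2)) (by
        rw [Real.dist_eq, sub_zero, abs_neg, abs_of_pos (by linarith)]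
        linarith)
      have h4 := h1 (-(δ / 2))
      nlinarith
    · by_contra hc
      push Not at hc
      have h2 : ∀ᶠ t in nhds (0 : ℝ), V1.eval t < 0 := hV1c.continuousAt.eventually (gt_mem_nhds hc)
      obtain ⟨δ, hδ, hb⟩ := Metric.eventually_nhds_iff.1 h2
      have h3 := hb (y := δ / 2) (by
        rw [Real.dist_eq, sub_zero, abs_of_pos (by linarith)]
        linarith)
      have h4 := h1 (δ / 2)
      nlinarith
  have hc1 : V1.coeff 0 = 0 := by rw [Polynomial.coeff_zero_eq_eval_zero, hz]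
  have e2 : V1 = Polynomial.X * V1.divX := by
    have := Polynomial.X_mul_divX_add V1
    rw [hc1, Polynomial.C_0, add_zero] at this
    exact this.symm
  set V2 := V1.divX with hV2
  have hV2c : Continuous fun t : ℝ => V2.eval t := V2.continuous
  have h5 : ∀ t : ℝ, 0 ≤ t * (t * V2.eval t) := by
    intro t
    have := h1 t
    rw [e2] at this
    simpa using this
  have h6 : 0 ≤ V2.eval 0 := by
    by_contra hc
    push Not at hc
    have h2 : ∀ᶠ t in nhds (0 : ℝ), V2.eval t < 0 := hV2c.continuousAt.eventually (gt_mem_nhds hc)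
    obtain ⟨δ, hδ, hb⟩ := Metric.eventually_nhds_iff.1 h2
    have h3 := hb (y := δ / 2) (by
      rw [Real.dist_eq, sub_zero, abs_of_pos (by linarith)]
      linarith)
    have h4 := h5 (δ / 2)
    have h7 : 0 < δ / 2 * (δ / 2) := by positivity
    nlinarith [mul_pos h7 (neg_pos.2 h3)]
  have c1 : V.coeff 1 = V1.coeff 0 := by rw [hV1, Polynomial.coeff_divX]
  have c2 : V.coeff 2 = V2.coeff 0 := by rw [hV2, Polynomial.coeff_divX, hV1, Polynomial.coeff_divX]
  rw [c1, c2, hc1, Polynomial.coeff_zero_eq_eval_zero]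
  exact ⟨rfl, h6⟩

/-- the real polynomial `Im (P conj G)` -/
theorem im_poly (P G : Polynomial ℂ) (h0 : P.coeff 0 = 0)
    (h : ∀ t : ℝ, 0 ≤ (P.eval (t : ℂ) * (starRingEnd ℂ) (G.eval (t : ℂ))).im) :
    (P.coeff 1 * (starRingEnd ℂ) (G.coeff 0)).im = 0 ∧
      0 ≤ (P.coeff 2 * (starRingEnd ℂ) (G.coeff 0) + P.coeff 1 * (starRingEnd ℂ) (G.coeff 1)).im := by
  set W : Polynomial ℂ := P * G.map (starRingEnd ℂ) with hW
  set N := W.natDegree + 1 with hN
  set V : Polynomial ℝ := ∑ k ∈ Finset.range (N + 3), Polynomial.monomial k (W.coeff k).im with hV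
  have hVc : ∀ k, k < 3 → V.coeff k = (W.coeff k).im := by
    intro k hk
    rw [hV, Polynomial.finsetSum_coeff]
    simp only [Polynomial.coeff_monomial]
    rw [Finset.sum_eq_single k]
    · rw [if_pos rfl]
    · intro b _ hb
      rw [if_neg hb]
    · intro h
      exact absurd (Finset.mem_range.2 (by omega)) h
  have hVe : ∀ t : ℝ, V.eval t = (W.eval (t : ℂ)).im := by
    intro t
    rw [hV, Polynomial.eval_finsetSum,
      Polynomial.eval_eq_sum_range' (p := W) (n := N + 3) (by omega), Complex.im_sum]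
    refine Finset.sum_congr rfl fun k _ => ?_
    rw [Polynomial.eval_monomial, ← Complex.ofReal_pow, Complex.im_mul_ofReal]
  have hWe : ∀ t : ℝ, W.eval (t : ℂ) = P.eval (t : ℂ) * (starRingEnd ℂ) (G.eval (t : ℂ)) := by
    intro t
    rw [hW, Polynomial.eval_mul]
    congr 1
    have h1 : (starRingEnd ℂ) (G.eval (t : ℂ)) =
        (G.map (starRingEnd ℂ)).eval ((starRingEnd ℂ) (t : ℂ)) := by
      rw [Polynomial.eval_map, Polynomial.eval₂_at_apply]
    rw [h1, Complex.conj_ofReal]
  have hW0 : W.coeff 0 = 0 := by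
    rw [hW, Polynomial.mul_coeff_zero, h0, zero_mul]
  have hW1 : W.coeff 1 = P.coeff 1 * (starRingEnd ℂ) (G.coeff 0) := by
    rw [hW, Polynomial.coeff_mul, Finset.Nat.sum_antidiagonal_eq_sum_range_succ_mk]
    simp [Finset.sum_range_succ, h0]
  have hW2 : W.coeff 2 = P.coeff 2 * (starRingEnd ℂ) (G.coeff 0) +
      P.coeff 1 * (starRingEnd ℂ) (G.coeff 1) := by
    rw [hW, Polynomial.coeff_mul, Finset.Nat.sum_antidiagonal_eq_sum_range_succ_mk]
    simp [Finset.sum_range_succ, h0]
    ring
  have h1 := real_poly V (by rw [hVc 0 (by norm_num), hW0]; simp) (fun t => by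
    rw [hVe, hWe]
    exact h t)
  rw [hVc 1 (by norm_num), hVc 2 (by norm_num), hW1, hW2] at h1
  exact h1

/-- roots in the closed lower half plane -/
theorem root_im (p : Polynomial ℂ) (h0 : p.coeff 0 = 0) (h1 : p.coeff 1 ≠ 0)
    (h : ∀ z : ℂ, 0 < z.im → p.eval z ≠ 0) :
    (p.coeff 2 * (starRingEnd ℂ) (p.coeff 1)).im ≤ 0 := by
  have e1 : p = Polynomial.X * p.divX := by
    have := Polynomial.X_mul_divX_add p
    rw [h0, Polynomial.C_0, add_zero] at this
    exact this.symm
  set q := p.divX with hq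
  have c1 : p.coeff 1 = q.eval 0 := by
    rw [← Polynomial.coeff_zero_eq_eval_zero, hq, Polynomial.coeff_divX]
  have c2 : p.coeff 2 = (Polynomial.derivative q).eval 0 := by
    rw [← Polynomial.coeff_zero_eq_eval_zero, Polynomial.coeff_derivative, hq, Polynomial.coeff_divX]
    simp
  have hq0 : q.eval 0 ≠ 0 := by rwa [← c1]
  have hr : ∀ z ∈ q.roots, z.im ≤ 0 := by
    intro z hz
    by_contra hc
    push Not at hc
    have h2 : q.eval z = 0 := (Polynomial.mem_roots'.1 hz).2
    refine h z hc ?_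
    rw [e1, Polynomial.eval_mul, h2, mul_zero]
  have h3 := (IsAlgClosed.splits q).eval_derivative_div_eval_of_ne_zero hq0
  have h4 : ((Polynomial.derivative q).eval 0 / q.eval 0).im ≤ 0 := by
    rw [h3]
    have h5 : ∀ s : Multiset ℂ, (∀ z ∈ s, z.im ≤ 0) →
        ((s.map fun z => 1 / ((0 : ℂ) - z)).sum).im ≤ 0 := by
      intro s
      induction s using Multiset.induction_on with
      | empty => simp
      | cons a s ih =>
        intro hs
        rw [Multiset.map_cons, Multiset.sum_cons, Complex.add_im]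
        have h6 := ih fun z hz => hs z (Multiset.mem_cons_of_mem hz)
        have h7 := hs a (Multiset.mem_cons_self a s)
        have h8 : (1 / ((0 : ℂ) - a)).im ≤ 0 := by
          rw [one_div, Complex.inv_im]
          simp only [zero_sub, Complex.neg_im, neg_neg]
          exact div_nonpos_of_nonpos_of_nonneg h7 (Complex.normSq_nonneg _)
        linarith
    exact h5 _ hr
  rw [c1, c2]
  have h6 : (Polynomial.derivative q).eval 0 * (starRingEnd ℂ) (q.eval 0) =
      ((Polynomial.derivative q).eval 0 / q.eval 0) * ((Complex.normSq (q.eval 0) : ℝ) : ℂ) := by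
    rw [← Complex.mul_conj]
    field_simp
  rw [h6, Complex.im_mul_ofReal]
  exact mul_nonpos_of_nonpos_of_nonneg h4 (Complex.normSq_nonneg _)

end Pool.Agent.Helper27.HY
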