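import Pool.Agent.Helper27.HY.Stm2

/-!
# SH: adding positive curvature
-/

set_option autoImplicit false

open scoped BigOperators

namespace Pool.Agent.Helper27.HY.SH

/-- the indices different from the block `b` -/
def emb (m : ℕ) (b : Fin (m + 1)) : Fin m × Bool ↪ Fin (m + 1) × Bool where
  toFun a := (b.succAbove a.1, a.2)
  inj' := by
    rintro ⟨a, x⟩ ⟨c, y⟩ h
    simp only [Prod.mk.injEq] at h
    obtain ⟨h1, h2⟩ := h
    rw [Fin.succAbove_right_injective h1, h2]

lemma emb_apply (m : ℕ) (b : Fin (m + 1)) (a : Fin m × Bool) :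
    emb m b a = (b.succAbove a.1, a.2) := rfl

lemma mem_range_emb (m : ℕ) (b : Fin (m + 1)) (z : Fin (m + 1) × Bool) :
    z ∈ Set.range (emb m b) ↔ z.1 ≠ b := by
  constructor
  · rintro ⟨a, rfl⟩
    exact Fin.succAbove_ne b a.1
  · intro h
    obtain ⟨c, hc⟩ := Fin.exists_succAbove_eq h
    exact ⟨(c, z.2), by rw [emb_apply]; ext <;> simp [hc]⟩

/-- the sum over one permutation -/
def HH {m : ℕ} {J : Type} (Q : J → J → J → J → ℝ) (ι : Fin m × Bool → J) : ℝ :=
  ∑ π : Equiv.Perm (Fin m × Bool), ((Equiv.Perm.sign π : ℤ) : ℝ) *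
    ∏ b : Fin m, Q (ι (b, false)) (ι (b, true)) (ι (π (b, false))) (ι (π (b, true)))

lemma sign_sq {J : Type} [Fintype J] [DecidableEq J] (σ : Equiv.Perm J) :
    ((Equiv.Perm.sign σ : ℤ) : ℝ) * ((Equiv.Perm.sign σ : ℤ) : ℝ) = 1 := by
  rcases Int.units_eq_one_or (Equiv.Perm.sign σ) with h | h <;> simp [h]

lemma gbJ_HH {m : ℕ} {J : Type} (Q : J → J → J → J → ℝ) (ι : Fin m × Bool → J) :
    gbJ (fun a b c d => Q (ι a) (ι b) (ι c) (ι d)) =
      ∑ σ : Equiv.Perm (Fin m × Bool), HH Q (ι ∘ σ) := by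
  unfold gbJ HH
  refine Finset.sum_congr rfl fun σ _ => ?_
  rw [← Equiv.sum_comp (Equiv.mulLeft σ)]
  refine Finset.sum_congr rfl fun π _ => ?_
  simp only [Equiv.coe_mulLeft, Equiv.Perm.sign_mul, Equiv.Perm.mul_apply, Function.comp]
  push_cast
  have := sign_sq σ
  linear_combination (((Equiv.Perm.sign π : ℤ) : ℝ) * ∏ b : Fin m,
    Q (ι (σ (b, false))) (ι (σ (b, true))) (ι (σ (π (b, false)))) (ι (σ (π (b, true))))) * this

lemma Kc_inj {J J' : Type} [DecidableEq J] [DecidableEq J'] (ι : J → J')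
    (h : Function.Injective ι) (a b c d : J) : Kc (ι a) (ι b) (ι c) (ι d) = Kc a b c d := by
  simp only [Kc, h.eq_iff]

lemma avg (m : ℕ) (b : Fin (m + 1))
    (Q : Fin (m + 1) × Bool → Fin (m + 1) × Bool → Fin (m + 1) × Bool → Fin (m + 1) × Bool → ℝ) :
    (∑ σ : Equiv.Perm (Fin (m + 1) × Bool), HH Q (σ ∘ emb m b)) *
      (Fintype.card (Equiv.Perm (Fin m × Bool)) : ℝ) =
    ∑ σ : Equiv.Perm (Fin (m + 1) × Bool),
      gbJ (fun p q r s => Q (σ (emb m b p)) (σ (emb m b q)) (σ (emb m b r)) (σ (emb m b s))) := by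
  have h1 : ∀ σ : Equiv.Perm (Fin (m + 1) × Bool),
      gbJ (fun p q r s => Q (σ (emb m b p)) (σ (emb m b q)) (σ (emb m b r)) (σ (emb m b s))) =
      ∑ σ' : Equiv.Perm (Fin m × Bool), HH Q ((σ ∘ emb m b) ∘ σ') :=
    fun σ => gbJ_HH Q (σ ∘ emb m b)
  simp only [h1]
  rw [Finset.sum_comm]
  have h2 : ∀ σ' : Equiv.Perm (Fin m × Bool),
      ∑ σ : Equiv.Perm (Fin (m + 1) × Bool), HH Q ((σ ∘ emb m b) ∘ σ') =
      ∑ σ : Equiv.Perm (Fin (m + 1) × Bool), HH Q (σ ∘ emb m b) := by
    intro σ'
    rw [← Equiv.sum_comp (Equiv.mulRight (σ'.viaEmbedding (emb m b)))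
      (fun σ : Equiv.Perm (Fin (m + 1) × Bool) => HH Q (σ ∘ emb m b))]
    refine Finset.sum_congr rfl fun σ _ => ?_
    congr 1
    funext z
    simp only [Function.comp, Equiv.coe_mulRight, Equiv.Perm.mul_apply,
      Equiv.Perm.viaEmbedding_apply]
  simp only [h2, Finset.sum_const, Finset.card_univ, nsmul_eq_mul]
  ring

/-- a permutation fixing the block `b` comes from the other indices -/
lemma exists_ext (m : ℕ) (b : Fin (m + 1)) (π : Equiv.Perm (Fin (m + 1) × Bool))
    (h0 : π (b, false) = (b, false)) (h1 : π (b, true) = (b, true)) :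
    ∃ π' : Equiv.Perm (Fin m × Bool), π'.viaEmbedding (emb m b) = π := by
  have hfix : ∀ z : Fin (m + 1) × Bool, z.1 = b → π z = z := by
    rintro ⟨c, x⟩ hc
    simp only at hc
    subst hc
    cases x
    · exact h0
    · exact h1
  have hb : ∀ z : Fin (m + 1) × Bool, z ∈ Set.range (emb m b) ↔ π z ∈ Set.range (emb m b) := by
    intro z
    rw [mem_range_emb, mem_range_emb]
    constructor
    · intro h h'
      have h2 := hfix (π z) h'
      have h3 := π.injective h2
      rw [h3] at h'
      exact h h'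
    · intro h h'
      rw [hfix z h'] at h
      exact h h'
  refine ⟨(Equiv.ofInjective (emb m b) (emb m b).injective).permCongr.symm (π.subtypePerm fun z => (hb z).symm), ?_⟩
  ext1 z
  by_cases hz : z ∈ Set.range (emb m b)
  · obtain ⟨w, rfl⟩ := hz
    rw [Equiv.Perm.viaEmbedding_apply]
    simp only [Equiv.permCongr_symm, Equiv.permCongr_apply, Equiv.symm_symm]
    refine (Equiv.apply_ofInjective_symm (emb m b).injective _).trans ?_
    simp
  · rw [Equiv.Perm.viaEmbedding_apply_of_notMem _ _ _ hz]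
    rw [mem_range_emb, not_not] at hz
    exact (hfix z hz).symm

theorem ext_inst {α β : Type} {p : β → Prop} (i1 i2 : DecidablePred p) (e : Equiv.Perm α)
    (g : α ≃ Subtype p) :
    @Equiv.Perm.extendDomain α β e p i1 g = @Equiv.Perm.extendDomain α β e p i2 g := by
  have h : i1 = i2 := Subsingleton.elim _ _
  subst h
  rfl

theorem sign_via (m : ℕ) (b : Fin (m + 1)) (π : Equiv.Perm (Fin m × Bool)) :
    Equiv.Perm.sign (π.viaEmbedding (emb m b)) = Equiv.Perm.sign π := by
  have h := Equiv.Perm.sign_extendDomain π (Equiv.ofInjective (emb m b).1 (emb m b).2)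
  unfold Equiv.Perm.viaEmbedding
  rw [← h]
  exact congrArg Equiv.Perm.sign (ext_inst _ _ _ _)

/-- the inner sum -/
lemma inner (m : ℕ) (b : Fin (m + 1)) (G : Equiv.Perm (Fin (m + 1) × Bool) → ℝ)
    (hG : ∀ π π' : Equiv.Perm (Fin (m + 1) × Bool), (∀ a, π (emb m b a) = π' (emb m b a)) →
      G π = G π') :
    ∑ π : Equiv.Perm (Fin (m + 1) × Bool), ((Equiv.Perm.sign π : ℤ) : ℝ) *
      (Kc (b, false) (b, true) (π (b, false)) (π (b, true)) * G π) =
    2 * ∑ π : Equiv.Perm (Fin m × Bool), ((Equiv.Perm.sign π : ℤ) : ℝ) *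
      G (π.viaEmbedding (emb m b)) := by
  have hA : ∑ π : Equiv.Perm (Fin (m + 1) × Bool), ((Equiv.Perm.sign π : ℤ) : ℝ) *
      (((if (b, false) = π (b, false) then 1 else 0) * (if (b, true) = π (b, true) then 1 else 0)) *
        G π) =
      ∑ π : Equiv.Perm (Fin m × Bool), ((Equiv.Perm.sign π : ℤ) : ℝ) *
      G (π.viaEmbedding (emb m b)) := by
    have hinj : Function.Injective (fun π : Equiv.Perm (Fin m × Bool) =>
        π.viaEmbedding (emb m b)) := Equiv.Perm.viaEmbeddingHom_injective (emb m b)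
    symm
    refine Finset.sum_of_injOn (fun π : Equiv.Perm (Fin m × Bool) => π.viaEmbedding (emb m b))
      hinj.injOn (fun _ _ => Finset.mem_coe.2 (Finset.mem_univ _)) ?_ ?_
    · intro π _ hπ
      by_cases h0 : (b, false) = π (b, false)
      · by_cases h1 : (b, true) = π (b, true)
        · exfalso
          apply hπ
          obtain ⟨π', hπ'⟩ := exists_ext m b π h0.symm h1.symm
          exact ⟨π', Finset.mem_coe.2 (Finset.mem_univ _), hπ'⟩
        · rw [if_neg h1]; ring
      · rw [if_neg h0]; ring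
    · intro π _
      have h : ∀ x : Bool, π.viaEmbedding (emb m b) (b, x) = (b, x) := by
        intro x
        apply Equiv.Perm.viaEmbedding_apply_of_notMem
        rw [mem_range_emb]
        simp
      rw [h, h, if_pos rfl, if_pos rfl, sign_via]
      ring
  have hB : ∑ π : Equiv.Perm (Fin (m + 1) × Bool), ((Equiv.Perm.sign π : ℤ) : ℝ) *
      (((if (b, false) = π (b, true) then 1 else 0) * (if (b, true) = π (b, false) then 1 else 0)) *
        G π) =
      -∑ π : Equiv.Perm (Fin (m + 1) × Bool), ((Equiv.Perm.sign π : ℤ) : ℝ) *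
      (((if (b, false) = π (b, false) then 1 else 0) * (if (b, true) = π (b, true) then 1 else 0)) *
        G π) := by
    rw [← Equiv.sum_comp (Equiv.mulRight (Equiv.swap ((b, false) : Fin (m + 1) × Bool) (b, true))),
      ← Finset.sum_neg_distrib]
    refine Finset.sum_congr rfl fun π _ => ?_
    simp only [Equiv.coe_mulRight, Equiv.Perm.sign_mul, Equiv.Perm.mul_apply,
      Equiv.swap_apply_left, Equiv.swap_apply_right]
    rw [Equiv.Perm.sign_swap (by simp)]
    rw [hG (π * Equiv.swap ((b, false) : Fin (m + 1) × Bool) (b, true)) π ?_]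
    · push_cast
      ring
    · intro a
      rw [Equiv.Perm.mul_apply, Equiv.swap_apply_of_ne_of_ne]
      · rw [emb_apply]
        intro h
        exact Fin.succAbove_ne b a.1 (congrArg Prod.fst h)
      · rw [emb_apply]
        intro h
        exact Fin.succAbove_ne b a.1 (congrArg Prod.fst h)
  have hsplit : ∑ π : Equiv.Perm (Fin (m + 1) × Bool), ((Equiv.Perm.sign π : ℤ) : ℝ) *
      (Kc (b, false) (b, true) (π (b, false)) (π (b, true)) * G π) =
      ∑ π : Equiv.Perm (Fin (m + 1) × Bool), ((Equiv.Perm.sign π : ℤ) : ℝ) *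
      (((if (b, false) = π (b, false) then 1 else 0) * (if (b, true) = π (b, true) then 1 else 0)) *
        G π) - ∑ π : Equiv.Perm (Fin (m + 1) × Bool), ((Equiv.Perm.sign π : ℤ) : ℝ) *
      (((if (b, false) = π (b, true) then 1 else 0) * (if (b, true) = π (b, false) then 1 else 0)) *
        G π) := by
    rw [← Finset.sum_sub_distrib]
    refine Finset.sum_congr rfl fun π _ => ?_
    unfold Kc
    ring
  rw [hsplit, hB, hA]
  ring

/-- one slot filled with the array of constant curvature -/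
lemma slot (m : ℕ) (b : Fin (m + 1))
    (Q : Fin (m + 1) × Bool → Fin (m + 1) × Bool → Fin (m + 1) × Bool → Fin (m + 1) × Bool → ℝ) :
    ∑ σ : Equiv.Perm (Fin (m + 1) × Bool), ∑ τ : Equiv.Perm (Fin (m + 1) × Bool),
      ((Equiv.Perm.sign σ : ℤ) : ℝ) * ((Equiv.Perm.sign τ : ℤ) : ℝ) *
      (Kc (σ (b, false)) (σ (b, true)) (τ (b, false)) (τ (b, true)) * ∏ c : Fin m,
        Q (σ (b.succAbove c, false)) (σ (b.succAbove c, true)) (τ (b.succAbove c, false))
          (τ (b.succAbove c, true))) =
    2 * ∑ σ : Equiv.Perm (Fin (m + 1) × Bool), HH Q (σ ∘ emb m b) := by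
  rw [Finset.mul_sum]
  refine Finset.sum_congr rfl fun σ _ => ?_
  have h := inner m b (fun π => ∏ c : Fin m,
        Q (σ (b.succAbove c, false)) (σ (b.succAbove c, true)) (σ (π (b.succAbove c, false)))
          (σ (π (b.succAbove c, true)))) (by
    intro π π' h
    refine Finset.prod_congr rfl fun c _ => ?_
    have h0 := h (c, false)
    have h1 := h (c, true)
    rw [emb_apply] at h0 h1
    simp only at h0 h1
    rw [h0, h1])
  rw [← Equiv.sum_comp (Equiv.mulLeft σ)]
  have e1 : HH Q (σ ∘ emb m b) = ∑ π : Equiv.Perm (Fin m × Bool), ((Equiv.Perm.sign π : ℤ) : ℝ) *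
      ∏ c : Fin m, Q (σ (b.succAbove c, false)) (σ (b.succAbove c, true))
        (σ (π.viaEmbedding (emb m b) (b.succAbove c, false)))
          (σ (π.viaEmbedding (emb m b) (b.succAbove c, true))) := by
    unfold HH
    refine Finset.sum_congr rfl fun π _ => ?_
    congr 1
    refine Finset.prod_congr rfl fun c _ => ?_
    have h0 := Equiv.Perm.viaEmbedding_apply π (emb m b) (c, false)
    have h1 := Equiv.Perm.viaEmbedding_apply π (emb m b) (c, true)
    rw [emb_apply m b (c, false)] at h0
    rw [emb_apply m b (c, true)] at h1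
    simp only at h0 h1
    rw [h0, h1]
    rfl
  rw [e1, ← h]
  refine Finset.sum_congr rfl fun π _ => ?_
  simp only [Equiv.coe_mulLeft, Equiv.Perm.sign_mul, Equiv.Perm.mul_apply]
  rw [Kc_inj σ σ.injective]
  push_cast
  have := sign_sq σ
  linear_combination (((Equiv.Perm.sign π : ℤ) : ℝ) *
    (Kc (b, false) (b, true) (π (b, false)) (π (b, true)) * ∏ c : Fin m,
        Q (σ (b.succAbove c, false)) (σ (b.succAbove c, true)) (σ (π (b.succAbove c, false)))
          (σ (π (b.succAbove c, true))))) * this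

lemma gbJ_zero (m : ℕ) : gbJ (m := m + 1) (fun _ _ _ _ => 0) = 0 := by
  unfold gbJ
  refine Finset.sum_eq_zero fun σ _ => Finset.sum_eq_zero fun τ _ => ?_
  rw [Finset.prod_const, Finset.card_univ, Fintype.card_fin, zero_pow (by omega), mul_zero]

/-- the derivative of the Gauss-Bonnet sum in the direction of constant curvature -/
lemma hasDerivAt_gbJ (m : ℕ)
    (R : Fin (m + 1) × Bool → Fin (m + 1) × Bool → Fin (m + 1) × Bool → Fin (m + 1) × Bool → ℝ)
    (s : ℝ) :
    HasDerivAt (fun s : ℝ => gbJ (m := m + 1) fun a b c d => R a b c d + s * Kc a b c d)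
      (∑ b : Fin (m + 1), 2 / (Fintype.card (Equiv.Perm (Fin m × Bool)) : ℝ) *
        ∑ σ : Equiv.Perm (Fin (m + 1) × Bool),
          gbJ (m := m) (fun p q r t => R (σ (emb m b p)) (σ (emb m b q)) (σ (emb m b r))
            (σ (emb m b t)) + s * Kc p q r t)) s := by
  set Q : Fin (m + 1) × Bool → Fin (m + 1) × Bool → Fin (m + 1) × Bool →
    Fin (m + 1) × Bool → ℝ := fun a b c d => R a b c d + s * Kc a b c d with hQ
  have hc : (Fintype.card (Equiv.Perm (Fin m × Bool)) : ℝ) ≠ 0 := by
    exact_mod_cast Fintype.card_ne_zero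
  have h1 : ∀ b : Fin (m + 1), 2 / (Fintype.card (Equiv.Perm (Fin m × Bool)) : ℝ) *
        ∑ σ : Equiv.Perm (Fin (m + 1) × Bool),
          gbJ (m := m) (fun p q r t => R (σ (emb m b p)) (σ (emb m b q)) (σ (emb m b r))
            (σ (emb m b t)) + s * Kc p q r t) =
      ∑ σ : Equiv.Perm (Fin (m + 1) × Bool), ∑ τ : Equiv.Perm (Fin (m + 1) × Bool),
      ((Equiv.Perm.sign σ : ℤ) : ℝ) * ((Equiv.Perm.sign τ : ℤ) : ℝ) *
      (Kc (σ (b, false)) (σ (b, true)) (τ (b, false)) (τ (b, true)) * ∏ c : Fin m,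
        Q (σ (b.succAbove c, false)) (σ (b.succAbove c, true)) (τ (b.succAbove c, false))
          (τ (b.succAbove c, true))) := by
    intro b
    rw [slot m b Q]
    have h2 : ∀ σ : Equiv.Perm (Fin (m + 1) × Bool),
        gbJ (m := m) (fun p q r t => R (σ (emb m b p)) (σ (emb m b q)) (σ (emb m b r))
            (σ (emb m b t)) + s * Kc p q r t) =
        gbJ (fun p q r t => Q (σ (emb m b p)) (σ (emb m b q)) (σ (emb m b r))
          (σ (emb m b t))) := by
      intro σ
      congr 1
      funext p q r t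
      rw [hQ]
      simp only
      rw [Kc_inj (fun x => σ (emb m b x)) (σ.injective.comp (emb m b).injective)]
    simp only [h2]
    rw [← avg m b Q]
    field_simp
  simp only [h1]
  rw [Finset.sum_comm]
  unfold gbJ
  refine HasDerivAt.fun_sum fun σ _ => ?_
  rw [Finset.sum_comm]
  refine HasDerivAt.fun_sum fun τ _ => ?_
  rw [← Finset.mul_sum]
  refine HasDerivAt.const_mul _ ?_
  have h3 : ∀ b ∈ (Finset.univ : Finset (Fin (m + 1))), HasDerivAt (fun s : ℝ =>
      R (σ (b, false)) (σ (b, true)) (τ (b, false)) (τ (b, true)) +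
        s * Kc (σ (b, false)) (σ (b, true)) (τ (b, false)) (τ (b, true)))
      (Kc (σ (b, false)) (σ (b, true)) (τ (b, false)) (τ (b, true))) s := by
    intro b _
    have := ((hasDerivAt_id s).mul_const
      (Kc (σ (b, false)) (σ (b, true)) (τ (b, false)) (τ (b, true)) : ℝ)).const_add
      (R (σ (b, false)) (σ (b, true)) (τ (b, false)) (τ (b, true)))
    simpa using this
  have h4 := HasDerivAt.fun_finsetProd h3
  convert h4 using 1
  refine Finset.sum_congr rfl fun b _ => ?_
  rw [smul_eq_mul, mul_comm]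
  congr 1
  have h5 : (Finset.univ : Finset (Fin (m + 1))).erase b =
      Finset.univ.image (fun c : Fin m => b.succAbove c) := by
    rw [← Finset.compl_singleton]
    exact (Fin.image_succAbove_univ b).symm
  rw [h5, Finset.prod_image (fun c _ c' _ h => Fin.succAbove_right_injective h)]

end Pool.Agent.Helper27.HY.SH

namespace Pool.Agent.Helper27.HY

open SH

/-- SH -/
theorem sharp : SharpStm := by
  intro P hP hpos m
  induction m with
  | zero =>
    intro R _ s _
    unfold gbJ
    simp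
  | succ m ih =>
    intro R hR
    have hD : ∀ s : ℝ, HasDerivAt (fun s : ℝ =>
        gbJ (m := m + 1) (fun a b c d => R a b c d + s * Kc a b c d) -
        gbJ (m := m + 1) (fun a b c d => 0 + s * Kc a b c d)) _ s :=
      fun s => (hasDerivAt_gbJ m R s).sub (hasDerivAt_gbJ m (fun _ _ _ _ => 0) s)
    have hmono : MonotoneOn (fun s : ℝ =>
        gbJ (m := m + 1) (fun a b c d => R a b c d + s * Kc a b c d) -
        gbJ (m := m + 1) (fun a b c d => 0 + s * Kc a b c d)) (Set.Ici 0) := by
      apply monotoneOn_of_deriv_nonneg (convex_Ici 0)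
      · exact fun s _ => (hD s).continuousAt.continuousWithinAt
      · exact fun s _ => (hD s).differentiableAt.differentiableWithinAt
      · intro s hs
        rw [interior_Ici, Set.mem_Ioi] at hs
        rw [(hD s).deriv, ← Finset.sum_sub_distrib]
        refine Finset.sum_nonneg fun b _ => ?_
        rw [← mul_sub, ← Finset.sum_sub_distrib]
        refine mul_nonneg (by positivity) (Finset.sum_nonneg fun σ _ => ?_)
        have h := ih (fun p q r t => R (σ (emb m b p)) (σ (emb m b q)) (σ (emb m b r))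
          (σ (emb m b t))) (hP m (fun x => σ (emb m b x))
            (σ.injective.comp (emb m b).injective) R hR) s hs.le
        simp only [zero_add]
        linarith
    intro s hs
    have h1 := hmono (Set.mem_Ici.2 le_rfl) (Set.mem_Ici.2 hs) hs
    simp only [zero_mul, add_zero, zero_add, gbJ_zero] at h1
    have h2 := hpos (m + 1) R hR
    linarith

end Pool.Agent.Helper27.HY
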