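import Pool.Agent.Helper27.HY.Fin

/-!
# From the theorem for arrays to tensors and integrals
-/

set_option autoImplicit false

open scoped BigOperators

namespace Pool.Agent.Helper27.HY

open Pool.Agent.W666.GB MeasureTheory

/-- the diagonal sum -/
theorem Wrap_Yf {m : ℕ} (s : ℝ) :
    Yf (T := Fin m) (fun a b c d => s * (if a = b then 1 else 0) * (if c = d then 1 else 0)) =
      (2 * m).factorial * s ^ m := by
  unfold Yf
  have h : ∀ σ : Equiv.Perm (Fin m × Bool), ∑ τ : Equiv.Perm (Fin m × Bool), sn σ * sn τ *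
      ∏ b : Fin m, (s * (if σ (b, false) = τ (b, false) then 1 else 0) *
        (if σ (b, true) = τ (b, true) then 1 else 0)) = s ^ m := by
    intro σ
    rw [Finset.sum_eq_single σ]
    · rw [sn_mul_self, one_mul]
      simp
    · intro τ _ hτ
      have hex : ∃ x, σ x ≠ τ x := by
        by_contra hcon
        push Not at hcon
        exact hτ (Equiv.ext fun x => (hcon x).symm)
      obtain ⟨⟨b, y⟩, hx⟩ := hex
      have h0 : ∏ b : Fin m, (s * (if σ (b, false) = τ (b, false) then 1 else 0) *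
        (if σ (b, true) = τ (b, true) then (1 : ℝ) else 0)) = 0 := by
        refine Finset.prod_eq_zero (Finset.mem_univ b) ?_
        cases y
        · rw [if_neg hx]; ring
        · rw [if_neg hx]; ring
      rw [h0, mul_zero]
    · intro h
      exact absurd (Finset.mem_univ _) h
  rw [Finset.sum_congr rfl fun σ _ => h σ, Finset.sum_const, Finset.card_univ,
    Fintype.card_perm, nsmul_eq_mul, Fintype.card_prod, Fintype.card_fin, Fintype.card_bool,
    mul_comm m 2]

/-- the Gauss-Bonnet sum of constant curvature -/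
theorem Wrap_gbJ_Kc {m : ℕ} (s : ℝ) :
    gbJ (m := m) (fun a b c d => s * Kc a b c d) = 2 ^ m * ((2 * m).factorial * s ^ m) := by
  have h := lift_sum (B := Fin m)
    (fun a b c d => s * (if a = b then 1 else 0) * (if c = d then 1 else 0))
    (fun a b c d => s * Kc a b c d) (fun i j k l => by
      simp only [Kc, eq_comm (a := l) (b := j), eq_comm (a := k) (b := j)]
      ring)
  rw [Fintype.card_fin, Wrap_Yf] at h
  rw [← h]
  rfl

/-- the normalising constant -/
noncomputable def Wrap_c (m : ℕ) : ℝ := 1 / ((8 * Real.pi) ^ m * m.factorial)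

theorem Wrap_c_pos (m : ℕ) : 0 < Wrap_c m := by
  have := Real.pi_pos
  unfold Wrap_c
  positivity

theorem Wrap_round (m : ℕ) (s : ℝ) :
    roundGB m s = Wrap_c m * gbJ (m := m) (fun a b c d => s * Kc a b c d) := by
  have hπ := Real.pi_pos
  rw [Wrap_gbJ_Kc]
  unfold roundGB Wrap_c
  have : (8 * Real.pi) ^ m = 2 ^ m * (4 * Real.pi) ^ m := by
    rw [← mul_pow]; congr 1; ring
  rw [this]
  field_simp

section

variable {m : ℕ} {V : Type*} [NormedAddCommGroup V] [InnerProductSpace ℝ V]

/-- the array of a tensor -/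
noncomputable def Wrap_A (e : OrthonormalBasis (Fin m × Bool) ℝ V) (R : V → V → V → V → ℝ)
    (a b c d : Fin m × Bool) : ℝ := -R (e a) (e b) (e c) (e d)

theorem Wrap_gbc (e : OrthonormalBasis (Fin m × Bool) ℝ V) (R : V → V → V → V → ℝ) :
    (-1) ^ m * gbc e R = Wrap_c m * gbJ (Wrap_A e R) := by
  unfold gbc Wrap_c gbJ Wrap_A
  have h2 : ∀ σ τ : Equiv.Perm (Fin m × Bool), ∏ b : Fin m,
      -R (e (σ (b, false))) (e (σ (b, true))) (e (τ (b, false))) (e (τ (b, true))) =
      (-1) ^ m * ∏ b : Fin m,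
        R (e (σ (b, false))) (e (σ (b, true))) (e (τ (b, false))) (e (τ (b, true))) := by
    intro σ τ
    rw [Finset.prod_neg, Finset.card_univ, Fintype.card_fin]
  simp only [h2, Finset.mul_sum]
  refine Finset.sum_congr rfl fun σ _ => Finset.sum_congr rfl fun τ _ => ?_
  ring

theorem Wrap_Cv (e : OrthonormalBasis (Fin m × Bool) ℝ V) {R : V → V → V → V → ℝ}
    (hR : AlgCurv R) (s : ℝ) : Cv fun a b c d => Wrap_A e R a b c d - s * Kc a b c d := by
  refine ⟨fun a b c d => ?_, fun a b c d => ?_, fun a b c d => ?_⟩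
  · simp only [Wrap_A, Kc]
    rw [hR.anti (e a) (e b)]
    ring
  · simp only [Wrap_A, Kc]
    rw [hR.pair (e a) (e b) (e c) (e d)]
    simp only [eq_comm (a := c) (b := a), eq_comm (a := d) (b := b), eq_comm (a := c) (b := b),
      eq_comm (a := d) (b := a)]
    ring
  · have hb := hR.bianchi (e a) (e b) (e c) (e d)
    simp only [Wrap_A, Kc]
    simp only [eq_comm (a := b) (b := a), eq_comm (a := c) (b := a), eq_comm (a := c) (b := b)]
    linear_combination -hb

theorem Wrap_kind2 (e : OrthonormalBasis (Fin m × Bool) ℝ V) (R : V → V → V → V → ℝ)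
    (h : Fin m × Bool → Fin m × Bool → ℝ) : kind2 e R h = Bq (Wrap_A e R) h := by
  unfold kind2 Bq Wrap_A
  simp only [← Finset.sum_neg_distrib, neg_mul]

end

theorem Wrap_Bq_Kc {J : Type} [Fintype J] [DecidableEq J] (h : J → J → ℝ)
    (hs : ∀ a b, h a b = h b a) :
    Bq Kc h = (∑ i, h i i) ^ 2 - ∑ i, ∑ j, h i j ^ 2 := by
  unfold Bq Kc
  have h1 : ∀ i j k l : J, ((if i = j then (1 : ℝ) else 0) * (if k = l then 1 else 0) -
      (if i = l then 1 else 0) * (if k = j then 1 else 0)) * (h i j * h k l) =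
      (if i = j then (1 : ℝ) else 0) * ((if k = l then 1 else 0) * (h i j * h k l)) -
      (if k = j then (1 : ℝ) else 0) * ((if i = l then 1 else 0) * (h i j * h k l)) := by
    intro i j k l
    ring
  have e1 : ∀ i : J, ∑ j, ∑ k, ∑ l, (if i = j then (1 : ℝ) else 0) *
      ((if k = l then 1 else 0) * (h i j * h k l)) = ∑ k, h i i * h k k := by
    intro i
    rw [Finset.sum_eq_single i]
    · refine Finset.sum_congr rfl fun k _ => ?_
      rw [Finset.sum_eq_single k]
      · rw [if_pos rfl, if_pos rfl]; ring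
      · intro l _ hl
        rw [if_neg (Ne.symm hl)]; ring
      · intro hh
        exact absurd (Finset.mem_univ _) hh
    · intro j _ hj
      refine Finset.sum_eq_zero fun k _ => Finset.sum_eq_zero fun l _ => ?_
      rw [if_neg (Ne.symm hj), zero_mul]
    · intro hh
      exact absurd (Finset.mem_univ _) hh
  have e2 : ∀ i j : J, ∑ k, ∑ l, (if k = j then (1 : ℝ) else 0) *
      ((if i = l then 1 else 0) * (h i j * h k l)) = h i j ^ 2 := by
    intro i j
    rw [Finset.sum_eq_single j]
    · rw [Finset.sum_eq_single i]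
      · rw [if_pos rfl, if_pos rfl, hs j i]; ring
      · intro l _ hl
        rw [if_neg (Ne.symm hl)]; ring
      · intro hh
        exact absurd (Finset.mem_univ _) hh
    · intro k _ hk
      refine Finset.sum_eq_zero fun l _ => ?_
      rw [if_neg hk, zero_mul]
    · intro hh
      exact absurd (Finset.mem_univ _) hh
  simp only [h1, Finset.sum_sub_distrib]
  simp only [e1, e2]
  congr 1
  rw [pow_two, Finset.sum_mul]
  refine Finset.sum_congr rfl fun i _ => ?_
  rw [Finset.mul_sum]

theorem Wrap_Bq_sub {J : Type} [Fintype J] [DecidableEq J] (R : J → J → J → J → ℝ) (s : ℝ)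
    (h : J → J → ℝ) (hs : ∀ a b, h a b = h b a) :
    Bq (fun a b c d => R a b c d - s * Kc a b c d) h =
      Bq R h - s * ((∑ i, h i i) ^ 2 - ∑ i, ∑ j, h i j ^ 2) := by
  rw [← Wrap_Bq_Kc h hs]
  unfold Bq
  simp only [Finset.mul_sum, ← Finset.sum_sub_distrib]
  refine Finset.sum_congr rfl fun i _ => Finset.sum_congr rfl fun j _ =>
    Finset.sum_congr rfl fun k _ => Finset.sum_congr rfl fun l _ => ?_
  ring

theorem wrap : WrapStm := by
  intro H hS
  have key : ∀ (m : ℕ) (V : Type) [NormedAddCommGroup V] [InnerProductSpace ℝ V]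
      (e : OrthonormalBasis (Fin m × Bool) ℝ V) (R : V → V → V → V → ℝ), AlgCurv R →
      ∀ s : ℝ, 0 ≤ s → OneP (fun a b c d => Wrap_A e R a b c d - s * Kc a b c d) →
      roundGB m s ≤ (-1) ^ m * gbc e R := by
    intro m V _ _ e R hR s hs hO
    have h1 := H m _ (Wrap_Cv e hR s) hO s hs
    simp only [sub_add_cancel] at h1
    rw [Wrap_round, Wrap_gbc]
    exact mul_le_mul_of_nonneg_left h1 (Wrap_c_pos m).le
  have part1 : ∀ (m : ℕ) (V : Type) [NormedAddCommGroup V] [InnerProductSpace ℝ V]
      (e : OrthonormalBasis (Fin m × Bool) ℝ V) (R : V → V → V → V → ℝ), AlgCurv R →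
      (∀ κ : ℝ, 0 ≤ κ → OnePos e R κ → roundGB m κ ≤ (-1) ^ m * gbc e R) ∧
      (OnePosStrict e R → 0 < (-1) ^ m * gbc e R) := by
    intro m V _ _ e R hR
    refine ⟨fun κ hκ hO => ?_, fun hO => ?_⟩
    · obtain ⟨P, hP⟩ := hO
      refine key m V e R hR κ hκ ⟨P, fun h hsym hPh => ?_⟩
      have h1 := hP h hsym hPh
      rw [Wrap_kind2] at h1
      rw [Wrap_Bq_sub _ _ h hsym]
      linarith
    · obtain ⟨P, hP⟩ := hO
      obtain ⟨s, hs, hO'⟩ := hS (Fin m × Bool) (Wrap_A e R) ⟨P, fun h hsym hPh hne => by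
        have h1 := hP h hsym hPh hne
        rwa [Wrap_kind2] at h1⟩
      exact (roundGB_pos hs).trans_le (key m V e R hR s hs.le hO')
  refine ⟨part1, fun m M _ μ K hint => ?_⟩
  have hint' : Integrable (fun p => (-1 : ℝ) ^ m * K.gb p) μ := hint.const_mul _
  refine ⟨fun κ hκ hO => ?_, fun hO => ?_⟩
  · have hr : 0 ≤ roundGB m κ := by
      have := Real.pi_pos
      unfold roundGB
      positivity
    have hp : ∀ p, roundGB m κ ≤ (-1 : ℝ) ^ m * K.gb p := fun p =>
      (part1 m (K.V p) (K.e p) (K.R p) (K.curv p)).1 κ hκ (hO p)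
    rw [← integral_const_mul, ofReal_integral_eq_lintegral_ofReal hint'
      (Filter.Eventually.of_forall fun p => hr.trans (hp p)), ← lintegral_const]
    exact lintegral_mono fun p => ENNReal.ofReal_le_ofReal (hp p)
  · have hr : 0 ≤ roundGB m 0 := by
      have := Real.pi_pos
      unfold roundGB
      positivity
    have hp : ∀ p, 0 ≤ (-1 : ℝ) ^ m * K.gb p := fun p =>
      hr.trans ((part1 m (K.V p) (K.e p) (K.R p) (K.curv p)).1 0 le_rfl (hO p))
    rw [← integral_const_mul]
    refine ⟨integral_nonneg hp, fun hμ => ?_⟩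
    rw [integral_pos_iff_support_of_nonneg hp hint']
    refine pos_iff_ne_zero.2 fun h3 => hμ ?_
    refine measure_mono_null ?_ h3
    intro p hps
    have h4 : 0 < (-1 : ℝ) ^ m * K.gb p :=
      (part1 m (K.V p) (K.e p) (K.R p) (K.curv p)).2 hps
    simp only [Function.mem_support]
    exact h4.ne'

end Pool.Agent.Helper27.HY
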