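import Pool.Agent.Helper27.HY.NV
import Pool.Agent.Helper27.HY.Sharp
import Pool.Agent.Helper27.HY.Wrap
import Pool.Agent.Helper20.HY.Decomp2
import Pool.Agent.Helper32.HY.Restr

/-!
# The theorem for one Lorentzian form
-/

set_option autoImplicit false

namespace Pool.Agent.Helper27.HY

theorem Cv.restr {J J' : Type} {R : J → J → J → J → ℝ} (h : Cv R) (ι : J' → J) :
    Cv fun a b c d => R (ι a) (ι b) (ι c) (ι d) :=
  ⟨fun _ _ _ _ => h.1 _ _ _ _, fun _ _ _ _ => h.2.1 _ _ _ _, fun _ _ _ _ => h.2.2 _ _ _ _⟩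

theorem arr (m : ℕ) (R : Fin m × Bool → Fin m × Bool → Fin m × Bool → Fin m × Bool → ℝ)
    (h1 : Cv R) (h2 : OneP R) (s : ℝ) (hs : 0 ≤ s) :
    gbJ (m := m) (fun a b c d => s * Kc a b c d) ≤
      gbJ (m := m) fun a b c d => R a b c d + s * Kc a b c d :=
  sharp (fun _ R => Cv R ∧ OneP R)
    (fun _ ι hι R hR => ⟨hR.1.restr ι, Pool.Agent.Helper32.HY.restr _ _ ι hι R hR.2⟩)
    (fun m R hR => sign_rep m R (decomp2 _ R hR.1 hR.2)) m R ⟨h1, h2⟩ s hs

end Pool.Agent.Helper27.HY
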