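import Pool.Agent.Helper27.HY.Stm2

/-!
# The extremal case
-/

set_option autoImplicit false
set_option linter.unusedSectionVars false

open scoped BigOperators
open MvPolynomial

namespace Pool.Agent.Helper27.HY

variable {J : Type} [Fintype J] [DecidableEq J] {r : ℕ}

/-! ### preliminaries -/

/-- rank one matrices -/
def rk (e : J → ℝ) : Matrix J J ℝ := Matrix.vecMulVec e e

theorem rk_symm (e : J → ℝ) (i j : J) : rk e i j = rk e j i := by
  simp only [rk, Matrix.vecMulVec_apply]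
  ring

theorem cm_rk (e : J → ℝ) :
    cm (rk e) = Matrix.vecMulVec (fun i => (e i : ℂ)) (fun i => (e i : ℂ)) := by
  ext1 i j
  simp [cm, rk, Matrix.vecMulVec_apply]

theorem f_rk (A0 : Matrix J J ℝ) (A : Fin r → Matrix J J ℝ) (Y : Matrix J J ℂ) (e : J → ℝ)
    (t : ℂ) : f A0 A (Y + t • cm (rk e)) = f A0 A Y + t * D1 A0 A Y (cm (rk e)) := by
  rw [cm_rk]
  exact f_rank1 A0 A Y _ t

theorem qf_add (M N : Matrix J J ℝ) (x : J → ℝ) : qf (M + N) x = qf M x + qf N x := by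
  simp only [qf, Matrix.add_apply, add_mul, Finset.sum_add_distrib]

theorem qf_smul (c : ℝ) (M : Matrix J J ℝ) (x : J → ℝ) : qf (c • M) x = c * qf M x := by
  simp only [qf, Matrix.smul_apply, smul_eq_mul, Finset.mul_sum]
  exact Finset.sum_congr rfl fun _ _ => Finset.sum_congr rfl fun _ _ => by ring

theorem qf_sum {ι : Type*} (s : Finset ι) (M : ι → Matrix J J ℝ) (x : J → ℝ) :
    qf (∑ a ∈ s, M a) x = ∑ a ∈ s, qf (M a) x := by
  classical
  induction s using Finset.induction_on with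
  | empty => simp [qf]
  | insert a s ha ih => rw [Finset.sum_insert ha, Finset.sum_insert ha, qf_add, ih]

theorem qf_rk (e x : J → ℝ) : qf (rk e) x = (∑ i, e i * x i) ^ 2 := by
  rw [pow_two, Finset.sum_mul_sum]
  simp only [qf, rk, Matrix.vecMulVec_apply]
  exact Finset.sum_congr rfl fun _ _ => Finset.sum_congr rfl fun _ _ => by ring

theorem pr_rk (e : J → ℝ) (M : Matrix J J ℝ) : pr (rk e) M = qf M e := by
  simp only [pr, qf, rk, Matrix.vecMulVec_apply]
  exact Finset.sum_congr rfl fun _ _ => Finset.sum_congr rfl fun _ _ => by ring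

theorem pr_smul (c : ℝ) (M N : Matrix J J ℝ) : pr (c • M) N = c * pr M N := by
  simp only [pr, Matrix.smul_apply, smul_eq_mul, Finset.mul_sum]
  exact Finset.sum_congr rfl fun _ _ => Finset.sum_congr rfl fun _ _ => by ring

theorem im_add_smul (Y : Matrix J J ℂ) (t : ℂ) (H : Matrix J J ℝ) :
    im (Y + t • cm H) = im Y + t.im • H := by
  ext1 i j
  simp [im, cm]

theorem cm_add (M N : Matrix J J ℝ) : cm (M + N) = cm M + cm N := by
  ext1 i j
  simp [cm]

theorem cm_smul (c : ℝ) (M : Matrix J J ℝ) : cm (c • M) = (c : ℂ) • cm M := by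
  ext1 i j
  simp [cm]

theorem cm_sum {ι : Type*} (s : Finset ι) (M : ι → Matrix J J ℝ) :
    cm (∑ a ∈ s, M a) = ∑ a ∈ s, cm (M a) := by
  classical
  induction s using Finset.induction_on with
  | empty =>
    ext1 i j
    simp [cm]
  | insert a s ha ih => rw [Finset.sum_insert ha, Finset.sum_insert ha, cm_add, ih]

theorem symm_add {Y : Matrix J J ℂ} {H : Matrix J J ℝ} (hY : ∀ i j, Y i j = Y j i)
    (hH : ∀ i j, H i j = H j i) (t : ℂ) : ∀ i j, (Y + t • cm H) i j = (Y + t • cm H) j i := by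
  intro i j
  simp only [Matrix.add_apply, Matrix.smul_apply, cm, Matrix.map_apply]
  rw [hY i j, hH i j]

theorem sumsq_pos {x : J → ℝ} (hx : x ≠ 0) : 0 < ∑ i, x i ^ 2 := by
  obtain ⟨i, hi⟩ := Function.ne_iff.1 hx
  refine Finset.sum_pos' (fun _ _ => sq_nonneg _) ⟨i, Finset.mem_univ i, ?_⟩
  have : x i ≠ 0 := hi
  positivity

/-- the point -/
noncomputable def Zs (x : J → ℝ) : Matrix J J ℂ := Matrix.diagonal fun j => (x j : ℂ) + Complex.I

theorem Zs_symm (x : J → ℝ) (i j : J) : Zs x i j = Zs x j i := by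
  unfold Zs
  by_cases h : i = j
  · subst h
    rfl
  · rw [Matrix.diagonal_apply_ne _ h, Matrix.diagonal_apply_ne _ (Ne.symm h)]

theorem im_Zs (x : J → ℝ) : im (Zs x) = 1 := by
  ext1 i j
  by_cases h : i = j
  · subst h
    simp [im, Zs]
  · simp [im, Zs, h]

theorem Zs_eq (x : J → ℝ) :
    Zs x = cm (Matrix.diagonal x) + Complex.I • cm (1 : Matrix J J ℝ) := by
  ext1 i j
  by_cases h : i = j
  · subst h
    simp [Zs, cm]
  · simp [Zs, cm, h]

/-! ### the context -/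

/-- the situation at a zero of minimal trace -/
structure Ctx (θ : ℝ) (A0 : Matrix J J ℝ) (A : Fin r → Matrix J J ℝ) (x e0 : J → ℝ) : Prop where
  th0 : 0 ≤ θ
  th1 : θ < 1
  ad : Ad θ A0 A
  mn : ∀ (Y : Matrix J J ℂ) (Q : Matrix J J ℝ), (∀ i j, Y i j = Y j i) → (∀ x, 0 ≤ qf Q x) →
    (∀ x, ∑ i, x i ^ 2 + qf Q x ≤ qf (im Y) x) → 0 < pr Q A0 → f A0 A Y ≠ 0
  nd : ∀ Y : Matrix J J ℂ, (∀ i j, Y i j = Y j i) → (∀ x : J → ℝ, x ≠ 0 → 0 < qf (im Y) x) →
    ∀ e : J → ℝ, e ≠ 0 → D1 A0 A Y (cm (rk e)) ≠ 0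
  zero : f A0 A (Zs x) = 0
  pe : 0 < qf A0 e0

section
variable {θ : ℝ} {A0 : Matrix J J ℝ} {A : Fin r → Matrix J J ℝ} {x e0 : J → ℝ}

theorem Ctx.e0_ne (c : Ctx θ A0 A x e0) : e0 ≠ 0 := by
  rintro rfl
  have := c.pe
  simp [qf] at this

theorem Ctx.half (c : Ctx θ A0 A x e0) {Y : Matrix J J ℂ} (hY : ∀ i j, Y i j = Y j i)
    (h1 : ∀ y : J → ℝ, ∑ i, y i ^ 2 ≤ qf (im Y) y) :
    0 ≤ (f A0 A Y * (starRingEnd ℂ) (D1 A0 A Y (cm (rk e0)))).im := by
  by_contra hc
  push Not at hc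
  set g := D1 A0 A Y (cm (rk e0)) with hg
  have hg0 : g ≠ 0 := c.nd Y hY (fun y hy => lt_of_lt_of_le (sumsq_pos hy) (h1 y)) e0 c.e0_ne
  set t : ℂ := -(f A0 A Y) / g with ht
  have hns : 0 < Complex.normSq g := Complex.normSq_pos.2 hg0
  have htim : 0 < t.im := by
    have e1 : t * ((Complex.normSq g : ℝ) : ℂ) = - (f A0 A Y * (starRingEnd ℂ) g) := by
      rw [ht, ← Complex.mul_conj]
      field_simp
    have e2 : t.im * Complex.normSq g = - (f A0 A Y * (starRingEnd ℂ) g).im := by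
      rw [← Complex.im_mul_ofReal, e1, Complex.neg_im]
    by_contra h
    push Not at h
    have := mul_nonpos_of_nonpos_of_nonneg h hns.le
    linarith
  have hz : f A0 A (Y + t • cm (rk e0)) = 0 := by
    rw [f_rk, ← hg, ht]
    field_simp
    ring
  refine c.mn (Y + t • cm (rk e0)) (t.im • rk e0) (symm_add hY (rk_symm e0) t) ?_ ?_ ?_ hz
  · intro y
    rw [qf_smul, qf_rk]
    exact mul_nonneg htim.le (sq_nonneg _)
  · intro y
    rw [im_add_smul, qf_add]
    linarith [h1 y]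
  · rw [pr_smul, pr_rk]
    exact mul_pos htim c.pe

theorem Ctx.first (c : Ctx θ A0 A x e0) {H : Matrix J J ℝ} (hH : ∀ i j, H i j = H j i) :
    (D1 A0 A (Zs x) (cm H) * (starRingEnd ℂ) (D1 A0 A (Zs x) (cm (rk e0)))).im = 0 ∧
    (D1 A0 A (Zs x) (cm H) = 0 → 0 ≤ (D2 A0 A (Zs x) (cm H) (cm H) *
      (starRingEnd ℂ) (D1 A0 A (Zs x) (cm (rk e0)))).im) := by
  set P := PP A0 A (Zs x) (cm H) with hP
  set G := PP A0 A (Zs x + cm (rk e0)) (cm H) - P with hGd
  have hG : ∀ t : ℂ, G.eval t = D1 A0 A (Zs x + t • cm H) (cm (rk e0)) := by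
    intro t
    rw [hGd, Polynomial.eval_sub, hP, PP_eval, PP_eval]
    have h := f_rk A0 A (Zs x + t • cm H) e0 1
    rw [one_smul, one_mul] at h
    rw [show Zs x + cm (rk e0) + t • cm H = Zs x + t • cm H + cm (rk e0) by abel, h]
    ring
  have hG0 : G.coeff 0 = D1 A0 A (Zs x) (cm (rk e0)) := by
    rw [Polynomial.coeff_zero_eq_eval_zero, hG, zero_smul, add_zero]
  have h := im_poly P G (by rw [hP, PP0, c.zero]) (fun t => by
    rw [hP, PP_eval, hG]
    refine c.half (symm_add (Zs_symm x) hH _) fun y => ?_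
    rw [im_add_smul, im_Zs, Complex.ofReal_im, zero_smul, add_zero, qf_one])
  rw [hG0, hP, PP1] at h
  refine ⟨h.1, fun h0 => ?_⟩
  have h2 := h.2
  rw [h0, zero_mul, add_zero] at h2
  rw [← PP2, mul_assoc]
  have e : (2 * ((PP A0 A (Zs x) (cm H)).coeff 2 *
      (starRingEnd ℂ) (D1 A0 A (Zs x) (cm (rk e0))))).im =
      2 * ((PP A0 A (Zs x) (cm H)).coeff 2 *
      (starRingEnd ℂ) (D1 A0 A (Zs x) (cm (rk e0)))).im := by
    rw [show (2 : ℂ) = ((2 : ℝ) : ℂ) by norm_num, Complex.im_ofReal_mul]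
  rw [e]
  linarith

/-- the real functional -/
noncomputable def lam (A0 : Matrix J J ℝ) (A : Fin r → Matrix J J ℝ) (x e0 : J → ℝ)
    (H : Matrix J J ℝ) : ℝ :=
  (D1 A0 A (Zs x) (cm H) * (starRingEnd ℂ) (D1 A0 A (Zs x) (cm (rk e0)))).re

theorem lam_add (H K : Matrix J J ℝ) :
    lam A0 A x e0 (H + K) = lam A0 A x e0 H + lam A0 A x e0 K := by
  unfold lam
  rw [cm_add, D1_add, add_mul, Complex.add_re]

theorem lam_smul (c : ℝ) (H : Matrix J J ℝ) :
    lam A0 A x e0 (c • H) = c * lam A0 A x e0 H := by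
  unfold lam
  rw [cm_smul, D1_smul, mul_assoc, Complex.re_ofReal_mul]

theorem lam_zero' : lam A0 A x e0 0 = 0 := by
  have := lam_smul (A0 := A0) (A := A) (x := x) (e0 := e0) 0 0
  rwa [zero_smul, zero_mul] at this

theorem lam_sum {ι : Type*} (s : Finset ι) (H : ι → Matrix J J ℝ) :
    lam A0 A x e0 (∑ a ∈ s, H a) = ∑ a ∈ s, lam A0 A x e0 (H a) := by
  classical
  induction s using Finset.induction_on with
  | empty => simpa using lam_zero'
  | insert a s ha ih => rw [Finset.sum_insert ha, Finset.sum_insert ha, lam_add, ih]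

theorem Ctx.lam_eq (c : Ctx θ A0 A x e0) {H : Matrix J J ℝ} (hH : ∀ i j, H i j = H j i) :
    D1 A0 A (Zs x) (cm H) * (starRingEnd ℂ) (D1 A0 A (Zs x) (cm (rk e0))) =
      (lam A0 A x e0 H : ℂ) := by
  apply Complex.ext
  · rfl
  · rw [(c.first hH).1, Complex.ofReal_im]

theorem Ctx.g_ne (c : Ctx θ A0 A x e0) {e : J → ℝ} (he : e ≠ 0) :
    D1 A0 A (Zs x) (cm (rk e)) ≠ 0 :=
  c.nd (Zs x) (Zs_symm x) (fun y hy => by
    rw [im_Zs, qf_one]
    exact sumsq_pos hy) e he

theorem Ctx.lam_zero (c : Ctx θ A0 A x e0) {H : Matrix J J ℝ} (hH : ∀ i j, H i j = H j i)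
    (h : lam A0 A x e0 H = 0) : D1 A0 A (Zs x) (cm H) = 0 := by
  have h1 := c.lam_eq hH
  rw [h, Complex.ofReal_zero] at h1
  rcases mul_eq_zero.1 h1 with h2 | h2
  · exact h2
  · exact absurd ((map_eq_zero _).1 h2) (c.g_ne c.e0_ne)

theorem Ctx.lam_pos (c : Ctx θ A0 A x e0) {e : J → ℝ} (he : e ≠ 0) :
    0 < lam A0 A x e0 (rk e) := by
  have hne : lam A0 A x e0 (rk e) ≠ 0 := fun h => c.g_ne he (c.lam_zero (rk_symm e) h)
  set d := D1 A0 A (Zs x) (cm (rk e)) with hd
  set g0 := D1 A0 A (Zs x) (cm (rk e0)) with hg0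
  set g1 := D1 A0 A (Zs x + cm (rk e0)) (cm (rk e)) - d with hg1
  have key : ∀ τ : ℝ, 0 < τ → 0 ≤ (d * (starRingEnd ℂ) (g0 + Complex.I * τ * g1)).re := by
    intro τ hτ
    set Y := Zs x + (Complex.I * τ) • cm (rk e) with hY
    have h1 : f A0 A Y = Complex.I * τ * d := by rw [hY, f_rk, c.zero, zero_add]
    have h2 : D1 A0 A Y (cm (rk e0)) = g0 + Complex.I * τ * g1 := by
      have h3 := f_rk A0 A Y e0 1
      rw [one_smul, one_mul] at h3
      have h4 : Y + cm (rk e0) = (Zs x + cm (rk e0)) + (Complex.I * τ) • cm (rk e) := by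
        rw [hY]
        abel
      have h5 := f_rk A0 A (Zs x + cm (rk e0)) e (Complex.I * τ)
      have h6 := f_rk A0 A (Zs x) e0 1
      rw [one_smul, one_mul, c.zero, zero_add] at h6
      rw [h4, h5, h6, h1] at h3
      rw [hg1]
      linear_combination -h3
    have h := c.half (Y := Y) (symm_add (Zs_symm x) (rk_symm e) _) (fun y => by
      rw [hY, im_add_smul, im_Zs, qf_add, qf_one, qf_smul, qf_rk]
      have h7 : (Complex.I * (τ : ℂ)).im = τ := by simp
      rw [h7]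
      have := mul_nonneg hτ.le (sq_nonneg (∑ i, e i * y i))
      linarith)
    rw [h1, h2] at h
    set w := (starRingEnd ℂ) (g0 + Complex.I * τ * g1) with hw
    have h8 : (Complex.I * τ * d * w).im = τ * (d * w).re := by
      have : Complex.I * τ * d * w = Complex.I * ((τ : ℂ) * (d * w)) := by ring
      rw [this, Complex.I_mul_im, Complex.re_ofReal_mul]
    rw [h8] at h
    exact nonneg_of_mul_nonneg_right h hτ
  by_contra hc
  push Not at hc
  have hneg : lam A0 A x e0 (rk e) < 0 := lt_of_le_of_ne hc hne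
  set K := (d * (starRingEnd ℂ) (Complex.I * g1)).re with hK
  have hl : ∀ τ : ℝ, 0 < τ → 0 ≤ lam A0 A x e0 (rk e) + τ * K := by
    intro τ hτ
    have h := key τ hτ
    have e1 : (d * (starRingEnd ℂ) (g0 + Complex.I * τ * g1)).re =
        lam A0 A x e0 (rk e) + τ * K := by
      have e2 : d * (starRingEnd ℂ) (g0 + Complex.I * τ * g1) =
          d * (starRingEnd ℂ) g0 + (τ : ℂ) * (d * (starRingEnd ℂ) (Complex.I * g1)) := by
        simp only [map_add, map_mul, Complex.conj_ofReal]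
        ring
      rw [e2, Complex.add_re, Complex.re_ofReal_mul]
      rfl
    rwa [e1] at h
  set L := lam A0 A x e0 (rk e) with hL
  have hK1 : 0 < |K| + 1 := by positivity
  have h1 := hl (-L / (2 * (|K| + 1))) (div_pos (by linarith) (by positivity))
  have h2 : -L / (2 * (|K| + 1)) * K ≤ -L / 2 := by
    rw [div_mul_eq_mul_div, div_le_div_iff₀ (by positivity) (by norm_num)]
    have h3 : K ≤ |K| + 1 := by linarith [le_abs_self K]
    nlinarith
  linarith

theorem Ctx.lam_nonneg (c : Ctx θ A0 A x e0) (e : J → ℝ) : 0 ≤ lam A0 A x e0 (rk e) := by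
  by_cases he : e = 0
  · subst he
    have : rk (0 : J → ℝ) = 0 := by
      ext1 i j
      simp [rk, Matrix.vecMulVec_apply]
    rw [this, lam_zero']
  · exact (c.lam_pos he).le

theorem Ctx.lam_psd (c : Ctx θ A0 A x e0) {M : Matrix J J ℝ} (hs : ∀ i j, M i j = M j i)
    (hp : ∀ y, 0 ≤ qf M y) : 0 ≤ lam A0 A x e0 M ∧ ∀ y, 0 < qf M y → 0 < lam A0 A x e0 M := by
  obtain ⟨m, a, ha⟩ := psd_dec hs hp
  have hM : M = ∑ k, rk (a k) := by
    ext1 i j
    rw [ha, Matrix.sum_apply]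
    simp [rk, Matrix.vecMulVec_apply]
  have h1 : lam A0 A x e0 M = ∑ k, lam A0 A x e0 (rk (a k)) := by rw [hM, lam_sum]
  refine ⟨?_, fun y hy => ?_⟩
  · rw [h1]
    exact Finset.sum_nonneg fun k _ => c.lam_nonneg _
  · obtain ⟨k, hk⟩ : ∃ k, a k ≠ 0 := by
      by_contra hc
      push Not at hc
      have : M = 0 := by
        ext1 i j
        rw [ha]
        simp [hc]
      rw [this] at hy
      simp [qf] at hy
    rw [h1]
    exact Finset.sum_pos' (fun k _ => c.lam_nonneg _) ⟨k, Finset.mem_univ k, c.lam_pos hk⟩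

theorem cs_le {a q : Fin r → ℝ} {s p : ℝ} (hp : 0 ≤ p) (h : (∑ k, a k ^ 2) * (∑ k, q k ^ 2) ≤ p ^ 2)
    (hs : s = ∑ k, a k * q k) : s ≤ p := by
  have h1 : s ^ 2 ≤ p ^ 2 := by
    rw [hs]
    exact (Finset.sum_mul_sq_le_sq_mul_sq _ _ _).trans h
  exact abs_le_of_sq_le_sq' h1 hp |>.2

theorem Ctx.sum_le (c : Ctx θ A0 A x e0) :
    ∑ k, lam A0 A x e0 (A k) ^ 2 ≤ θ ^ 2 * lam A0 A x e0 A0 ^ 2 := by
  set a0 := lam A0 A x e0 A0 with ha0
  set s := ∑ k, lam A0 A x e0 (A k) ^ 2 with hs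
  have hs0 : 0 ≤ s := Finset.sum_nonneg fun _ _ => sq_nonneg _
  have ha0p : 0 ≤ a0 := (c.lam_psd c.ad.symm0 c.ad.nonneg).1
  set S := Real.sqrt s with hS
  have hSS : S ^ 2 = s := Real.sq_sqrt hs0
  have hS0 : 0 ≤ S := Real.sqrt_nonneg s
  set M : Matrix J J ℝ := (θ * S) • A0 + ∑ k, (-lam A0 A x e0 (A k)) • A k with hM
  have hMs : ∀ i j, M i j = M j i := by
    intro i j
    simp only [hM, Matrix.add_apply, Matrix.smul_apply, Matrix.sum_apply]
    rw [c.ad.symm0 i j]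
    congr 1
    exact Finset.sum_congr rfl fun k _ => by rw [c.ad.symm k i j]
  have hMp : ∀ y, 0 ≤ qf M y := by
    intro y
    rw [hM, qf_add, qf_smul, qf_sum]
    simp only [qf_smul]
    have h1 : ∑ k, lam A0 A x e0 (A k) * qf (A k) y ≤ θ * S * qf A0 y := by
      refine cs_le (a := fun k => lam A0 A x e0 (A k)) (q := fun k => qf (A k) y)
        (mul_nonneg (mul_nonneg c.th0 hS0) (c.ad.nonneg y)) ?_ rfl
      have h2 := mul_le_mul_of_nonneg_left (c.ad.bd y) hs0
      calc _ ≤ s * (θ ^ 2 * qf A0 y ^ 2) := h2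
        _ = (θ * S * qf A0 y) ^ 2 := by rw [← hSS]; ring
    have h3 : ∑ k, -lam A0 A x e0 (A k) * qf (A k) y =
        -∑ k, lam A0 A x e0 (A k) * qf (A k) y := by
      rw [← Finset.sum_neg_distrib]
      exact Finset.sum_congr rfl fun k _ => by ring
    rw [h3]
    linarith
  have h1 := (c.lam_psd hMs hMp).1
  rw [hM, lam_add, lam_smul, lam_sum] at h1
  simp only [lam_smul] at h1
  have h2 : ∑ k, -lam A0 A x e0 (A k) * lam A0 A x e0 (A k) = -s := by
    rw [hs, ← Finset.sum_neg_distrib]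
    exact Finset.sum_congr rfl fun k _ => by ring
  rw [h2, ← hSS, ← ha0] at h1
  rw [← hSS]
  by_cases hS1 : S = 0
  · rw [hS1]
    have := mul_nonneg (sq_nonneg θ) (sq_nonneg a0)
    nlinarith
  · have hSp : 0 < S := lt_of_le_of_ne hS0 (Ne.symm hS1)
    have h3 : S ≤ θ * a0 := by
      have : S * S ≤ S * (θ * a0) := by nlinarith
      exact le_of_mul_le_mul_left this hSp
    calc S ^ 2 ≤ (θ * a0) ^ 2 := pow_le_pow_left₀ hS0 h3 2
      _ = _ := by ring

theorem D2_exp (Z : Matrix J J ℂ) (c0 : ℝ) (c : Fin r → ℝ) :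
    D2 A0 A Z (cm (c0 • A0 + ∑ k, c k • A k)) (cm (c0 • A0 + ∑ k, c k • A k)) =
      ((c0 * c0 : ℝ) : ℂ) * D2 A0 A Z (cm A0) (cm A0) +
      2 * ∑ k, ((c0 * c k : ℝ) : ℂ) * D2 A0 A Z (cm A0) (cm (A k)) +
      ∑ k, ∑ l, ((c k * c l : ℝ) : ℂ) * D2 A0 A Z (cm (A k)) (cm (A l)) := by
  have e : cm (c0 • A0 + ∑ k, c k • A k) = (c0 : ℂ) • cm A0 + ∑ k, (c k : ℂ) • cm (A k) := by
    rw [cm_add, cm_smul, cm_sum]
    simp only [cm_smul]
  rw [e]
  rw [D2_add_right, D2_smul_right, D2_sum_right]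
  simp only [D2_smul_right, D2_add_left, D2_smul_left, D2_sum_left, mul_add,
    Finset.sum_add_distrib, Finset.mul_sum]
  have e1 : ∀ k, D2 A0 A Z (cm (A k)) (cm A0) = D2 A0 A Z (cm A0) (cm (A k)) :=
    fun k => D2_symm _ _ _ _ _
  simp only [e1]
  have e2 : ∑ k, ∑ l, (c k : ℂ) * ((c l : ℂ) * D2 A0 A Z (cm (A l)) (cm (A k))) =
      ∑ k, ∑ l, ((c k * c l : ℝ) : ℂ) * D2 A0 A Z (cm (A k)) (cm (A l)) := by
    refine Finset.sum_congr rfl fun k _ => Finset.sum_congr rfl fun l _ => ?_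
    rw [D2_symm A0 A Z (cm (A l))]
    push_cast
    ring
  rw [e2]
  have e3 : ∑ k, (c0 : ℂ) * ((c k : ℂ) * D2 A0 A Z (cm A0) (cm (A k))) =
      ∑ k, ((c0 * c k : ℝ) : ℂ) * D2 A0 A Z (cm A0) (cm (A k)) := by
    refine Finset.sum_congr rfl fun k _ => ?_
    push_cast
    ring
  have e4 : ∑ k, (c k : ℂ) * ((c0 : ℂ) * D2 A0 A Z (cm A0) (cm (A k))) =
      ∑ k, ((c0 * c k : ℝ) : ℂ) * D2 A0 A Z (cm A0) (cm (A k)) := by
    refine Finset.sum_congr rfl fun k _ => ?_
    push_cast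
    ring
  have e5 : ∑ k, 2 * (((c0 * c k : ℝ) : ℂ) * D2 A0 A Z (cm A0) (cm (A k))) =
      2 * ∑ k, ((c0 * c k : ℝ) : ℂ) * D2 A0 A Z (cm A0) (cm (A k)) := by
    rw [Finset.mul_sum]
  rw [e3, e4, e5]
  push_cast
  ring

theorem Ctx.false (c : Ctx θ A0 A x e0) : False := by
  set g0 := D1 A0 A (Zs x) (cm (rk e0)) with hg0
  have hg0n : g0 ≠ 0 := c.g_ne c.e0_ne
  set a0 := lam A0 A x e0 A0 with ha0
  set a : Fin r → ℝ := fun k => lam A0 A x e0 (A k) with ha
  have ha0p : 0 < a0 := (c.lam_psd c.ad.symm0 c.ad.nonneg).2 e0 c.pe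
  have hsum : ∑ k, a k ^ 2 ≤ θ ^ 2 * a0 ^ 2 := c.sum_le
  have hθ2 : θ ^ 2 < 1 := by nlinarith [c.th0, c.th1]
  have hlt : ∑ k, a k ^ 2 < a0 ^ 2 := by
    refine lt_of_le_of_lt hsum ?_
    have : 0 < a0 ^ 2 := by positivity
    nlinarith
  set β := a0 ^ 2 - ∑ k, a k ^ 2 with hβ
  have hβ0 : 0 < β := by linarith
  set b : Matrix J J ℝ := a0 • A0 + ∑ k, (-a k) • A k with hb
  have hbs : ∀ i j, b i j = b j i := by
    intro i j
    simp only [hb, Matrix.add_apply, Matrix.smul_apply, Matrix.sum_apply]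
    rw [c.ad.symm0 i j]
    congr 1
    exact Finset.sum_congr rfl fun k _ => by rw [c.ad.symm k i j]
  have hbq : ∀ y, (1 - θ ^ 2) * a0 * qf A0 y ≤ qf b y := by
    intro y
    rw [hb, qf_add, qf_smul, qf_sum]
    simp only [qf_smul]
    have h1 : ∑ k, a k * qf (A k) y ≤ θ ^ 2 * a0 * qf A0 y := by
      refine cs_le (a := a) (q := fun k => qf (A k) y)
        (mul_nonneg (mul_nonneg (sq_nonneg θ) ha0p.le) (c.ad.nonneg y)) ?_ rfl
      have h2 := mul_le_mul hsum (c.ad.bd y) (Finset.sum_nonneg fun _ _ => sq_nonneg _)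
        (mul_nonneg (sq_nonneg θ) (sq_nonneg a0))
      calc _ ≤ θ ^ 2 * a0 ^ 2 * (θ ^ 2 * qf A0 y ^ 2) := h2
        _ = (θ ^ 2 * a0 * qf A0 y) ^ 2 := by ring
    have h3 : ∑ k, -a k * qf (A k) y = -∑ k, a k * qf (A k) y := by
      rw [← Finset.sum_neg_distrib]
      exact Finset.sum_congr rfl fun k _ => by ring
    rw [h3]
    linarith
  have hbp : ∀ y, 0 ≤ qf b y := by
    intro y
    refine le_trans ?_ (hbq y)
    have h1 := c.ad.nonneg y
    have h2 : 0 ≤ (1 - θ ^ 2) * a0 := mul_nonneg (by linarith) ha0p.le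
    exact mul_nonneg h2 h1
  have hlamb : lam A0 A x e0 b = β := by
    rw [hb, lam_add, lam_smul, lam_sum]
    simp only [lam_smul]
    have h2 : ∑ k, -a k * lam A0 A x e0 (A k) = -∑ k, a k ^ 2 := by
      rw [← Finset.sum_neg_distrib]
      exact Finset.sum_congr rfl fun k _ => by simp only [ha]; ring
    rw [h2, ← ha0, hβ]
    ring
  -- the pairing of `b` and `A0`
  have hprb : 0 < pr b A0 := by
    obtain ⟨m, v, hv⟩ := psd_dec c.ad.symm0 c.ad.nonneg
    have h1 : (1 - θ ^ 2) * a0 * pr A0 A0 ≤ pr b A0 := by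
      rw [pr_dec hv, pr_dec hv, Finset.mul_sum]
      exact Finset.sum_le_sum fun k _ => hbq _
    have h2 : 0 < pr A0 A0 := by
      unfold pr
      have h3 : ∀ i, 0 ≤ ∑ j, A0 i j * A0 i j := fun i => Finset.sum_nonneg fun j _ =>
        mul_self_nonneg _
      refine lt_of_le_of_ne (Finset.sum_nonneg fun i _ => h3 i) fun h4 => ?_
      have h5 := (Finset.sum_eq_zero_iff_of_nonneg fun i _ => h3 i).1 h4.symm
      have h6 : ∀ i j, A0 i j = 0 := by
        intro i j
        have h7 := (Finset.sum_eq_zero_iff_of_nonneg fun j _ => mul_self_nonneg _).1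
          (h5 i (Finset.mem_univ i)) j (Finset.mem_univ j)
        exact mul_self_eq_zero.1 h7
      have h8 := c.pe
      unfold qf at h8
      simp [h6] at h8
    refine lt_of_lt_of_le ?_ h1
    exact mul_pos (mul_pos (by linarith) ha0p) h2
  -- the roots along `b`
  have hroot := root_im (PP A0 A (Zs x) (cm b)) (by rw [PP0, c.zero]) (by
    rw [PP1]
    intro h
    have h1 := c.lam_eq hbs
    rw [h, zero_mul, hlamb] at h1
    have : β = 0 := by exact_mod_cast h1.symm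
    linarith) (fun z hz => by
      rw [PP_eval]
      refine c.mn _ (z.im • b) (symm_add (Zs_symm x) hbs z) ?_ ?_ ?_
      · intro y
        rw [qf_smul]
        exact mul_nonneg hz.le (hbp y)
      · intro y
        rw [im_add_smul, im_Zs, qf_add, qf_one]
      · rw [pr_smul]
        exact mul_pos hz hprb)
  rw [PP1] at hroot
  have hbb : (D2 A0 A (Zs x) (cm b) (cm b) * (starRingEnd ℂ) g0).im ≤ 0 := by
    set p2 := (PP A0 A (Zs x) (cm b)).coeff 2 with hp2
    set db := D1 A0 A (Zs x) (cm b) with hdb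
    have h1 : db * (starRingEnd ℂ) g0 = (β : ℂ) := by
      rw [← hlamb]
      exact c.lam_eq hbs
    have h2 : (starRingEnd ℂ) db * g0 = (β : ℂ) := by
      have := congrArg (starRingEnd ℂ) h1
      rwa [map_mul, Complex.conj_conj, Complex.conj_ofReal] at this
    have h3 : p2 * (starRingEnd ℂ) db * ((Complex.normSq g0 : ℝ) : ℂ) =
        (β : ℂ) * (p2 * (starRingEnd ℂ) g0) := by
      rw [← Complex.mul_conj, ← h2]
      ring
    have h4 : (p2 * (starRingEnd ℂ) db).im * Complex.normSq g0 =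
        β * (p2 * (starRingEnd ℂ) g0).im := by
      rw [← Complex.im_mul_ofReal, h3, Complex.im_ofReal_mul]
    have h5 : β * (p2 * (starRingEnd ℂ) g0).im ≤ 0 := by
      rw [← h4]
      exact mul_nonpos_of_nonpos_of_nonneg hroot (Complex.normSq_nonneg _)
    have h6 : (p2 * (starRingEnd ℂ) g0).im ≤ 0 := by
      by_contra hc
      push Not at hc
      have := mul_pos hβ0 hc
      linarith
    rw [← PP2, mul_assoc, show (2 : ℂ) = ((2 : ℝ) : ℂ) by norm_num, Complex.im_ofReal_mul]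
    linarith
  -- the other directions
  obtain ⟨m, w0, w, h00, h0k, hkl, hort⟩ := lor a0 a hlt
  rw [← hβ] at h00
  simp only [← hβ] at h0k hkl
  have hv : ∀ t, 0 ≤ (D2 A0 A (Zs x) (cm (w0 t • A0 + ∑ k, w t k • A k))
      (cm (w0 t • A0 + ∑ k, w t k • A k)) * (starRingEnd ℂ) g0).im := by
    intro t
    have hvs : ∀ i j, (w0 t • A0 + ∑ k, w t k • A k) i j = (w0 t • A0 + ∑ k, w t k • A k) j i := by
      intro i j
      simp only [Matrix.add_apply, Matrix.smul_apply, Matrix.sum_apply]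
      rw [c.ad.symm0 i j]
      congr 1
      exact Finset.sum_congr rfl fun k _ => by rw [c.ad.symm k i j]
    refine (c.first hvs).2 (c.lam_zero hvs ?_)
    rw [lam_add, lam_smul, lam_sum]
    simp only [lam_smul]
    exact hort t
  have hsumv : ∑ t, D2 A0 A (Zs x) (cm (w0 t • A0 + ∑ k, w t k • A k))
      (cm (w0 t • A0 + ∑ k, w t k • A k)) =
      ((1 / β : ℝ) : ℂ) * D2 A0 A (Zs x) (cm b) (cm b) - D2 A0 A (Zs x) (cm A0) (cm A0) +
        ∑ k, D2 A0 A (Zs x) (cm (A k)) (cm (A k)) := by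
    rw [hb, D2_exp]
    simp only [D2_exp, Finset.sum_add_distrib, ← Finset.mul_sum]
    have e1 : ∑ t, ((w0 t * w0 t : ℝ) : ℂ) * D2 A0 A (Zs x) (cm A0) (cm A0) =
        ((a0 * a0 / β - 1 : ℝ) : ℂ) * D2 A0 A (Zs x) (cm A0) (cm A0) := by
      rw [← Finset.sum_mul, ← h00]
      push_cast
      rfl
    have e2 : ∑ t, ∑ k, ((w0 t * w t k : ℝ) : ℂ) * D2 A0 A (Zs x) (cm A0) (cm (A k)) =
        ∑ k, ((-(a0 * a k) / β : ℝ) : ℂ) * D2 A0 A (Zs x) (cm A0) (cm (A k)) := by
      rw [Finset.sum_comm]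
      refine Finset.sum_congr rfl fun k _ => ?_
      rw [← Finset.sum_mul, ← h0k]
      push_cast
      rfl
    have e3 : ∑ t, ∑ k, ∑ l, ((w t k * w t l : ℝ) : ℂ) * D2 A0 A (Zs x) (cm (A k)) (cm (A l)) =
        ∑ k, ∑ l, ((a k * a l / β + (if k = l then 1 else 0) : ℝ) : ℂ) *
          D2 A0 A (Zs x) (cm (A k)) (cm (A l)) := by
      rw [Finset.sum_comm]
      refine Finset.sum_congr rfl fun k _ => ?_
      rw [Finset.sum_comm]
      refine Finset.sum_congr rfl fun l _ => ?_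
      rw [← Finset.sum_mul, ← hkl]
      push_cast
      rfl
    have e4 : ∑ k, ∑ l, ((a k * a l / β + (if k = l then 1 else 0) : ℝ) : ℂ) *
          D2 A0 A (Zs x) (cm (A k)) (cm (A l)) =
        ((1 / β : ℝ) : ℂ) * ∑ k, ∑ l, ((-a k * -a l : ℝ) : ℂ) *
          D2 A0 A (Zs x) (cm (A k)) (cm (A l)) + ∑ k, D2 A0 A (Zs x) (cm (A k)) (cm (A k)) := by
      rw [Finset.mul_sum, ← Finset.sum_add_distrib]
      refine Finset.sum_congr rfl fun k _ => ?_
      have e5 : D2 A0 A (Zs x) (cm (A k)) (cm (A k)) =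
          ∑ l, ((if k = l then (1 : ℝ) else 0 : ℝ) : ℂ) * D2 A0 A (Zs x) (cm (A k)) (cm (A l)) := by
        rw [Finset.sum_eq_single k]
        · simp
        · intro l _ hl
          simp [Ne.symm hl]
        · simp
      conv_rhs => rw [e5]
      rw [Finset.mul_sum, ← Finset.sum_add_distrib]
      refine Finset.sum_congr rfl fun l _ => ?_
      push_cast
      ring
    have e6 : ∑ k, ((-(a0 * a k) / β : ℝ) : ℂ) * D2 A0 A (Zs x) (cm A0) (cm (A k)) =
        ((1 / β : ℝ) : ℂ) * ∑ k, ((a0 * -a k : ℝ) : ℂ) * D2 A0 A (Zs x) (cm A0) (cm (A k)) := by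
      rw [Finset.mul_sum]
      refine Finset.sum_congr rfl fun k _ => ?_
      push_cast
      ring
    rw [e1, e2, e3, e4, e6]
    push_cast
    ring
  -- the Euler relation
  have heu := euler A0 A (Zs x)
  rw [c.zero, mul_zero] at heu
  have hD1 : (D1 A0 A (Zs x) (Zs x) * (starRingEnd ℂ) g0).im = lam A0 A x e0 1 := by
    have h1 : D1 A0 A (Zs x) (Zs x) * (starRingEnd ℂ) g0 =
        (lam A0 A x e0 (Matrix.diagonal x) : ℂ) + Complex.I * (lam A0 A x e0 1 : ℂ) := by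
      conv_lhs => rw [show D1 A0 A (Zs x) (Zs x) = D1 A0 A (Zs x) (cm (Matrix.diagonal x) +
        Complex.I • cm (1 : Matrix J J ℝ)) by rw [← Zs_eq]]
      rw [D1_add, D1_smul, add_mul, mul_assoc]
      congr 1
      · refine c.lam_eq fun i j => ?_
        by_cases h : i = j
        · subst h
          rfl
        · rw [Matrix.diagonal_apply_ne _ h, Matrix.diagonal_apply_ne _ (Ne.symm h)]
      · congr 1
        refine c.lam_eq fun i j => ?_
        by_cases h : i = j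
        · subst h
          rfl
        · rw [Matrix.one_apply_ne h, Matrix.one_apply_ne (Ne.symm h)]
    rw [h1]
    simp
  have hone : 0 < lam A0 A x e0 1 := by
    refine (c.lam_psd (M := 1) (fun i j => ?_) fun y => ?_).2 e0 ?_
    · by_cases h : i = j
      · subst h
        rfl
      · rw [Matrix.one_apply_ne h, Matrix.one_apply_ne (Ne.symm h)]
    · rw [qf_one]
      exact Finset.sum_nonneg fun _ _ => sq_nonneg _
    · rw [qf_one]
      exact sumsq_pos c.e0_ne
  have hfin : D1 A0 A (Zs x) (Zs x) = ((1 / β : ℝ) : ℂ) * D2 A0 A (Zs x) (cm b) (cm b) -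
      ∑ t, D2 A0 A (Zs x) (cm (w0 t • A0 + ∑ k, w t k • A k))
      (cm (w0 t • A0 + ∑ k, w t k • A k)) := by
    rw [hsumv]
    linear_combination -heu
  have h1 : (D1 A0 A (Zs x) (Zs x) * (starRingEnd ℂ) g0).im ≤ 0 := by
    rw [hfin, sub_mul, Complex.sub_im, mul_assoc, Complex.im_ofReal_mul, Finset.sum_mul,
      Complex.im_sum]
    have h2 := Finset.sum_nonneg fun t (_ : t ∈ Finset.univ) => hv t
    have h3 : 1 / β * (D2 A0 A (Zs x) (cm b) (cm b) * (starRingEnd ℂ) g0).im ≤ 0 :=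
      mul_nonpos_of_nonneg_of_nonpos (by positivity) hbb
    linarith
  rw [hD1] at h1
  linarith

end

/-- the extremal case -/
theorem contra : ContraStm := by
  intro n r θ h0 h1 A0 A hA hmn hnd x hz
  by_cases hc : ∃ e0, 0 < qf A0 e0
  · obtain ⟨e0, he0⟩ := hc
    exact (⟨h0, h1, hA, hmn, hnd, hz, he0⟩ : Ctx θ A0 A x e0).false
  · push Not at hc
    have htr : A0.trace ≤ 0 := by
      rw [Matrix.trace]
      refine Finset.sum_nonpos fun i _ => ?_
      have h2 := hc (fun a => (if a = i then 1 else 0) + 0 * (if a = i then 1 else 0))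
      rw [qf_two] at h2
      simp only [Matrix.diag_apply]
      linarith
    have hA0 : A0 = 0 := by
      ext i j
      have h2 := hA.bound1 htr i j
      have h3 := abs_nonneg (A0 i j)
      have h4 : |A0 i j| = 0 := le_antisymm h2 h3
      simpa using h4
    have hAk : ∀ k, A k = 0 := by
      intro k
      ext i j
      have h2 := hA.bound2 h0 h1 htr k i j
      have h3 := abs_nonneg (A k i j)
      have h4 : |A k i j| = 0 := le_antisymm h2 h3
      simpa using h4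
    have hG : GA A0 A = 0 := by
      ext1 i j
      simp [GA, hA0, hAk]
    unfold f at hz
    rw [hG, add_zero] at hz
    have h2 : ((Matrix.diagonal fun j => (x j : ℂ) + Complex.I).map C :
        Matrix (Fin (n + 1)) (Fin (n + 1)) (S r)) =
        Matrix.diagonal fun j => C ((x j : ℂ) + Complex.I) := by
      ext1 i j
      by_cases h : i = j
      · subst h
        simp
      · simp [h]
    rw [h2, Matrix.det_diagonal, ← map_prod, E_C, Finset.prod_eq_zero_iff] at hz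
    obtain ⟨j, -, hj⟩ := hz
    have h3 := congrArg Complex.im hj
    simp at h3

end Pool.Agent.Helper27.HY
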