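import Mathlib

/-!
# Gaussian functionals of determinants
-/

set_option autoImplicit false

open scoped BigOperators
open MvPolynomial

namespace Pool.Agent.Helper27.HY

/-- polynomials in `r + 1` variables -/
abbrev S (r : ℕ) : Type := MvPolynomial (Option (Fin r)) ℂ

/-- the moments of the standard Gaussian distribution -/
def mom : ℕ → ℂ
  | 0 => 1
  | 1 => 0
  | (k + 2) => (k + 1) * mom k

theorem mom_succ (k : ℕ) : mom (k + 1) = k * mom (k - 1) := by
  cases k with
  | zero => simp [mom]
  | succ k => simp [mom]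

/-- the expectation -/
noncomputable def E (r : ℕ) : S r →ₗ[ℂ] ℂ :=
  (basisMonomials (Option (Fin r)) ℂ).constr ℂ fun d => ∏ a, mom (d a)

theorem E_monomial {r : ℕ} (d : Option (Fin r) →₀ ℕ) (c : ℂ) :
    E r (monomial d c) = c * ∏ a, mom (d a) := by
  have h : (monomial d c : S r) = c • (basisMonomials (Option (Fin r)) ℂ) d := by
    rw [coe_basisMonomials, smul_monomial, smul_eq_mul, mul_one]
  rw [h, map_smul, E, Module.Basis.constr_basis, smul_eq_mul]

theorem E_C_mul {r : ℕ} (c : ℂ) (q : S r) : E r (C c * q) = c * E r q := by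
  rw [← smul_eq_C_mul, map_smul, smul_eq_mul]

theorem E_one {r : ℕ} : E r 1 = 1 := by
  have h : (1 : S r) = monomial 0 1 := rfl
  rw [h, E_monomial]
  simp [mom]

theorem E_C {r : ℕ} (c : ℂ) : E r (C c) = c := by
  have := E_C_mul (r := r) c 1
  rwa [mul_one, E_one, mul_one] at this

/-- Integration by parts. -/
theorem stein {r : ℕ} (a : Option (Fin r)) (q : S r) : E r (X a * q) = E r (pderiv a q) := by
  induction q using MvPolynomial.induction_on' with
  | monomial d c =>
    set d1 : Option (Fin r) →₀ ℕ := Finsupp.single a 1 + d with hd1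
    set d2 : Option (Fin r) →₀ ℕ := d - Finsupp.single a 1 with hd2
    have e1 : (X a : S r) * monomial d c = monomial d1 c := by
      rw [X, monomial_mul, one_mul]
    rw [e1, pderiv_monomial, E_monomial, E_monomial]
    rw [← Finset.mul_prod_erase Finset.univ (fun b => mom (d1 b)) (Finset.mem_univ a),
      ← Finset.mul_prod_erase Finset.univ (fun b => mom (d2 b)) (Finset.mem_univ a)]
    have h1 : ∏ b ∈ Finset.univ.erase a, mom (d1 b) =
        ∏ b ∈ Finset.univ.erase a, mom (d2 b) := by
      refine Finset.prod_congr rfl fun b hb => ?_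
      have hne : a ≠ b := (Finset.ne_of_mem_erase hb).symm
      simp [hd1, hd2, Finsupp.single_apply, hne]
    rw [h1]
    have h3 : d1 a = d a + 1 := by
      simp [hd1, add_comm]
    have h4 : d2 a = d a - 1 := by simp [hd2]
    rw [h3, h4, mom_succ]
    ring
  | add p q hp hq => rw [mul_add, map_add, map_add, hp, hq, map_add]

variable {J : Type} [Fintype J] [DecidableEq J] {r : ℕ}

/-- the Gaussian matrix `i g₀ A₀ + ∑ g_k A_k` -/
noncomputable def GA (A0 : Matrix J J ℝ) (A : Fin r → Matrix J J ℝ) : Matrix J J (S r) :=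
  fun i j => C (Complex.I * (A0 i j : ℂ)) * X none + ∑ k, C ((A k i j : ℝ) : ℂ) * X (some k)

/-- the expectation of the determinant of `Y + i g₀ A₀ + ∑ g_k A_k` -/
noncomputable def f (A0 : Matrix J J ℝ) (A : Fin r → Matrix J J ℝ) (Y : Matrix J J ℂ) : ℂ :=
  E r (Matrix.det (Y.map C + GA A0 A))

end Pool.Agent.Helper27.HY
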