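import Pool.Agent.Helper27.HY.Mat
import Pool.Agent.Helper27.HY.Alg

/-!
# Continuity and compactness
-/

set_option autoImplicit false
set_option linter.unusedSectionVars false

open scoped BigOperators
open MvPolynomial

namespace Pool.Agent.Helper27.HY

/-! ### continuous families of polynomials -/

section
variable {Z : Type} [TopologicalSpace Z] {r : ℕ}

/-- families of polynomials which depend continuously on a parameter -/
def CF (g : Z → S r) : Prop :=
  ∃ (ι : Type) (_ : Fintype ι) (c : ι → Z → ℂ) (q : ι → S r), (∀ s, Continuous (c s)) ∧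
    ∀ z, g z = ∑ s, C (c s z) * q s

theorem CF.add {g h : Z → S r} (hg : CF g) (hh : CF h) : CF fun z => g z + h z := by
  obtain ⟨ι, _, c, q, hc, he⟩ := hg
  obtain ⟨ι', _, c', q', hc', he'⟩ := hh
  refine ⟨ι ⊕ ι', inferInstance, Sum.elim c c', Sum.elim q q', ?_, ?_⟩
  · rintro (s | s)
    · exact hc s
    · exact hc' s
  · intro z
    show g z + h z = _
    rw [he, he', Fintype.sum_sum_type]
    rfl

theorem CF.mul {g h : Z → S r} (hg : CF g) (hh : CF h) : CF fun z => g z * h z := by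
  obtain ⟨ι, _, c, q, hc, he⟩ := hg
  obtain ⟨ι', _, c', q', hc', he'⟩ := hh
  refine ⟨ι × ι', inferInstance, fun s z => c s.1 z * c' s.2 z, fun s => q s.1 * q' s.2, ?_, ?_⟩
  · exact fun s => (hc s.1).mul (hc' s.2)
  · intro z
    show g z * h z = _
    rw [he, he', Finset.sum_mul_sum, Fintype.sum_prod_type]
    refine Finset.sum_congr rfl fun a _ => Finset.sum_congr rfl fun b _ => ?_
    rw [C_mul]
    ring

theorem CF.cst {c : Z → ℂ} (hc : Continuous c) : CF (r := r) fun z => C (c z) :=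
  ⟨Unit, inferInstance, fun _ => c, fun _ => 1, fun _ => hc, fun z => by simp⟩

theorem CF.fix (q : S r) : CF fun _ : Z => q :=
  ⟨Unit, inferInstance, fun _ _ => 1, fun _ => q, fun _ => continuous_const, fun z => by simp⟩

theorem CF.sum {ι : Type*} (s : Finset ι) {g : ι → Z → S r} (hg : ∀ i ∈ s, CF (g i)) :
    CF fun z => ∑ i ∈ s, g i z := by
  classical
  induction s using Finset.induction_on with
  | empty => simpa using CF.fix (0 : S r)
  | insert a s ha ih =>
    have h1 := (hg a (Finset.mem_insert_self a s)).add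
      (ih fun i hi => hg i (Finset.mem_insert_of_mem hi))
    refine cast ?_ h1
    congr 1
    funext z
    rw [Finset.sum_insert ha]

theorem CF.prod {ι : Type*} (s : Finset ι) {g : ι → Z → S r} (hg : ∀ i ∈ s, CF (g i)) :
    CF fun z => ∏ i ∈ s, g i z := by
  classical
  induction s using Finset.induction_on with
  | empty => simpa using CF.fix (1 : S r)
  | insert a s ha ih =>
    have h1 := (hg a (Finset.mem_insert_self a s)).mul
      (ih fun i hi => hg i (Finset.mem_insert_of_mem hi))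
    refine cast ?_ h1
    congr 1
    funext z
    rw [Finset.prod_insert ha]

theorem CF.cont {g : Z → S r} (hg : CF g) : Continuous fun z => E r (g z) := by
  obtain ⟨ι, _, c, q, hc, he⟩ := hg
  have : (fun z => E r (g z)) = fun z => ∑ s, c s z * E r (q s) := by
    funext z
    rw [he, map_sum]
    exact Finset.sum_congr rfl fun s _ => E_C_mul _ _
  rw [this]
  exact continuous_finsetSum _ fun s _ => (hc s).mul continuous_const

theorem CF.det {J : Type} [Fintype J] [DecidableEq J] {M : Z → Matrix J J (S r)}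
    (h : ∀ i j, CF fun z => M z i j) : CF fun z => (M z).det := by
  have : (fun z => (M z).det) = fun z => ∑ σ : Equiv.Perm J,
      ((Equiv.Perm.sign σ : ℤ) : S r) * ∏ i, M z (σ i) i := by
    funext z
    rw [Matrix.det_apply']
  rw [this]
  exact CF.sum _ fun σ _ => (CF.fix _).mul (CF.prod _ fun i _ => h _ _)

end

/-! ### the admissible matrices -/

/-- admissible families -/
structure Ad {J : Type} [Fintype J] {r : ℕ} (θ : ℝ) (A0 : Matrix J J ℝ)
    (A : Fin r → Matrix J J ℝ) : Prop where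
  symm0 : ∀ i j, A0 i j = A0 j i
  symm : ∀ k i j, A k i j = A k j i
  nonneg : ∀ x, 0 ≤ qf A0 x
  bd : ∀ x, ∑ k, qf (A k) x ^ 2 ≤ θ ^ 2 * qf A0 x ^ 2

section
variable {J : Type} [Fintype J] [DecidableEq J] {r : ℕ}

theorem qf_two (M : Matrix J J ℝ) (i j : J) (t : ℝ) :
    qf M (fun a => (if a = i then 1 else 0) + t * (if a = j then 1 else 0)) =
      M i i + t * (M i j + M j i) + t ^ 2 * M j j := by
  unfold qf
  have e : ∀ a b, M a b * (((if a = i then 1 else 0) + t * (if a = j then 1 else 0)) *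
      ((if b = i then 1 else 0) + t * (if b = j then 1 else 0))) =
      (if a = i then (if b = i then M a b else 0) else 0) +
      t * ((if a = i then (if b = j then M a b else 0) else 0) +
        (if a = j then (if b = i then M a b else 0) else 0)) +
      t ^ 2 * (if a = j then (if b = j then M a b else 0) else 0) := by
    intro a b
    split_ifs <;> ring
  simp only [e, Finset.sum_add_distrib, ← Finset.mul_sum]
  simp

theorem Ad.trf {θ : ℝ} {A0 : Matrix J J ℝ} {A : Fin r → Matrix J J ℝ} (h : Ad θ A0 A)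
    (T : Matrix J J ℝ) : Ad θ (HY.trf T A0) fun k => HY.trf T (A k) := by
  refine ⟨fun i j => trf_symm h.symm0 i j, fun k i j => trf_symm (h.symm k) i j, fun x => ?_,
    fun x => ?_⟩
  · rw [qf_trf]
    exact h.nonneg _
  · simp only [qf_trf]
    exact h.bd _

theorem qf_sub {n : ℕ} (M : Matrix (Fin (n + 1)) (Fin (n + 1)) ℝ) (j : Fin (n + 1))
    (x : Fin n → ℝ) : qf (M.submatrix j.succAbove j.succAbove) x =
      qf M (j.insertNth 0 x) := by
  unfold qf
  rw [Fin.sum_univ_succAbove _ j]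
  have e0 : ∑ b, M j b * ((j.insertNth 0 x : Fin (n + 1) → ℝ) j *
      (j.insertNth 0 x : Fin (n + 1) → ℝ) b) = 0 := by
    refine Finset.sum_eq_zero fun b _ => ?_
    rw [Fin.insertNth_apply_same]
    ring
  rw [e0, zero_add]
  refine Finset.sum_congr rfl fun a _ => ?_
  rw [Fin.sum_univ_succAbove _ j]
  rw [Fin.insertNth_apply_same, Fin.insertNth_apply_succAbove]
  simp only [Fin.insertNth_apply_succAbove, Matrix.submatrix_apply]
  ring

theorem Ad.sub {n : ℕ} {θ : ℝ} {A0 : Matrix (Fin (n + 1)) (Fin (n + 1)) ℝ}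
    {A : Fin r → Matrix (Fin (n + 1)) (Fin (n + 1)) ℝ} (h : Ad θ A0 A) (j : Fin (n + 1)) :
    Ad θ (A0.submatrix j.succAbove j.succAbove)
      fun k => (A k).submatrix j.succAbove j.succAbove := by
  refine ⟨fun a b => h.symm0 _ _, fun k a b => h.symm k _ _, fun x => ?_, fun x => ?_⟩
  · rw [qf_sub]
    exact h.nonneg _
  · simp only [qf_sub]
    exact h.bd _

theorem Ad.bound0 {θ : ℝ} {A0 : Matrix J J ℝ} {A : Fin r → Matrix J J ℝ} (h : Ad θ A0 A)
    {c : ℝ} (hc : A0.trace ≤ c) (i : J) : A0 i i ≤ c := by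
  have h1 : ∀ a, 0 ≤ A0 a a := by
    intro a
    have := h.nonneg (fun b => (if b = a then 1 else 0) + 0 * (if b = a then 1 else 0))
    rw [qf_two] at this
    linarith
  refine le_trans ?_ hc
  exact Finset.single_le_sum (f := fun a => A0 a a) (fun a _ => h1 a) (Finset.mem_univ i)

theorem Ad.bound1 {θ : ℝ} {A0 : Matrix J J ℝ} {A : Fin r → Matrix J J ℝ} (h : Ad θ A0 A)
    {c : ℝ} (hc : A0.trace ≤ c) (i j : J) : |A0 i j| ≤ c := by
  have h1 := h.nonneg (fun a => (if a = i then 1 else 0) + 1 * (if a = j then 1 else 0))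
  have h2 := h.nonneg (fun a => (if a = i then 1 else 0) + (-1) * (if a = j then 1 else 0))
  rw [qf_two] at h1 h2
  have h3 := h.symm0 i j
  have h4 := h.bound0 hc i
  have h5 := h.bound0 hc j
  rw [abs_le]
  constructor <;> linarith

theorem Ad.qf_le {θ : ℝ} (hθ0 : 0 ≤ θ) (hθ : θ < 1) {A0 : Matrix J J ℝ}
    {A : Fin r → Matrix J J ℝ} (h : Ad θ A0 A) (k : Fin r) (x : J → ℝ) :
    |qf (A k) x| ≤ qf A0 x := by
  refine abs_le_of_sq_le_sq ?_ (h.nonneg x)
  have h1 := h.bd x
  have h2 : qf (A k) x ^ 2 ≤ ∑ k, qf (A k) x ^ 2 :=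
    Finset.single_le_sum (f := fun k => qf (A k) x ^ 2) (fun k _ => sq_nonneg _) (Finset.mem_univ k)
  have h3 : θ ^ 2 ≤ 1 := by nlinarith
  nlinarith [mul_le_mul_of_nonneg_right h3 (sq_nonneg (qf A0 x))]

theorem Ad.bound2 {θ : ℝ} (hθ0 : 0 ≤ θ) (hθ : θ < 1) {A0 : Matrix J J ℝ}
    {A : Fin r → Matrix J J ℝ} (h : Ad θ A0 A) {c : ℝ} (hc : A0.trace ≤ c) (k : Fin r) (i j : J) :
    |A k i j| ≤ c := by
  have h1 := h.qf_le hθ0 hθ k (fun a => (if a = i then 1 else 0) + 1 * (if a = j then 1 else 0))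
  have h2 := h.qf_le hθ0 hθ k (fun a => (if a = i then 1 else 0) + (-1) * (if a = j then 1 else 0))
  rw [qf_two, qf_two, abs_le] at h1 h2
  have h3 := h.symm0 i j
  have h6 := h.symm k i j
  have h4 := h.bound0 hc i
  have h5 := h.bound0 hc j
  rw [abs_le]
  constructor <;> linarith [h1.1, h1.2, h2.1, h2.2]

end

/-! ### compactness -/

section
variable {n r : ℕ}

/-- the parameter space -/
abbrev ZZ (n r : ℕ) : Type := (Fin n → Fin n → ℝ) × (Fin r → Fin n → Fin n → ℝ) × (Fin n → ℝ)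

/-- the functional in terms of angles -/
noncomputable def Fz (z : ZZ n r) : ℂ :=
  FF (Matrix.of z.1) (fun k => Matrix.of (z.2.1 k)) (fun i => Complex.exp (Complex.I * (z.2.2 i : ℂ)))
    (fun i => Real.sin (z.2.2 i))

theorem Fz_cont : Continuous (Fz (n := n) (r := r)) := by
  unfold Fz FF
  refine CF.cont (CF.det fun i j => ?_)
  simp only [Matrix.of_apply, GA]
  refine CF.add (CF.cst ?_) (CF.mul (CF.cst ?_) (CF.add (CF.mul (CF.cst ?_) (CF.fix _))
    (CF.sum _ fun k _ => CF.mul (CF.cst ?_) (CF.fix _))))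
  · by_cases h : i = j
    · simp only [h, if_true]
      fun_prop
    · simp only [h, if_false]
      fun_prop
  · fun_prop
  · fun_prop
  · fun_prop

/-- the zeros -/
def Zer (n r : ℕ) (θ : ℝ) : Set (ZZ n r) :=
  {z | Ad θ (Matrix.of z.1) (fun k => Matrix.of (z.2.1 k)) ∧
    (∀ i, z.2.2 i ∈ Set.Icc 0 Real.pi) ∧ Fz z = 0}

theorem Zer_closed (θ : ℝ) : IsClosed (Zer n r θ) := by
  have e : Zer n r θ = {z : ZZ n r | ∀ i j, z.1 i j = z.1 j i} ∩
      ({z : ZZ n r | ∀ k i j, z.2.1 k i j = z.2.1 k j i} ∩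
      ({z : ZZ n r | ∀ x, 0 ≤ qf (Matrix.of z.1) x} ∩
      ({z : ZZ n r | ∀ x, ∑ k, qf (Matrix.of (z.2.1 k)) x ^ 2 ≤
        θ ^ 2 * qf (Matrix.of z.1) x ^ 2} ∩
      ({z : ZZ n r | ∀ i, z.2.2 i ∈ Set.Icc 0 Real.pi} ∩ {z : ZZ n r | Fz z = 0})))) := by
    ext z
    constructor
    · rintro ⟨h1, h2, h3⟩
      exact ⟨h1.symm0, h1.symm, h1.nonneg, h1.bd, h2, h3⟩
    · rintro ⟨a, b, c, d, h2, h3⟩
      exact ⟨⟨a, b, c, d⟩, h2, h3⟩
  rw [e]
  have q0 : ∀ x, Continuous fun z : ZZ n r => qf (Matrix.of z.1) x := by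
    intro x
    unfold qf
    simp only [Matrix.of_apply]
    fun_prop
  have q1 : ∀ k x, Continuous fun z : ZZ n r => qf (Matrix.of (z.2.1 k)) x := by
    intro k x
    unfold qf
    simp only [Matrix.of_apply]
    fun_prop
  have hall : ∀ {ι : Type} (p : ι → Set (ZZ n r)), (∀ i, IsClosed (p i)) →
      IsClosed {z | ∀ i, z ∈ p i} := by
    intro ι p hp
    have : {z | ∀ i, z ∈ p i} = ⋂ i, p i := by
      ext z
      simp
    rw [this]
    exact isClosed_iInter hp
  refine IsClosed.inter ?_ (IsClosed.inter ?_ (IsClosed.inter ?_ (IsClosed.inter ?_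
    (IsClosed.inter ?_ ?_))))
  · exact hall (fun i => {z | ∀ j, z.1 i j = z.1 j i}) fun i =>
      hall (fun j => {z | z.1 i j = z.1 j i}) fun j => isClosed_eq (by fun_prop) (by fun_prop)
  · exact hall (fun k => {z | ∀ i j, z.2.1 k i j = z.2.1 k j i}) fun k =>
      hall (fun i => {z | ∀ j, z.2.1 k i j = z.2.1 k j i}) fun i =>
        hall (fun j => {z | z.2.1 k i j = z.2.1 k j i}) fun j =>
          isClosed_eq (by fun_prop) (by fun_prop)
  · exact hall (fun x => {z | 0 ≤ qf (Matrix.of z.1) x}) fun x =>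
      isClosed_le continuous_const (q0 x)
  · exact hall (fun x => {z | ∑ k, qf (Matrix.of (z.2.1 k)) x ^ 2 ≤
      θ ^ 2 * qf (Matrix.of z.1) x ^ 2}) fun x =>
      isClosed_le (continuous_finsetSum _ fun k _ => (q1 k x).pow 2)
        (continuous_const.mul ((q0 x).pow 2))
  · exact hall (fun i => {z | z.2.2 i ∈ Set.Icc 0 Real.pi}) fun i =>
      isClosed_Icc.preimage (by fun_prop)
  · exact isClosed_eq Fz_cont continuous_const

/-- there is a zero of minimal trace -/
theorem exists_min {θ : ℝ} (hθ0 : 0 ≤ θ) (hθ : θ < 1) (hne : (Zer n r θ).Nonempty) :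
    ∃ z ∈ Zer n r θ, ∀ w ∈ Zer n r θ, (Matrix.of z.1).trace ≤ (Matrix.of w.1).trace := by
  obtain ⟨z0, hz0⟩ := hne
  set c := (Matrix.of z0.1).trace with hc
  have htr : Continuous fun z : ZZ n r => (Matrix.of z.1).trace := by
    unfold Matrix.trace
    simp only [Matrix.diag_apply, Matrix.of_apply]
    fun_prop
  set K : Set (ZZ n r) := Zer n r θ ∩ {z | (Matrix.of z.1).trace ≤ c} with hK
  have hKc : IsClosed K := (Zer_closed θ).inter (isClosed_le htr continuous_const)
  set B : Set (ZZ n r) := (Set.pi Set.univ fun _ => Set.pi Set.univ fun _ => Set.Icc (-c) c) ×ˢ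
    ((Set.pi Set.univ fun _ => Set.pi Set.univ fun _ => Set.pi Set.univ fun _ => Set.Icc (-c) c) ×ˢ
      (Set.pi Set.univ fun _ => Set.Icc 0 Real.pi)) with hB
  have hBc : IsCompact B := by
    refine IsCompact.prod ?_ (IsCompact.prod ?_ ?_)
    · exact isCompact_univ_pi fun _ => isCompact_univ_pi fun _ => isCompact_Icc
    · exact isCompact_univ_pi fun _ => isCompact_univ_pi fun _ => isCompact_univ_pi fun _ =>
        isCompact_Icc
    · exact isCompact_univ_pi fun _ => isCompact_Icc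
  have hsub : K ⊆ B := by
    rintro z ⟨⟨h1, h2, -⟩, h3⟩
    refine ⟨fun i _ j _ => ?_, fun k _ i _ j _ => ?_, fun i _ => h2 i⟩
    · exact abs_le.1 (h1.bound1 h3 i j)
    · exact abs_le.1 (h1.bound2 hθ0 hθ h3 k i j)
  have hcomp : IsCompact K := hBc.of_isClosed_subset hKc hsub
  obtain ⟨z, hz, hmin⟩ := hcomp.exists_isMinOn ⟨z0, hz0, le_refl c⟩ htr.continuousOn
  refine ⟨z, hz.1, fun w hw => ?_⟩
  by_cases h : (Matrix.of w.1).trace ≤ c
  · exact hmin ⟨hw, h⟩
  · push Not at h
    exact le_trans hz.2 h.le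

end

end Pool.Agent.Helper27.HY
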