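import Pool.Agent.Helper27.HY.Core

/-!
# Derivatives of determinants
-/

set_option autoImplicit false

open scoped BigOperators

namespace Pool.Agent.Helper27.HY

section
variable {k T : Type*} [CommRing k] [CommRing T] [Algebra k T] {J : Type} [Fintype J]
  [DecidableEq J]

theorem der_prod (D : Derivation k T T) (s : Finset J) (g : J → T) :
    D (∏ i ∈ s, g i) = ∑ i ∈ s, ∏ j ∈ s, (if j = i then D (g i) else g j) := by
  induction s using Finset.induction_on with
  | empty => simp
  | insert a s ha ih =>
    rw [Finset.prod_insert ha, D.leibniz, ih, Finset.sum_insert ha, Finset.prod_insert ha, if_pos rfl,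
      smul_eq_mul, smul_eq_mul, Finset.mul_sum]
    have h1 : ∏ j ∈ s, (if j = a then D (g a) else g j) = ∏ j ∈ s, g j := by
      refine Finset.prod_congr rfl fun j hj => ?_
      rw [if_neg]
      rintro rfl
      exact ha hj
    have h2 : ∀ i ∈ s, ∏ j ∈ insert a s, (if j = i then D (g i) else g j) =
        g a * ∏ j ∈ s, (if j = i then D (g i) else g j) := by
      intro i hi
      rw [Finset.prod_insert ha, if_neg]
      rintro rfl
      exact ha hi
    rw [h1, Finset.sum_congr rfl h2]
    ring

/-- first derivative of the determinant -/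
def d1 (M H : Matrix J J T) : T := ∑ i, (M.updateCol i fun a => H a i).det

/-- second derivative of the determinant -/
def d2 (M H K : Matrix J J T) : T :=
  ∑ i, ∑ j ∈ Finset.univ.erase i, ((M.updateCol i fun a => H a i).updateCol j fun a => K a j).det

theorem der_det (D : Derivation k T T) (M : Matrix J J T) : D M.det = d1 M (M.map D) := by
  unfold d1
  simp only [Matrix.det_apply, map_sum]
  rw [Finset.sum_comm]
  refine Finset.sum_congr rfl fun σ _ => ?_
  have h1 : D (Equiv.Perm.sign σ • ∏ i, M (σ i) i) =
      Equiv.Perm.sign σ • D (∏ i, M (σ i) i) := by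
    rw [Units.smul_def, Units.smul_def, map_zsmul]
  rw [h1, der_prod, Finset.smul_sum]
  refine Finset.sum_congr rfl fun i _ => ?_
  congr 1
  refine Finset.prod_congr rfl fun j _ => ?_
  rw [Matrix.updateCol_apply]
  by_cases h : j = i
  · subst h
    simp
  · simp [h]

theorem der_d1 (D : Derivation k T T) (M H : Matrix J J T) :
    D (d1 M H) = d2 M H (M.map D) + d1 M (H.map D) := by
  unfold d1 d2
  rw [map_sum, ← Finset.sum_add_distrib]
  refine Finset.sum_congr rfl fun i _ => ?_
  rw [der_det]
  unfold d1
  rw [← Finset.add_sum_erase Finset.univ _ (Finset.mem_univ i), add_comm]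
  congr 1
  · refine Finset.sum_congr rfl fun j hj => ?_
    have hne : j ≠ i := Finset.ne_of_mem_erase hj
    congr 2
    funext a
    simp [Matrix.updateCol_apply, hne]
  · congr 1
    ext a b
    simp only [Matrix.updateCol_apply, Matrix.map_apply]
    by_cases h : b = i
    · simp [h]
    · simp [h]

theorem d1_self (M : Matrix J J T) : d1 M M = (Fintype.card J : T) * M.det := by
  unfold d1
  have : ∀ i, (M.updateCol i fun a => M a i) = M := fun i => Matrix.updateCol_eq_self M i
  simp only [this, Finset.sum_const, Finset.card_univ, nsmul_eq_mul]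

theorem d1_add (M H K : Matrix J J T) : d1 M (H + K) = d1 M H + d1 M K := by
  unfold d1
  rw [← Finset.sum_add_distrib]
  refine Finset.sum_congr rfl fun i _ => ?_
  rw [← Matrix.det_updateCol_add]
  rfl

theorem d1_smul (c : T) (M H : Matrix J J T) : d1 M (c • H) = c * d1 M H := by
  unfold d1
  rw [Finset.mul_sum]
  refine Finset.sum_congr rfl fun i _ => ?_
  rw [← Matrix.det_updateCol_smul]
  rfl

theorem d1_sum {ι : Type*} (s : Finset ι) (M : Matrix J J T) (H : ι → Matrix J J T) :
    d1 M (∑ a ∈ s, H a) = ∑ a ∈ s, d1 M (H a) := by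
  classical
  induction s using Finset.induction_on with
  | empty =>
    simp only [Finset.sum_empty]
    have := d1_smul (0 : T) M 0
    simpa using this
  | insert a s ha ih => rw [Finset.sum_insert ha, Finset.sum_insert ha, d1_add, ih]

theorem d2_add_right (M H K L : Matrix J J T) : d2 M H (K + L) = d2 M H K + d2 M H L := by
  unfold d2
  rw [← Finset.sum_add_distrib]
  refine Finset.sum_congr rfl fun i _ => ?_
  rw [← Finset.sum_add_distrib]
  refine Finset.sum_congr rfl fun j _ => ?_
  rw [← Matrix.det_updateCol_add]
  rfl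

theorem d2_smul_right (c : T) (M H K : Matrix J J T) : d2 M H (c • K) = c * d2 M H K := by
  unfold d2
  rw [Finset.mul_sum]
  refine Finset.sum_congr rfl fun i _ => ?_
  rw [Finset.mul_sum]
  refine Finset.sum_congr rfl fun j _ => ?_
  rw [← Matrix.det_updateCol_smul]
  rfl

theorem d2_symm (M H K : Matrix J J T) : d2 M H K = d2 M K H := by
  unfold d2
  have h : ∀ F : J → J → T, ∑ i, ∑ j ∈ Finset.univ.erase i, F i j =
      ∑ i, ∑ j, if j = i then 0 else F i j := by
    intro F
    refine Finset.sum_congr rfl fun i _ => ?_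
    rw [← Finset.add_sum_erase Finset.univ _ (Finset.mem_univ i), if_pos rfl, zero_add]
    exact Finset.sum_congr rfl fun j hj => by rw [if_neg (Finset.ne_of_mem_erase hj)]
  rw [h, h, Finset.sum_comm]
  refine Finset.sum_congr rfl fun i _ => Finset.sum_congr rfl fun j _ => ?_
  by_cases hij : i = j
  · simp [hij]
  · rw [if_neg hij, if_neg (Ne.symm hij), Matrix.updateCol_comm _ (Ne.symm hij)]

theorem d2_rank1 (M : Matrix J J T) (u v : J → T) (c : T) :
    d2 M (c • Matrix.vecMulVec u v) (Matrix.vecMulVec u v) = 0 := by
  unfold d2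
  refine Finset.sum_eq_zero fun i _ => Finset.sum_eq_zero fun j hj => ?_
  have hne : j ≠ i := Finset.ne_of_mem_erase hj
  have e1 : (fun a => (c • Matrix.vecMulVec u v) a i) = (c * v i) • u := by
    funext a
    simp [Matrix.vecMulVec_apply]
    ring
  have e2 : (fun a => Matrix.vecMulVec u v a j) = v j • u := by
    funext a
    simp [Matrix.vecMulVec_apply]
    ring
  rw [e1, e2, Matrix.det_updateCol_smul, Matrix.updateCol_comm _ (Ne.symm hne),
    Matrix.det_updateCol_smul]
  rw [Matrix.det_zero_of_column_eq hne]
  · simp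
  · intro a
    simp [Matrix.updateCol_apply, hne, Ne.symm hne]

end

end Pool.Agent.Helper27.HY
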