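import Pool.Agent.Helper27.HY.Stm2
import Pool.Agent.W666.GB.Main

/-!
# Curvature tensors on Euclidean vector spaces: definitions and the statement of the final piece
-/

set_option autoImplicit false

open scoped BigOperators

namespace Pool.Agent.Helper27.HY

open Pool.Agent.W666.GB MeasureTheory

section
variable {m : ℕ} {V : Type*} [NormedAddCommGroup V] [InnerProductSpace ℝ V]

/-- The quadratic form of the curvature operator of the second kind on the symmetric tensors
`h` (given by their components in the orthonormal basis `e`), `-∑ R(e_i, e_k, e_j, e_l) h_ij h_kl`.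
With the convention that `R x y x y` is the sectional curvature, for constant curvature `c` it is
`c (|h|² - (tr h)²)`. -/
noncomputable def kind2 (e : OrthonormalBasis (Fin m × Bool) ℝ V) (R : V → V → V → V → ℝ)
    (h : Fin m × Bool → Fin m × Bool → ℝ) : ℝ :=
  - ∑ i, ∑ j, ∑ k, ∑ l, R (e i) (e k) (e j) (e l) * (h i j * h k l)

/-- On some hyperplane `∑ P_ij h_ij = 0` of the space of symmetric tensors the form `kind2` is at most
its value `-κ (|h|² - (tr h)²)` for constant curvature `-κ`. For `κ = 0`: the form `kind2` has at most one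
positive eigenvalue. For `P` the identity: the curvature operator of the second kind, on the traceless
symmetric tensors, is at most `-κ`. -/
def OnePos (e : OrthonormalBasis (Fin m × Bool) ℝ V) (R : V → V → V → V → ℝ) (κ : ℝ) : Prop :=
  ∃ P : Fin m × Bool → Fin m × Bool → ℝ, ∀ h : Fin m × Bool → Fin m × Bool → ℝ,
    (∀ i j, h i j = h j i) → ∑ i, ∑ j, P i j * h i j = 0 →
      kind2 e R h ≤ -(κ * (∑ i, ∑ j, h i j ^ 2 - (∑ i, h i i) ^ 2))

/-- The form `kind2` is negative definite on some hyperplane of the space of symmetric tensors. -/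
def OnePosStrict (e : OrthonormalBasis (Fin m × Bool) ℝ V) (R : V → V → V → V → ℝ) : Prop :=
  ∃ P : Fin m × Bool → Fin m × Bool → ℝ, ∀ h : Fin m × Bool → Fin m × Bool → ℝ,
    (∀ i j, h i j = h j i) → ∑ i, ∑ j, P i j * h i j = 0 → h ≠ 0 → kind2 e R h < 0

end

/-- W: the theorem for tensors from the theorem for arrays. -/
def WrapStm : Prop :=
  (∀ (m : ℕ) (R : Fin m × Bool → Fin m × Bool → Fin m × Bool → Fin m × Bool → ℝ), Cv R → OneP R →
    ∀ s : ℝ, 0 ≤ s →
    gbJ (m := m) (fun a b c d => s * Kc a b c d) ≤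
      gbJ (m := m) fun a b c d => R a b c d + s * Kc a b c d) → StrictStm →
  (∀ (m : ℕ) (V : Type) [NormedAddCommGroup V] [InnerProductSpace ℝ V]
    (e : OrthonormalBasis (Fin m × Bool) ℝ V) (R : V → V → V → V → ℝ), AlgCurv R →
    (∀ κ : ℝ, 0 ≤ κ → OnePos e R κ → roundGB m κ ≤ (-1) ^ m * gbc e R) ∧
    (OnePosStrict e R → 0 < (-1) ^ m * gbc e R)) ∧
  (∀ (m : ℕ) (M : Type) [MeasurableSpace M] (μ : Measure M) (K : CurvField m M), Integrable K.gb μ →
    (∀ κ : ℝ, 0 ≤ κ → (∀ p, OnePos (K.e p) (K.R p) κ) →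
      ENNReal.ofReal (roundGB m κ) * μ Set.univ ≤ ENNReal.ofReal ((-1) ^ m * ∫ p, K.gb p ∂μ)) ∧
    ((∀ p, OnePos (K.e p) (K.R p) 0) → 0 ≤ (-1) ^ m * ∫ p, K.gb p ∂μ ∧
      (μ {p | OnePosStrict (K.e p) (K.R p)} ≠ 0 → 0 < (-1) ^ m * ∫ p, K.gb p ∂μ)))

end Pool.Agent.Helper27.HY
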