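import Pool.Agent.Helper27.HY.Line

/-!
# The Euler relation, changes of variables, minors
-/

set_option autoImplicit false
set_option linter.unusedSectionVars false

open scoped BigOperators
open MvPolynomial

namespace Pool.Agent.Helper27.HY

variable {J : Type} [Fintype J] [DecidableEq J] {r : ℕ}
variable (A0 : Matrix J J ℝ) (A : Fin r → Matrix J J ℝ)

theorem GA_eq : GA A0 A = (X none : S r) • ((Complex.I • cm A0).map C : Matrix J J (S r)) +
    ∑ k, (X (some k) : S r) • ((cm (A k)).map C : Matrix J J (S r)) := by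
  ext1 i j
  simp only [GA, cm, Matrix.add_apply, Matrix.smul_apply, Matrix.map_apply, Matrix.sum_apply,
    smul_eq_mul]
  congr 1
  · ring
  · exact Finset.sum_congr rfl fun k _ => by ring

theorem MM_pderiv (Y : Matrix J J ℂ) (a : Option (Fin r)) :
    (MM A0 A Y).map (pderiv a : Derivation ℂ (S r) (S r)) =
      ((match a with
        | none => Complex.I • cm A0
        | some k => cm (A k)).map C : Matrix J J (S r)) := by
  ext1 i j
  cases a with
  | none =>
    simp only [MM, GA, cm, Matrix.add_apply, Matrix.smul_apply, Matrix.map_apply, smul_eq_mul,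
      map_add, map_sum, Derivation.leibniz, pderiv_C, pderiv_X]
    simp [Pi.single_apply]
  | some k =>
    simp only [MM, GA, cm, Matrix.add_apply, Matrix.smul_apply, Matrix.map_apply, smul_eq_mul,
      map_add, map_sum, Derivation.leibniz, pderiv_C, pderiv_X]
    simp [Pi.single_apply]

theorem const_pderiv (H : Matrix J J ℂ) (a : Option (Fin r)) :
    (H.map C : Matrix J J (S r)).map (pderiv a : Derivation ℂ (S r) (S r)) = 0 := by
  ext1 i j
  simp [pderiv_C]

/-- the Euler relation -/
theorem euler (Y : Matrix J J ℂ) :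
    (Fintype.card J : ℂ) * f A0 A Y = D1 A0 A Y Y - D2 A0 A Y (cm A0) (cm A0) +
      ∑ k, D2 A0 A Y (cm (A k)) (cm (A k)) := by
  have h0 : (Fintype.card J : ℂ) * f A0 A Y = E r (d1 (MM A0 A Y) (MM A0 A Y)) := by
    rw [d1_self, f_eq, ← E_C_mul]
    congr 2
  have h1 : d1 (MM A0 A Y) (MM A0 A Y) = d1 (MM A0 A Y) (Y.map C) +
      (X none * d1 (MM A0 A Y) ((Complex.I • cm A0).map C) +
        ∑ k, X (some k) * d1 (MM A0 A Y) ((cm (A k)).map C)) := by
    conv_lhs => rw [show MM A0 A Y = Y.map C + GA A0 A from rfl]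
    rw [d1_add, show (Y.map C + GA A0 A : Matrix J J (S r)) = MM A0 A Y from rfl, GA_eq, d1_add,
      d1_smul, d1_sum]
    simp only [d1_smul]
  have h2 : E r (X none * d1 (MM A0 A Y) ((Complex.I • cm A0).map C)) =
      - D2 A0 A Y (cm A0) (cm A0) := by
    rw [stein, der_d1, MM_pderiv, const_pderiv, d1_zero', add_zero]
    have : E r (d2 (MM A0 A Y) ((Complex.I • cm A0).map C) ((Complex.I • cm A0).map C)) =
        D2 A0 A Y (Complex.I • cm A0) (Complex.I • cm A0) := rfl
    rw [this, D2_smul_left, D2_smul_right, ← mul_assoc, Complex.I_mul_I]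
    ring
  have h3 : ∀ k, E r (X (some k) * d1 (MM A0 A Y) ((cm (A k)).map C)) =
      D2 A0 A Y (cm (A k)) (cm (A k)) := by
    intro k
    rw [stein, der_d1, MM_pderiv, const_pderiv, d1_zero', add_zero]
    rfl
  rw [h0, h1, map_add, map_add, map_sum, h2]
  simp only [h3]
  unfold D1
  ring

/-! ### changes of variables -/

/-- the transformed matrix -/
def trf (T M : Matrix J J ℝ) : Matrix J J ℝ := T.transpose * M * T

theorem cm_mul (M N : Matrix J J ℝ) : cm (M * N) = cm M * cm N := by
  exact Matrix.map_mul (f := Complex.ofRealHom)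

theorem cm_transpose (M : Matrix J J ℝ) : cm M.transpose = (cm M).transpose := rfl

theorem MM_trf (T : Matrix J J ℝ) (Y : Matrix J J ℂ) :
    MM (trf T A0) (fun k => trf T (A k)) ((cm T).transpose * Y * cm T) =
      ((cm T).map C : Matrix J J (S r)).transpose * MM A0 A Y * (cm T).map C := by
  have hC : ∀ M N : Matrix J J ℂ, ((M * N).map C : Matrix J J (S r)) = M.map C * N.map C :=
    fun M N => Matrix.map_mul
  have h1 : ∀ M : Matrix J J ℝ, ((cm (trf T M)).map C : Matrix J J (S r)) =
      ((cm T).map C : Matrix J J (S r)).transpose * (cm M).map C * (cm T).map C := by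
    intro M
    unfold trf
    rw [cm_mul, cm_mul, cm_transpose, hC, hC, Matrix.transpose_map]
  have h2 : ((Complex.I • cm (trf T A0)).map C : Matrix J J (S r)) =
      ((cm T).map C : Matrix J J (S r)).transpose * (Complex.I • cm A0).map C * (cm T).map C := by
    have e : ∀ M : Matrix J J ℂ, ((Complex.I • M).map C : Matrix J J (S r)) =
        (C Complex.I : S r) • M.map C := by
      intro M
      ext1 i j
      simp
    rw [e, e, h1, Matrix.mul_smul, Matrix.smul_mul]
  unfold MM
  rw [GA_eq, GA_eq, h2, hC, hC, Matrix.transpose_map]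
  simp only [h1]
  rw [Matrix.mul_add, Matrix.add_mul, Matrix.mul_add, Matrix.add_mul, Matrix.mul_smul,
    Matrix.smul_mul, Matrix.mul_sum, Matrix.sum_mul]
  congr 2
  exact Finset.sum_congr rfl fun k _ => by rw [Matrix.mul_smul, Matrix.smul_mul]

theorem f_trf (T : Matrix J J ℝ) (Y : Matrix J J ℂ) :
    f (trf T A0) (fun k => trf T (A k)) ((cm T).transpose * Y * cm T) =
      ((T.det : ℂ)) ^ 2 * f A0 A Y := by
  rw [f_eq, f_eq, MM_trf, Matrix.det_mul, Matrix.det_mul, Matrix.det_transpose]
  have h1 : ((cm T).map C : Matrix J J (S r)).det = C (T.det : ℂ) := by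
    have h2 := RingHom.map_det (C : ℂ →+* S r) (cm T)
    have h3 : (cm T).det = (T.det : ℂ) := by
      have := RingHom.map_det (Complex.ofRealHom) T
      exact this.symm
    rw [h3] at h2
    exact h2.symm
  rw [h1, mul_comm (C (T.det : ℂ)), mul_assoc, ← C_mul, mul_comm, E_C_mul]
  ring

theorem D1_trf (T : Matrix J J ℝ) (Y : Matrix J J ℂ) (e : J → ℂ) :
    D1 (trf T A0) (fun k => trf T (A k)) ((cm T).transpose * Y * cm T)
      (Matrix.vecMulVec ((cm T).transpose.mulVec e) ((cm T).transpose.mulVec e)) =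
      ((T.det : ℂ)) ^ 2 * D1 A0 A Y (Matrix.vecMulVec e e) := by
  have h1 := f_rank1 A0 A Y e 1
  have h2 := f_rank1 (trf T A0) (fun k => trf T (A k)) ((cm T).transpose * Y * cm T)
    ((cm T).transpose.mulVec e) 1
  have h3 : (cm T).transpose * Y * cm T + (1 : ℂ) • Matrix.vecMulVec ((cm T).transpose.mulVec e)
      ((cm T).transpose.mulVec e) =
      (cm T).transpose * (Y + (1 : ℂ) • Matrix.vecMulVec e e) * cm T := by
    rw [one_smul, one_smul, Matrix.mul_add, Matrix.add_mul]
    congr 1
    rw [Matrix.mul_vecMulVec, Matrix.vecMulVec_mul]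
    congr 1
    rw [← Matrix.mulVec_transpose]
  rw [h3, f_trf, f_trf, h1] at h2
  have h4 := h2
  linear_combination -h4

/-! ### minors -/

theorem d1_single {n : ℕ} {T : Type*} [CommRing T] (M : Matrix (Fin (n + 1)) (Fin (n + 1)) T) :
    d1 M (Matrix.vecMulVec (Pi.single 0 1) (Pi.single 0 1)) = (M.submatrix Fin.succ Fin.succ).det := by
  unfold d1
  rw [Finset.sum_eq_single 0]
  · rw [Matrix.det_succ_column_zero, Finset.sum_eq_single 0]
    · simp [Matrix.vecMulVec_apply]
      congr 1
    · intro b _ hb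
      simp [Matrix.vecMulVec_apply, Pi.single_apply, hb]
    · simp
  · intro b _ hb
    refine Matrix.det_eq_zero_of_column_eq_zero b fun i => ?_
    simp [Matrix.vecMulVec_apply, Pi.single_apply, hb]
  · simp

theorem D1_single {n : ℕ} (B0 : Matrix (Fin (n + 1)) (Fin (n + 1)) ℝ)
    (B : Fin r → Matrix (Fin (n + 1)) (Fin (n + 1)) ℝ)
    (Y : Matrix (Fin (n + 1)) (Fin (n + 1)) ℂ) :
    D1 B0 B Y (Matrix.vecMulVec (Pi.single 0 1) (Pi.single 0 1)) =
      f (B0.submatrix Fin.succ Fin.succ) (fun k => (B k).submatrix Fin.succ Fin.succ)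
        (Y.submatrix Fin.succ Fin.succ) := by
  unfold D1
  have h1 : ((Matrix.vecMulVec (Pi.single 0 1) (Pi.single 0 1) :
      Matrix (Fin (n + 1)) (Fin (n + 1)) ℂ).map C : Matrix _ _ (S r)) =
      Matrix.vecMulVec (Pi.single 0 1) (Pi.single 0 1) := by
    ext1 i j
    simp only [Matrix.map_apply, Matrix.vecMulVec_apply, Pi.single_apply]
    split_ifs <;> simp
  rw [h1, d1_single]
  rfl

/-- the homogeneous form of the functional at diagonal matrices -/
noncomputable def FF (α : J → ℂ) (β : J → ℝ) : ℂ :=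
  E r (Matrix.det (Matrix.of fun i j => C (if i = j then α i else 0) + C (β i : ℂ) * GA A0 A i j))

theorem FF_eq (α : J → ℂ) (β : J → ℝ) (hβ : ∀ i, β i ≠ 0) :
    FF A0 A α β = (∏ i, (β i : ℂ)) * f A0 A (Matrix.diagonal fun i => α i / β i) := by
  unfold FF
  rw [f_eq]
  have h1 : (Matrix.of fun i j => C (if i = j then α i else 0) + C (β i : ℂ) * GA A0 A i j) =
      Matrix.diagonal (fun i => (C (β i : ℂ) : S r)) *
        MM A0 A (Matrix.diagonal fun i => α i / β i) := by
    ext1 i j
    rw [Matrix.diagonal_mul]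
    simp only [Matrix.of_apply, MM, Matrix.add_apply, Matrix.map_apply, Matrix.diagonal_apply,
      mul_add]
    congr 1
    by_cases h : i = j
    · rw [if_pos h, if_pos h, ← C_mul]
      congr 1
      have : (β i : ℂ) ≠ 0 := by exact_mod_cast hβ i
      field_simp
    · rw [if_neg h, if_neg h]
      simp
  rw [h1, Matrix.det_mul, Matrix.det_diagonal, ← map_prod, E_C_mul]

theorem FF_succ {n : ℕ} (B0 : Matrix (Fin (n + 1)) (Fin (n + 1)) ℝ)
    (B : Fin r → Matrix (Fin (n + 1)) (Fin (n + 1)) ℝ) (α : Fin (n + 1) → ℂ)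
    (β : Fin (n + 1) → ℝ) (j : Fin (n + 1)) (hβ : β j = 0) :
    FF B0 B α β = α j * FF (B0.submatrix j.succAbove j.succAbove)
      (fun k => (B k).submatrix j.succAbove j.succAbove) (α ∘ j.succAbove)
      (β ∘ j.succAbove) := by
  unfold FF
  rw [Matrix.det_succ_row _ j, Finset.sum_eq_single j]
  · have h1 : ((-1 : S r)) ^ ((j : ℕ) + (j : ℕ)) = 1 := by
      rw [← two_mul, pow_mul]
      simp
    rw [h1, one_mul]
    have h2 : (Matrix.of fun i j => C (if i = j then α i else 0) + C (β i : ℂ) * GA B0 B i j) j j =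
        C (α j) := by
      simp [hβ]
    rw [h2, E_C_mul]
    congr 3
    ext1 a b
    simp only [Matrix.submatrix_apply, Matrix.of_apply, Function.comp]
    congr 2
    by_cases hab : a = b
    · simp [hab]
    · have : j.succAbove a ≠ j.succAbove b := fun h => hab (Fin.succAbove_right_injective h)
      simp [hab, this]
  · intro b _ hb
    have h2 : (Matrix.of fun i j => C (if i = j then α i else 0) + C (β i : ℂ) * GA B0 B i j) j b =
        0 := by
      simp [hβ, Ne.symm hb]
    rw [h2]
    ring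
  · simp

end Pool.Agent.Helper27.HY
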