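import Pool.Agent.Helper27.HY.Der

/-!
# The functional along lines, the Euler relation, changes of variables
-/

set_option autoImplicit false
set_option linter.unusedSectionVars false

open scoped BigOperators
open MvPolynomial

namespace Pool.Agent.Helper27.HY

variable {J : Type} [Fintype J] [DecidableEq J] {r : ℕ}

/-- real matrices as complex matrices -/
noncomputable def cm (A : Matrix J J ℝ) : Matrix J J ℂ := A.map ((↑) : ℝ → ℂ)

/-- the matrix `Y + GA` -/
noncomputable def MM (A0 : Matrix J J ℝ) (A : Fin r → Matrix J J ℝ) (Y : Matrix J J ℂ) :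
    Matrix J J (S r) := Y.map C + GA A0 A

/-- first derivative -/
noncomputable def D1 (A0 : Matrix J J ℝ) (A : Fin r → Matrix J J ℝ) (Y H : Matrix J J ℂ) : ℂ :=
  E r (d1 (MM A0 A Y) (H.map C))

/-- second derivative -/
noncomputable def D2 (A0 : Matrix J J ℝ) (A : Fin r → Matrix J J ℝ) (Y H K : Matrix J J ℂ) : ℂ :=
  E r (d2 (MM A0 A Y) (H.map C) (K.map C))

variable (A0 : Matrix J J ℝ) (A : Fin r → Matrix J J ℝ)

theorem f_eq (Y : Matrix J J ℂ) : f A0 A Y = E r (MM A0 A Y).det := rfl

/-! ### linearity -/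

theorem D1_add (Y H K : Matrix J J ℂ) : D1 A0 A Y (H + K) = D1 A0 A Y H + D1 A0 A Y K := by
  unfold D1
  rw [← map_add, ← d1_add]
  congr 2
  ext i j
  simp

theorem D1_smul (Y H : Matrix J J ℂ) (c : ℂ) : D1 A0 A Y (c • H) = c * D1 A0 A Y H := by
  unfold D1
  rw [← E_C_mul, ← d1_smul]
  congr 2
  ext i j
  simp

theorem D1_sum {ι : Type*} (s : Finset ι) (Y : Matrix J J ℂ) (H : ι → Matrix J J ℂ) :
    D1 A0 A Y (∑ a ∈ s, H a) = ∑ a ∈ s, D1 A0 A Y (H a) := by
  classical
  induction s using Finset.induction_on with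
  | empty =>
    have := D1_smul A0 A Y 0 0
    simpa using this
  | insert a s ha ih => rw [Finset.sum_insert ha, Finset.sum_insert ha, D1_add, ih]

theorem D2_symm (Y H K : Matrix J J ℂ) : D2 A0 A Y H K = D2 A0 A Y K H := by
  unfold D2
  rw [d2_symm]

theorem D2_add_right (Y H K L : Matrix J J ℂ) :
    D2 A0 A Y H (K + L) = D2 A0 A Y H K + D2 A0 A Y H L := by
  unfold D2
  rw [← map_add, ← d2_add_right]
  congr 2
  ext i j
  simp

theorem D2_smul_right (Y H K : Matrix J J ℂ) (c : ℂ) :
    D2 A0 A Y H (c • K) = c * D2 A0 A Y H K := by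
  unfold D2
  rw [← E_C_mul, ← d2_smul_right]
  congr 2
  ext i j
  simp

theorem D2_sum_right {ι : Type*} (s : Finset ι) (Y H : Matrix J J ℂ) (K : ι → Matrix J J ℂ) :
    D2 A0 A Y H (∑ a ∈ s, K a) = ∑ a ∈ s, D2 A0 A Y H (K a) := by
  classical
  induction s using Finset.induction_on with
  | empty =>
    have := D2_smul_right A0 A Y H 0 0
    simpa using this
  | insert a s ha ih => rw [Finset.sum_insert ha, Finset.sum_insert ha, D2_add_right, ih]

theorem D2_add_left (Y H K L : Matrix J J ℂ) :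
    D2 A0 A Y (H + K) L = D2 A0 A Y H L + D2 A0 A Y K L := by
  rw [D2_symm, D2_add_right, D2_symm A0 A Y L H, D2_symm A0 A Y L K]

theorem D2_smul_left (Y H K : Matrix J J ℂ) (c : ℂ) :
    D2 A0 A Y (c • H) K = c * D2 A0 A Y H K := by
  rw [D2_symm, D2_smul_right, D2_symm]

theorem D2_sum_left {ι : Type*} (s : Finset ι) (Y L : Matrix J J ℂ) (K : ι → Matrix J J ℂ) :
    D2 A0 A Y (∑ a ∈ s, K a) L = ∑ a ∈ s, D2 A0 A Y (K a) L := by
  rw [D2_symm, D2_sum_right]
  exact Finset.sum_congr rfl fun a _ => D2_symm A0 A Y L (K a)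

/-! ### ring homomorphisms -/

section
variable {T T' : Type*} [CommRing T] [CommRing T']

theorem map_d1 (φ : T →+* T') (M H : Matrix J J T) : φ (d1 M H) = d1 (M.map φ) (H.map φ) := by
  unfold d1
  rw [map_sum]
  refine Finset.sum_congr rfl fun i _ => ?_
  rw [RingHom.map_det]
  congr 1
  ext a b
  simp only [RingHom.mapMatrix_apply, Matrix.map_apply, Matrix.updateCol_apply]
  split_ifs <;> rfl

theorem map_d2 (φ : T →+* T') (M H K : Matrix J J T) :
    φ (d2 M H K) = d2 (M.map φ) (H.map φ) (K.map φ) := by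
  unfold d2
  rw [map_sum]
  refine Finset.sum_congr rfl fun i _ => ?_
  rw [map_sum]
  refine Finset.sum_congr rfl fun j _ => ?_
  rw [RingHom.map_det]
  congr 1
  ext a b
  simp only [RingHom.mapMatrix_apply, Matrix.map_apply, Matrix.updateCol_apply]
  split_ifs <;> rfl

end

/-! ### the polynomial along a line -/

/-- the determinant along a line, over the polynomials in the Gaussian variables -/
noncomputable def QQ (Y H : Matrix J J ℂ) : Polynomial (S r) :=
  (((Polynomial.X : Polynomial (S r)) • (H.map C : Matrix J J (S r)).map Polynomial.C +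
    (MM A0 A Y).map Polynomial.C : Matrix J J (Polynomial (S r)))).det

/-- the matrix in the definition of `QQ` -/
noncomputable def Mx (Y H : Matrix J J ℂ) : Matrix J J (Polynomial (S r)) :=
  (Polynomial.X : Polynomial (S r)) • (H.map C : Matrix J J (S r)).map Polynomial.C +
    (MM A0 A Y).map Polynomial.C

theorem QQ_deg (Y H : Matrix J J ℂ) : (QQ A0 A Y H).natDegree < Fintype.card J + 1 :=
  Nat.lt_succ_of_le (Polynomial.natDegree_det_X_add_C_le _ _)

theorem Mx_eval (Y H : Matrix J J ℂ) (t : ℂ) :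
    (Mx A0 A Y H).map (Polynomial.evalRingHom (C t : S r)) = MM A0 A (Y + t • H) := by
  ext1 i j
  simp [Mx, MM]
  ring

theorem QQ_eval (Y H : Matrix J J ℂ) (t : ℂ) :
    (QQ A0 A Y H).eval (C t : S r) = (MM A0 A (Y + t • H)).det := by
  have h := RingHom.map_det (Polynomial.evalRingHom (C t : S r)) (Mx A0 A Y H)
  rw [RingHom.mapMatrix_apply, Mx_eval] at h
  exact h

/-- the polynomial `t ↦ f (Y + t H)` -/
noncomputable def PP (Y H : Matrix J J ℂ) : Polynomial ℂ :=
  ∑ k ∈ Finset.range (Fintype.card J + 1), Polynomial.monomial k (E r ((QQ A0 A Y H).coeff k))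

theorem PP_eval (Y H : Matrix J J ℂ) (t : ℂ) : (PP A0 A Y H).eval t = f A0 A (Y + t • H) := by
  rw [f_eq, ← QQ_eval, Polynomial.eval_eq_sum_range' (QQ_deg A0 A Y H), map_sum]
  unfold PP
  rw [Polynomial.eval_finsetSum]
  refine Finset.sum_congr rfl fun k _ => ?_
  rw [Polynomial.eval_monomial, ← C_pow, mul_comm _ (C (t ^ k)), E_C_mul]
  ring

theorem PP_coeff (Y H : Matrix J J ℂ) (k : ℕ) :
    (PP A0 A Y H).coeff k = E r ((QQ A0 A Y H).coeff k) := by
  unfold PP
  rw [Polynomial.finsetSum_coeff]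
  simp only [Polynomial.coeff_monomial]
  by_cases hk : k < Fintype.card J + 1
  · rw [Finset.sum_eq_single k]
    · rw [if_pos rfl]
    · intro b _ hb
      rw [if_neg hb]
    · intro h
      exact absurd (Finset.mem_range.2 hk) h
  · rw [Polynomial.coeff_eq_zero_of_natDegree_lt (lt_of_lt_of_le (QQ_deg A0 A Y H) (not_lt.1 hk)),
      map_zero]
    refine Finset.sum_eq_zero fun b hb => ?_
    rw [if_neg]
    rintro rfl
    exact hk (Finset.mem_range.1 hb)

theorem Mx_der (Y H : Matrix J J ℂ) :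
    (Mx A0 A Y H).map (Polynomial.derivative' (R := S r)) = (H.map C : Matrix J J (S r)).map Polynomial.C := by
  ext1 i j
  simp [Mx]

theorem Hc_der (H : Matrix J J ℂ) :
    ((H.map C : Matrix J J (S r)).map Polynomial.C).map (Polynomial.derivative' (R := S r)) = 0 := by
  ext1 i j
  simp

theorem d1_zero' {T : Type*} [CommRing T] (M : Matrix J J T) : d1 M 0 = 0 := by
  have := d1_smul (0 : T) M 0
  simpa using this

theorem QQ_der (Y H : Matrix J J ℂ) : Polynomial.derivative (QQ A0 A Y H) =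
    d1 (Mx A0 A Y H) ((H.map C : Matrix J J (S r)).map Polynomial.C) := by
  have h := der_det (Polynomial.derivative' (R := S r)) (Mx A0 A Y H)
  rw [Mx_der] at h
  exact h

theorem QQ_der2 (Y H : Matrix J J ℂ) : Polynomial.derivative (Polynomial.derivative (QQ A0 A Y H)) =
    d2 (Mx A0 A Y H) ((H.map C : Matrix J J (S r)).map Polynomial.C)
      ((H.map C : Matrix J J (S r)).map Polynomial.C) := by
  rw [QQ_der]
  have h := der_d1 (Polynomial.derivative' (R := S r)) (Mx A0 A Y H)
    ((H.map C : Matrix J J (S r)).map Polynomial.C)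
  rw [Mx_der, Hc_der, d1_zero', add_zero] at h
  exact h

theorem Mx_eval0 (Y H : Matrix J J ℂ) :
    (Mx A0 A Y H).map (Polynomial.evalRingHom (0 : S r)) = MM A0 A Y := by
  ext1 i j
  simp [Mx]

theorem Hc_eval0 (H : Matrix J J ℂ) :
    ((H.map C : Matrix J J (S r)).map Polynomial.C).map (Polynomial.evalRingHom (0 : S r)) =
      H.map C := by
  ext1 i j
  simp

theorem PP0 (Y H : Matrix J J ℂ) : (PP A0 A Y H).coeff 0 = f A0 A Y := by
  rw [Polynomial.coeff_zero_eq_eval_zero, PP_eval, zero_smul, add_zero]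

theorem PP1 (Y H : Matrix J J ℂ) : (PP A0 A Y H).coeff 1 = D1 A0 A Y H := by
  rw [PP_coeff]
  unfold D1
  congr 1
  have h1 : (Polynomial.derivative (QQ A0 A Y H)).coeff 0 = (QQ A0 A Y H).coeff 1 := by
    rw [Polynomial.coeff_derivative]
    simp
  rw [← h1, Polynomial.coeff_zero_eq_eval_zero, QQ_der]
  have h2 := map_d1 (Polynomial.evalRingHom (0 : S r)) (Mx A0 A Y H)
    ((H.map C : Matrix J J (S r)).map Polynomial.C)
  rw [Mx_eval0, Hc_eval0] at h2
  exact h2

theorem PP2 (Y H : Matrix J J ℂ) : 2 * (PP A0 A Y H).coeff 2 = D2 A0 A Y H H := by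
  rw [PP_coeff]
  unfold D2
  have h1 : (Polynomial.derivative (Polynomial.derivative (QQ A0 A Y H))).coeff 0 =
      C 2 * (QQ A0 A Y H).coeff 2 := by
    have h2 : (C 2 : S r) = 2 := map_ofNat C 2
    rw [Polynomial.coeff_derivative, Polynomial.coeff_derivative, h2]
    simp
    ring
  have h2 := map_d2 (Polynomial.evalRingHom (0 : S r)) (Mx A0 A Y H)
    ((H.map C : Matrix J J (S r)).map Polynomial.C) ((H.map C : Matrix J J (S r)).map Polynomial.C)
  rw [Mx_eval0, Hc_eval0] at h2
  rw [← E_C_mul, ← h1, Polynomial.coeff_zero_eq_eval_zero, QQ_der2, ← h2]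
  rfl

/-- The functional is affine in rank one directions. -/
theorem f_rank1 (Y : Matrix J J ℂ) (e : J → ℂ) (t : ℂ) :
    f A0 A (Y + t • Matrix.vecMulVec e e) = f A0 A Y + t * D1 A0 A Y (Matrix.vecMulVec e e) := by
  have hz : Polynomial.derivative (Polynomial.derivative (QQ A0 A Y (Matrix.vecMulVec e e))) =
      0 := by
    rw [QQ_der2]
    have h := d2_rank1 (Mx A0 A Y (Matrix.vecMulVec e e))
      (fun i => (Polynomial.C (C (e i)) : Polynomial (S r)))
      (fun i => (Polynomial.C (C (e i)) : Polynomial (S r))) 1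
    rw [one_smul] at h
    have e1 : ((Matrix.vecMulVec e e).map C : Matrix J J (S r)).map Polynomial.C =
        Matrix.vecMulVec (fun i => (Polynomial.C (C (e i)) : Polynomial (S r)))
          (fun i => (Polynomial.C (C (e i)) : Polynomial (S r))) := by
      ext1 i j
      simp [Matrix.vecMulVec_apply]
    rw [e1]
    exact h
  have hc : ∀ k, (PP A0 A Y (Matrix.vecMulVec e e)).coeff (k + 2) = 0 := by
    intro k
    rw [PP_coeff]
    have h1 : (Polynomial.derivative (Polynomial.derivative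
        (QQ A0 A Y (Matrix.vecMulVec e e)))).coeff k = 0 := by
      rw [hz, Polynomial.coeff_zero]
    rw [Polynomial.coeff_derivative, Polynomial.coeff_derivative] at h1
    have h2 : (QQ A0 A Y (Matrix.vecMulVec e e)).coeff (k + 2) = 0 := by
      rcases mul_eq_zero.1 h1 with h3 | h3
      · rcases mul_eq_zero.1 h3 with h4 | h4
        · exact h4
        · exfalso
          have : ((k + 1 : ℕ) : S r) + 1 ≠ 0 := by exact_mod_cast Nat.succ_ne_zero (k + 1)
          exact this h4
      · exfalso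
        have : (k : S r) + 1 ≠ 0 := by exact_mod_cast Nat.succ_ne_zero k
        exact this h3
    rw [h2, map_zero]
  rw [← PP_eval, ← PP0 A0 A Y (Matrix.vecMulVec e e), ← PP1 A0 A Y (Matrix.vecMulVec e e)]
  have hd : (PP A0 A Y (Matrix.vecMulVec e e)).natDegree < 2 := by
    rw [Nat.lt_succ_iff, Polynomial.natDegree_le_iff_coeff_eq_zero]
    intro N hN
    obtain ⟨k, rfl⟩ : ∃ k, N = k + 2 := ⟨N - 2, by omega⟩
    exact hc k
  rw [Polynomial.eval_eq_sum_range' hd]
  simp [Finset.sum_range_succ]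
  ring

end Pool.Agent.Helper27.HY
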