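import Pool.Agent.Helper27.HY.Stm2

/-!
# The induction
-/

set_option autoImplicit false
set_option linter.unusedSectionVars false

open scoped BigOperators
open MvPolynomial

namespace Pool.Agent.Helper27.HY

theorem Out.ang (φ : ℝ) (h : Real.sin φ ≠ 0) :
    Complex.exp (Complex.I * (φ : ℂ)) / (Real.sin φ : ℂ) =
      ((Real.cos φ / Real.sin φ : ℝ) : ℂ) + Complex.I := by
  have h' : (Complex.sin (φ : ℂ)) ≠ 0 := by
    rw [← Complex.ofReal_sin]
    exact_mod_cast h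
  rw [mul_comm, Complex.exp_mul_I]
  push_cast
  field_simp

theorem Out.diag {n : ℕ} (T : Matrix (Fin n) (Fin n) ℝ) (Y : Matrix (Fin n) (Fin n) ℂ)
    (x : Fin n → ℝ) (hP : trf T (im Y) = 1) (hX : trf T (Y.map Complex.re) = Matrix.diagonal x) :
    (cm T).transpose * Y * cm T = Matrix.diagonal fun j => (x j : ℂ) + Complex.I := by
  have e1 : Y = cm (Y.map Complex.re) + Complex.I • cm (im Y) := by
    ext i j
    simp only [cm, im, Matrix.add_apply, Matrix.smul_apply, Matrix.map_apply, smul_eq_mul]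
    rw [mul_comm]
    exact (Complex.re_add_im _).symm
  have e2 : ∀ M : Matrix (Fin n) (Fin n) ℝ, (cm T).transpose * cm M * cm T = cm (trf T M) := by
    intro M
    rw [trf, cm_mul, cm_mul, cm_transpose]
  conv_lhs => rw [e1]
  rw [Matrix.mul_add, Matrix.add_mul, Matrix.mul_smul, Matrix.smul_mul, e2, e2, hP, hX]
  ext i j
  by_cases h : i = j
  · subst h
    simp [cm]
  · simp [cm, h]

theorem Out.im_diag {n : ℕ} (x : Fin n → ℝ) :
    im (Matrix.diagonal fun j => (x j : ℂ) + Complex.I) = 1 := by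
  ext i j
  by_cases h : i = j
  · subst h
    simp [im]
  · simp [im, h]

theorem Out.sq_pos {n : ℕ} (x : Fin n → ℝ) (hx : x ≠ 0) : 0 < ∑ i, x i ^ 2 := by
  obtain ⟨i, hi⟩ := Function.ne_iff.1 hx
  refine Finset.sum_pos' (fun j _ => sq_nonneg _) ⟨i, Finset.mem_univ i, ?_⟩
  exact pow_pos_of_ne hi
  where pow_pos_of_ne {a : ℝ} (h : a ≠ 0) : 0 < a ^ 2 := by positivity

theorem Out.zero_to_Zer {n r : ℕ} {θ : ℝ} {A0 : Matrix (Fin n) (Fin n) ℝ}
    {A : Fin r → Matrix (Fin n) (Fin n) ℝ} (hA : Ad θ A0 A) (Y : Matrix (Fin n) (Fin n) ℂ)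
    (hY : ∀ i j, Y i j = Y j i) (hp : ∀ x : Fin n → ℝ, x ≠ 0 → 0 < qf (im Y) x)
    (h0 : f A0 A Y = 0) :
    ∃ T : Matrix (Fin n) (Fin n) ℝ, trf T (im Y) = 1 ∧
      ∃ w ∈ Zer n r θ, Matrix.of w.1 = trf T A0 := by
  obtain ⟨T, x, -, hP, hX⟩ := simul (Y.map Complex.re) (im Y)
    (fun i j => by simp only [Matrix.map_apply, hY i j])
    (fun i j => by simp only [im, Matrix.map_apply, hY i j]) hp
  refine ⟨T, hP, ⟨⟨fun i j => trf T A0 i j, fun k i j => trf T (A k) i j,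
    fun j => Real.pi / 2 - Real.arctan (x j)⟩, ⟨?_, ?_, ?_⟩, ?_⟩⟩
  · exact hA.trf T
  · intro i
    have h1 := Real.arctan_lt_pi_div_two (x i)
    have h2 := Real.neg_pi_div_two_lt_arctan (x i)
    constructor
    · show 0 ≤ Real.pi / 2 - Real.arctan (x i)
      linarith
    · show Real.pi / 2 - Real.arctan (x i) ≤ Real.pi
      linarith
  · have hs : ∀ i, Real.sin (Real.pi / 2 - Real.arctan (x i)) ≠ 0 := by
      intro i
      rw [Real.sin_pi_div_two_sub]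
      exact (Real.cos_arctan_pos (x i)).ne'
    show FF (trf T A0) (fun k => trf T (A k))
      (fun i => Complex.exp (Complex.I * ((Real.pi / 2 - Real.arctan (x i) : ℝ) : ℂ)))
      (fun i => Real.sin (Real.pi / 2 - Real.arctan (x i))) = 0
    rw [FF_eq _ _ _ _ hs]
    have e : (fun i => Complex.exp (Complex.I * ((Real.pi / 2 - Real.arctan (x i) : ℝ) : ℂ)) /
        (Real.sin (Real.pi / 2 - Real.arctan (x i)) : ℂ)) = fun i => (x i : ℂ) + Complex.I := by
      funext i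
      rw [Out.ang _ (hs i), Real.sin_pi_div_two_sub, Real.cos_pi_div_two_sub,
        ← Real.tan_eq_sin_div_cos, Real.tan_arctan]
    rw [e, ← Out.diag T Y x hP hX, f_trf, h0, mul_zero, mul_zero]
  · ext i j
    rfl

/-- the statement of the induction -/
def Out.P (r : ℕ) (θ : ℝ) (n : ℕ) : Prop :=
  NVn n r θ ∧ ∀ (A0 : Matrix (Fin n) (Fin n) ℝ) (A : Fin r → Matrix (Fin n) (Fin n) ℝ), Ad θ A0 A →
    ∀ φ : Fin n → ℝ, (∀ i, φ i ∈ Set.Icc 0 Real.pi) →
      FF A0 A (fun i => Complex.exp (Complex.I * (φ i : ℂ))) (fun i => Real.sin (φ i)) ≠ 0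

theorem Out.P_zero (r : ℕ) (θ : ℝ) : Out.P r θ 0 := by
  constructor
  · intro A0 A _ Y _ _
    rw [f, Matrix.det_isEmpty, E_one]
    exact one_ne_zero
  · intro A0 A _ φ _
    rw [FF, Matrix.det_isEmpty, E_one]
    exact one_ne_zero

theorem Out.deg {r : ℕ} {θ : ℝ} {n : ℕ} (hP : Out.P r θ n)
    (A0 : Matrix (Fin (n + 1)) (Fin (n + 1)) ℝ) (A : Fin r → Matrix (Fin (n + 1)) (Fin (n + 1)) ℝ)
    (hA : Ad θ A0 A) (φ : Fin (n + 1) → ℝ) (hφ : ∀ i, φ i ∈ Set.Icc 0 Real.pi)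
    (j : Fin (n + 1)) (hj : Real.sin (φ j) = 0) :
    FF A0 A (fun i => Complex.exp (Complex.I * (φ i : ℂ))) (fun i => Real.sin (φ i)) ≠ 0 := by
  rw [FF_succ A0 A _ _ j hj]
  refine mul_ne_zero (Complex.exp_ne_zero _) ?_
  exact hP.2 _ _ (hA.sub j) (φ ∘ j.succAbove) fun i => hφ _

theorem Out.nv {r : ℕ} {θ : ℝ} {n : ℕ} (hN : NondegStm) (hC : ContraStm) (hθ0 : 0 ≤ θ)
    (hθ : θ < 1) (hP : Out.P r θ n) : NVn (n + 1) r θ := by
  intro A0 A hA Y hY hp h0
  obtain ⟨-, -, w, hw, -⟩ := Out.zero_to_Zer hA Y hY hp h0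
  obtain ⟨z, hz, hmin⟩ := exists_min hθ0 hθ ⟨w, hw⟩
  obtain ⟨hB, hφ, hFz⟩ := hz
  have hs : ∀ i, Real.sin (z.2.2 i) ≠ 0 := by
    intro i hi
    exact Out.deg hP _ _ hB _ hφ i hi hFz
  have h1 : FF (Matrix.of z.1) (fun k => Matrix.of (z.2.1 k))
      (fun i => Complex.exp (Complex.I * (z.2.2 i : ℂ))) (fun i => Real.sin (z.2.2 i)) = 0 := hFz
  rw [FF_eq _ _ _ _ hs] at h1
  have hpr : (∏ i, (Real.sin (z.2.2 i) : ℂ)) ≠ 0 :=
    Finset.prod_ne_zero_iff.2 fun i _ => by exact_mod_cast hs i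
  have h2 := (mul_eq_zero.1 h1).resolve_left hpr
  have e : (fun i => Complex.exp (Complex.I * (z.2.2 i : ℂ)) / (Real.sin (z.2.2 i) : ℂ)) =
      fun i => ((Real.cos (z.2.2 i) / Real.sin (z.2.2 i) : ℝ) : ℂ) + Complex.I := by
    funext i
    exact Out.ang _ (hs i)
  rw [e] at h2
  refine hC n r θ hθ0 hθ _ _ hB ?_ (hN n r θ hP.1 _ _ hB) _ h2
  intro Y' Q hY' hQ hQY hpos hf
  have hp' : ∀ x : Fin (n + 1) → ℝ, x ≠ 0 → 0 < qf (im Y') x := by
    intro x hx
    have := Out.sq_pos x hx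
    have := hQY x
    have := hQ x
    linarith
  obtain ⟨T, hT, w', hw', he⟩ := Out.zero_to_Zer hB Y' hY' hp' hf
  have h3 := hmin w' hw'
  rw [he] at h3
  exact absurd (decr hB.symm0 hB.nonneg hT hQ hQY hpos) (not_lt.2 h3)

theorem Out.all {r : ℕ} {θ : ℝ} (hN : NondegStm) (hC : ContraStm) (hθ0 : 0 ≤ θ)
    (hθ : θ < 1) (n : ℕ) : Out.P r θ n := by
  induction n with
  | zero => exact Out.P_zero r θ
  | succ n ih =>
    have hnv := Out.nv hN hC hθ0 hθ ih
    refine ⟨hnv, fun A0 A hA φ hφ => ?_⟩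
    by_cases hj : ∃ j, Real.sin (φ j) = 0
    · obtain ⟨j, hj⟩ := hj
      exact Out.deg ih A0 A hA φ hφ j hj
    · push Not at hj
      rw [FF_eq _ _ _ _ hj]
      refine mul_ne_zero (Finset.prod_ne_zero_iff.2 fun i _ => by exact_mod_cast hj i) ?_
      have e : (fun i => Complex.exp (Complex.I * (φ i : ℂ)) / (Real.sin (φ i) : ℂ)) =
          fun i => ((Real.cos (φ i) / Real.sin (φ i) : ℝ) : ℂ) + Complex.I := by
        funext i
        exact Out.ang _ (hj i)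
      rw [e]
      refine hnv A0 A hA _ (fun i j => ?_) fun x hx => ?_
      · by_cases h : i = j
        · rw [h]
        · rw [Matrix.diagonal_apply_ne _ h, Matrix.diagonal_apply_ne _ (Ne.symm h)]
      · rw [Out.im_diag, qf_one]
        exact Out.sq_pos x hx

/-- N3 -/
theorem outer : OuterStm := by
  intro hN hC n r θ hθ0 hθ A0 A h1 h2 h3 h4 v hv
  have hA : Ad θ A0 A := ⟨h1, h2, h3, h4⟩
  refine (Out.all hN hC hθ0 hθ n).1 A0 A hA _ (fun i j => ?_) fun x hx => ?_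
  · by_cases h : i = j
    · rw [h]
    · simp [h, Ne.symm h]
  · have e : im ((Complex.I * (v : ℂ)) • (1 : Matrix (Fin n) (Fin n) ℂ)) =
        v • (1 : Matrix (Fin n) (Fin n) ℝ) := by
      ext i j
      by_cases h : i = j
      · subst h
        simp [im]
      · simp [im, h]
    rw [e]
    have e2 : qf (v • (1 : Matrix (Fin n) (Fin n) ℝ)) x = v * qf 1 x := by
      unfold qf
      simp only [Matrix.smul_apply, smul_eq_mul, mul_assoc, Finset.mul_sum]
    rw [e2, qf_one]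
    exact mul_pos hv (Out.sq_pos x hx)

end Pool.Agent.Helper27.HY
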