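import Pool.Agent.Helper27.HY.Stm2
import Pool.Agent.Helper95.HY.Sign

/-!
# S2: the sign of the Gauss-Bonnet sum of an array with a Lorentzian representation (helper83)
-/

set_option autoImplicit false

open scoped BigOperators
open MvPolynomial

namespace Pool.Agent.Helper27.HY

open Pool.Agent.Helper95.HY

theorem sign2 : Sign2Stm := by
  intro hW hNV m R hR
  obtain ⟨r, A0, A, hA0s, hAs, hpos, hle, hB⟩ := hR
  have main : 0 ≤ gbJ (fun a b c d => 3 / 2 * R a b c d) := by
    refine gb_closed _ (fun a b c d => A0 a c * A0 b d - A0 b c * A0 a d) fun δ hδ => ?_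
    set mu : ℝ := Real.sqrt (1 + δ) with hmu
    have hmu2 : mu ^ 2 = 1 + δ := Real.sq_sqrt (by positivity)
    have hmu0 : 0 < mu := Real.sqrt_pos.2 (by positivity)
    have hlm : 1 < mu := by
      apply lt_of_pow_lt_pow_left₀ 2 hmu0.le
      rw [hmu2]
      linarith
    have hsm : ∀ x : Fin m × Bool → ℝ, ∑ i, ∑ j, (mu • A0) i j * (x i * x j) =
        mu * ∑ i, ∑ j, A0 i j * (x i * x j) := by
      intro x
      rw [Finset.mul_sum]
      refine Finset.sum_congr rfl fun i _ => ?_
      rw [Finset.mul_sum]
      refine Finset.sum_congr rfl fun j _ => ?_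
      rw [Matrix.smul_apply, smul_eq_mul]
      ring
    have hne : ∀ v : ℝ, 0 < v → f (mu • A0) A
        ((Complex.I * (v : ℂ)) • (1 : Matrix (Fin m × Bool) (Fin m × Bool) ℂ)) ≠ 0 := by
      refine nonvanishJ hNV (1 / mu) (by positivity) ((div_lt_one hmu0).2 hlm) _ A ?_ hAs ?_ ?_
      · intro i j
        rw [Matrix.smul_apply, Matrix.smul_apply, hA0s]
      · intro x
        rw [hsm]
        exact mul_nonneg hmu0.le (hpos x)
      · intro x
        rw [hsm]
        refine (hle x).trans (le_of_eq ?_)
        field_simp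
    have hcard : Fintype.card (Fin m × Bool) = 2 * m := by
      simp [mul_comm]
    have hs := sign_zero m hcard (mu • A0) A hne
    obtain ⟨c, hc, hw⟩ := hW m
    rw [hw r _ A, Complex.ofReal_re] at hs
    have hQ : (fun i k j l => Bf (mu • A0) A i j k l - Bf (mu • A0) A k j i l)
        = fun a b c d => 3 / 2 * R a b c d + δ * (A0 a c * A0 b d - A0 b c * A0 a d) := by
      funext i k j l
      have hBm : ∀ i j k l, Bf (mu • A0) A i j k l = Bf A0 A i j k l + δ * (A0 i j * A0 k l) := by
        intro i j k l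
        unfold Bf
        simp only [Matrix.smul_apply, smul_eq_mul]
        have : mu * A0 i j * (mu * A0 k l) = mu ^ 2 * (A0 i j * A0 k l) := by ring
        rw [this, hmu2]
        ring
      rw [hBm, hBm, ← hB]
      ring
    rw [hQ] at hs
    have h5 : (-1 : ℝ) ^ m * ((-1) ^ m * c * gbJ (fun a b c d => 3 / 2 * R a b c d
        + δ * (A0 a c * A0 b d - A0 b c * A0 a d))) =
        c * gbJ (fun a b c d => 3 / 2 * R a b c d + δ * (A0 a c * A0 b d - A0 b c * A0 a d)) := by
      have : (-1 : ℝ) ^ m * (-1) ^ m = 1 := by rw [← mul_pow]; simp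
      rw [← mul_assoc, ← mul_assoc, this, one_mul]
    rw [h5] at hs
    exact nonneg_of_mul_nonneg_right hs hc
  rw [gb_smul] at main
  exact nonneg_of_mul_nonneg_right main (by positivity)

end Pool.Agent.Helper27.HY
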