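import Pool.Agent.Helper27.HY.Stm

/-!
# The Wick formula for the expectation of the determinant
-/

set_option autoImplicit false

open scoped BigOperators
open MvPolynomial

namespace Pool.Agent.Helper27.HY

theorem Wick_leib {R A ι : Type} [CommRing R] [CommRing A] [Algebra R A] [DecidableEq ι]
    (D : Derivation R A A) (s : Finset ι) (g : ι → A) :
    D (∏ x ∈ s, g x) = ∑ x ∈ s, (∏ y ∈ s.erase x, g y) * D (g x) := by
  induction s using Finset.induction_on with
  | empty => simp
  | insert a s ha ih =>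
    rw [Finset.prod_insert ha, D.leibniz, ih, Finset.sum_insert ha, Finset.erase_insert ha,
      smul_eq_mul, smul_eq_mul, Finset.mul_sum, add_comm]
    congr 1
    refine Finset.sum_congr rfl fun x hx => ?_
    have hne : a ≠ x := fun h => ha (h ▸ hx)
    rw [Finset.erase_insert_of_ne hne,
      Finset.prod_insert (fun h => ha (Finset.mem_of_mem_erase h))]
    ring

section forms

variable {J : Type} {r : ℕ}

/-- the coefficients of the entries -/
noncomputable def Wick_om (A0 : Matrix J J ℝ) (A : Fin r → Matrix J J ℝ) (i j : J) :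
    Option (Fin r) → ℂ
  | none => Complex.I * (A0 i j : ℂ)
  | some k => ((A k i j : ℝ) : ℂ)

theorem Wick_GA (A0 : Matrix J J ℝ) (A : Fin r → Matrix J J ℝ) (i j : J) :
    GA A0 A i j = ∑ a, C (Wick_om A0 A i j a) * X a := by
  rw [Fintype.sum_option]
  rfl

/-- the covariance -/
noncomputable def Wick_cov (A0 : Matrix J J ℝ) (A : Fin r → Matrix J J ℝ) (i j k l : J) : ℂ :=
  ∑ a, Wick_om A0 A i j a * Wick_om A0 A k l a

theorem Wick_cov_eq (A0 : Matrix J J ℝ) (A : Fin r → Matrix J J ℝ) (i j k l : J) :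
    Wick_cov A0 A i j k l = -((Bf A0 A i j k l : ℝ) : ℂ) := by
  rw [Wick_cov, Fintype.sum_option, Bf]
  simp only [Wick_om]
  push_cast
  have h : Complex.I * (A0 i j : ℂ) * (Complex.I * (A0 k l : ℂ)) =
      - ((A0 i j : ℂ) * (A0 k l : ℂ)) := by
    linear_combination (A0 i j : ℂ) * (A0 k l : ℂ) * Complex.I_mul_I
  rw [h]
  ring

theorem Wick_E (A0 : Matrix J J ℝ) (A : Fin r → Matrix J J ℝ) (i j : J) (P : S r) :
    E r (GA A0 A i j * P) = ∑ a, Wick_om A0 A i j a * E r (pderiv a P) := by
  rw [Wick_GA, Finset.sum_mul, map_sum]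
  refine Finset.sum_congr rfl fun a _ => ?_
  rw [mul_assoc, E_C_mul, stein]

theorem Wick_pd (A0 : Matrix J J ℝ) (A : Fin r → Matrix J J ℝ) (k l : J)
    (a : Option (Fin r)) : pderiv a (GA A0 A k l) = C (Wick_om A0 A k l a) := by
  rw [Wick_GA, map_sum]
  rw [Finset.sum_eq_single a]
  · rw [pderiv_C_mul, pderiv_X_self, mul_one]
  · intro b _ hb
    rw [pderiv_C_mul, pderiv_X_of_ne hb, mul_zero]
  · intro h
    exact absurd (Finset.mem_univ a) h

theorem Wick_E_prod {ι : Type} [DecidableEq ι] (A0 : Matrix J J ℝ) (A : Fin r → Matrix J J ℝ)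
    (i j : J) (R : Finset ι) (p q : ι → J) :
    E r (GA A0 A i j * ∏ x ∈ R, GA A0 A (p x) (q x)) =
      ∑ y ∈ R, Wick_cov A0 A i j (p y) (q y) *
        E r (∏ x ∈ R.erase y, GA A0 A (p x) (q x)) := by
  rw [Wick_E]
  have h : ∀ a : Option (Fin r), Wick_om A0 A i j a *
      E r (pderiv a (∏ x ∈ R, GA A0 A (p x) (q x))) =
      ∑ y ∈ R, Wick_om A0 A i j a * Wick_om A0 A (p y) (q y) a *
        E r (∏ x ∈ R.erase y, GA A0 A (p x) (q x)) := by
    intro a
    rw [Wick_leib, map_sum, Finset.mul_sum]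
    refine Finset.sum_congr rfl fun y _ => ?_
    rw [Wick_pd, mul_comm (∏ x ∈ R.erase y, GA A0 A (p x) (q x)), E_C_mul]
    ring
  rw [Finset.sum_congr rfl fun a _ => h a, Finset.sum_comm]
  refine Finset.sum_congr rfl fun y _ => ?_
  rw [Wick_cov, Finset.sum_mul]

end forms

section perms

variable {J : Type} [Fintype J] [DecidableEq J]

/-- double sum over permutations with both signs -/
noncomputable def Wick_dbl (g : Equiv.Perm J → Equiv.Perm J → ℂ) : ℂ :=
  ∑ σ : Equiv.Perm J, ∑ τ : Equiv.Perm J,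
    ((Equiv.Perm.sign σ : ℤ) : ℂ) * ((Equiv.Perm.sign τ : ℤ) : ℂ) * g σ τ

theorem Wick_dbl_sum {ι : Type} (R : Finset ι) (g : ι → Equiv.Perm J → Equiv.Perm J → ℂ) :
    Wick_dbl (fun σ τ => ∑ y ∈ R, g y σ τ) = ∑ y ∈ R, Wick_dbl (g y) := by
  unfold Wick_dbl
  simp only [Finset.mul_sum]
  calc _ = ∑ σ : Equiv.Perm J, ∑ y ∈ R, ∑ τ : Equiv.Perm J,
      ((Equiv.Perm.sign σ : ℤ) : ℂ) * ((Equiv.Perm.sign τ : ℤ) : ℂ) * g y σ τ :=
        Finset.sum_congr rfl fun σ _ => Finset.sum_comm
    _ = _ := Finset.sum_comm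

theorem Wick_sign_sq (π : Equiv.Perm J) :
    ((Equiv.Perm.sign π : ℤ) : ℂ) * ((Equiv.Perm.sign π : ℤ) : ℂ) = 1 := by
  have : ((Equiv.Perm.sign π : ℤˣ) : ℤ) * ((Equiv.Perm.sign π : ℤˣ) : ℤ) = 1 := by
    rw [← Units.val_mul, Int.units_mul_self, Units.val_one]
  exact_mod_cast this

/-- composing both permutations with `π` changes nothing -/
theorem Wick_dbl_comp (π : Equiv.Perm J) (g : Equiv.Perm J → Equiv.Perm J → ℂ) :
    Wick_dbl g = Wick_dbl fun σ τ => g (σ * π) (τ * π) := by
  unfold Wick_dbl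
  rw [← Equiv.sum_comp (Equiv.mulRight π)]
  refine Finset.sum_congr rfl fun σ _ => ?_
  rw [← Equiv.sum_comp (Equiv.mulRight π)]
  refine Finset.sum_congr rfl fun τ _ => ?_
  simp only [Equiv.coe_mulRight, Equiv.Perm.sign_mul, Units.val_mul, Int.cast_mul]
  have := Wick_sign_sq π
  linear_combination ((Equiv.Perm.sign σ : ℤ) : ℂ) * ((Equiv.Perm.sign τ : ℤ) : ℂ) *
    g (σ * π) (τ * π) * this

/-- composing the first permutation with `π` changes the sign -/
theorem Wick_dbl_comp1 (π : Equiv.Perm J) (g : Equiv.Perm J → Equiv.Perm J → ℂ) :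
    Wick_dbl g = ((Equiv.Perm.sign π : ℤ) : ℂ) * Wick_dbl fun σ τ => g (σ * π) τ := by
  unfold Wick_dbl
  rw [← Equiv.sum_comp (Equiv.mulRight π), Finset.mul_sum]
  refine Finset.sum_congr rfl fun σ _ => ?_
  rw [Finset.mul_sum]
  refine Finset.sum_congr rfl fun τ _ => ?_
  simp only [Equiv.coe_mulRight, Equiv.Perm.sign_mul, Units.val_mul, Int.cast_mul]
  ring

/-- the determinant as a double sum -/
theorem Wick_det {r : ℕ} (M : Matrix J J (S r)) :
    Wick_dbl (fun σ τ => E r (∏ x, M (σ x) (τ x))) =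
      (Nat.factorial (Fintype.card J) : ℂ) * E r M.det := by
  unfold Wick_dbl
  rw [Finset.sum_comm]
  have h : ∀ τ : Equiv.Perm J, ∑ σ : Equiv.Perm J,
      ((Equiv.Perm.sign σ : ℤ) : ℂ) * ((Equiv.Perm.sign τ : ℤ) : ℂ) *
        E r (∏ x, M (σ x) (τ x)) = E r M.det := by
    intro τ
    rw [Matrix.det_apply', map_sum, ← Equiv.sum_comp (Equiv.mulRight τ)]
    refine Finset.sum_congr rfl fun σ _ => ?_
    have h1 : ∏ x, M ((Equiv.mulRight τ σ) x) (τ x) = ∏ x, M (σ x) x := by
      rw [← Equiv.prod_comp τ (fun x => M (σ x) x)]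
      rfl
    rw [h1]
    have h2 : (((Equiv.Perm.sign σ : ℤ) : S r)) = C ((Equiv.Perm.sign σ : ℤ) : ℂ) := by
      simp
    rw [h2, E_C_mul]
    simp only [Equiv.coe_mulRight, Equiv.Perm.sign_mul, Units.val_mul, Int.cast_mul]
    have := Wick_sign_sq τ
    linear_combination ((Equiv.Perm.sign σ : ℤ) : ℂ) * E r (∏ x, M (σ x) x) * this
  rw [Finset.sum_congr rfl fun τ _ => h τ, Finset.sum_const, Finset.card_univ,
    Fintype.card_perm, nsmul_eq_mul]

end perms

section blocks

variable {m r : ℕ} (A0 : Matrix (Fin m × Bool) (Fin m × Bool) ℝ)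
    (A : Fin r → Matrix (Fin m × Bool) (Fin m × Bool) ℝ)

/-- the positions of a set of blocks -/
def Wick_pos (T : Finset (Fin m)) : Finset (Fin m × Bool) := T ×ˢ Finset.univ

theorem Wick_pos_insert (T : Finset (Fin m)) (b : Fin m) :
    Wick_pos (insert b T) = insert (b, false) (insert (b, true) (Wick_pos T)) := by
  ext ⟨x, y⟩
  cases y <;> simp [Wick_pos]

theorem Wick_pos_mem (T : Finset (Fin m)) (b : Fin m) (y : Bool) :
    (b, y) ∈ Wick_pos T ↔ b ∈ T := by
  simp [Wick_pos]

/-- the sum with the blocks off `T` already paired -/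
noncomputable def Wick_F (T : Finset (Fin m)) : ℂ :=
  Wick_dbl fun σ τ => (∏ b ∈ Tᶜ, Wick_cov A0 A (σ (b, false)) (τ (b, false))
    (σ (b, true)) (τ (b, true))) * E r (∏ x ∈ Wick_pos T, GA A0 A (σ x) (τ x))

theorem Wick_step (T : Finset (Fin m)) (b : Fin m) (hb : b ∉ T) :
    Wick_F A0 A (insert b T) = (2 * (T.card : ℂ) + 1) * Wick_F A0 A T := by
  have hbt : (b, true) ∉ Wick_pos T := fun h => hb ((Wick_pos_mem T b true).1 h)
  have hbf : (b, false) ∉ insert (b, true) (Wick_pos T) := by
    simp [Wick_pos_mem, hb]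
  have hcard : (insert (b, true) (Wick_pos T)).card = 2 * T.card + 1 := by
    rw [Finset.card_insert_of_notMem hbt, Wick_pos, Finset.card_product, Finset.card_univ,
      Fintype.card_bool]
    ring
  have h1 : Wick_F A0 A (insert b T) = ∑ y ∈ insert (b, true) (Wick_pos T), Wick_dbl fun σ τ =>
      (∏ c ∈ (insert b T)ᶜ, Wick_cov A0 A (σ (c, false)) (τ (c, false))
        (σ (c, true)) (τ (c, true))) * (Wick_cov A0 A (σ (b, false)) (τ (b, false)) (σ y) (τ y) *
        E r (∏ x ∈ (insert (b, true) (Wick_pos T)).erase y, GA A0 A (σ x) (τ x))) := by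
    rw [← Wick_dbl_sum, Wick_F]
    congr 1
    funext σ τ
    rw [Wick_pos_insert, Finset.prod_insert hbf, Wick_E_prod, Finset.mul_sum]
  have h2 : ∀ y ∈ insert (b, true) (Wick_pos T), (Wick_dbl fun σ τ =>
      (∏ c ∈ (insert b T)ᶜ, Wick_cov A0 A (σ (c, false)) (τ (c, false))
        (σ (c, true)) (τ (c, true))) * (Wick_cov A0 A (σ (b, false)) (τ (b, false)) (σ y) (τ y) *
        E r (∏ x ∈ (insert (b, true) (Wick_pos T)).erase y, GA A0 A (σ x) (τ x)))) =
      Wick_F A0 A T := by
    intro y hy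
    rw [Wick_dbl_comp (Equiv.swap (b, true) y), Wick_F]
    congr 1
    funext σ τ
    have hyf : y ≠ (b, false) := fun h => hbf (h ▸ hy)
    have e1 : Equiv.swap (b, true) y (b, false) = (b, false) :=
      Equiv.swap_apply_of_ne_of_ne (by simp) (Ne.symm hyf)
    have e2 : Equiv.swap (b, true) y y = (b, true) := Equiv.swap_apply_right _ _
    have e3 : ∀ c ∈ (insert b T)ᶜ, ∀ z : Bool, Equiv.swap (b, true) y (c, z) = (c, z) := by
      intro c hc z
      rw [Finset.mem_compl, Finset.mem_insert, not_or] at hc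
      refine Equiv.swap_apply_of_ne_of_ne ?_ ?_
      · intro h
        exact hc.1 (congrArg Prod.fst h)
      · rintro rfl
        rw [Finset.mem_insert, Wick_pos_mem] at hy
        rcases hy with hy | hy
        · exact hc.1 (congrArg Prod.fst hy)
        · exact hc.2 hy
    have e4 : ∏ x ∈ (insert (b, true) (Wick_pos T)).erase y,
        GA A0 A ((σ * Equiv.swap (b, true) y) x) ((τ * Equiv.swap (b, true) y) x) =
        ∏ x ∈ Wick_pos T, GA A0 A (σ x) (τ x) := by
      have hmap : Wick_pos T = ((insert (b, true) (Wick_pos T)).erase y).map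
          (Equiv.swap (b, true) y).toEmbedding := by
        ext x
        simp only [Finset.mem_map_equiv, Finset.mem_erase, Finset.mem_insert,
          Equiv.symm_swap]
        constructor
        · intro hx
          have hxb : x ≠ (b, true) := fun h => hbt (h ▸ hx)
          refine ⟨?_, ?_⟩
          · intro h
            have : x = (b, true) := by
              have := congrArg (Equiv.swap (b, true) y) h
              rwa [Equiv.swap_apply_self, e2] at this
            exact hxb this
          · by_cases hxy : x = y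
            · left
              rw [hxy, e2]
            · right
              rwa [Equiv.swap_apply_of_ne_of_ne hxb hxy]
        · rintro ⟨h3, h4⟩
          by_cases hxb : x = (b, true)
          · exfalso
            apply h3
            rw [hxb, Equiv.swap_apply_left]
          · by_cases hxy : x = y
            · rw [Finset.mem_insert] at hy
              rcases hy with hy | hy
              · exact absurd (hxy.trans hy) hxb
              · rwa [hxy]
            · rw [Equiv.swap_apply_of_ne_of_ne hxb hxy] at h4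
              rcases h4 with h4 | h4
              · exact absurd h4 hxb
              · exact h4
      conv_rhs => rw [hmap]
      rw [Finset.prod_map]
      rfl
    rw [e4]
    have e5 : ∏ c ∈ (insert b T)ᶜ, Wick_cov A0 A ((σ * Equiv.swap (b, true) y) (c, false))
        ((τ * Equiv.swap (b, true) y) (c, false)) ((σ * Equiv.swap (b, true) y) (c, true))
        ((τ * Equiv.swap (b, true) y) (c, true)) =
        ∏ c ∈ (insert b T)ᶜ, Wick_cov A0 A (σ (c, false)) (τ (c, false))
        (σ (c, true)) (τ (c, true)) := by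
      refine Finset.prod_congr rfl fun c hc => ?_
      simp only [Equiv.Perm.mul_apply, e3 c hc]
    rw [e5]
    simp only [Equiv.Perm.mul_apply, e1, e2]
    have e6 : Tᶜ = insert b (insert b T)ᶜ := by
      ext x
      simp only [Finset.mem_compl, Finset.mem_insert, not_or]
      constructor
      · intro hx
        by_cases hxb : x = b
        · exact Or.inl hxb
        · exact Or.inr ⟨hxb, hx⟩
      · rintro (rfl | hx)
        · exact hb
        · exact hx.2
    rw [e6, Finset.prod_insert (by simp)]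
    ring
  rw [h1, Finset.sum_congr rfl h2, Finset.sum_const, hcard, nsmul_eq_mul]
  push_cast
  ring

theorem Wick_F_card (T : Finset (Fin m)) :
    Wick_F A0 A T = (∏ j ∈ Finset.range T.card, (2 * (j : ℂ) + 1)) * Wick_F A0 A ∅ := by
  induction T using Finset.induction_on with
  | empty => simp
  | insert b T hb ih =>
    rw [Wick_step A0 A T b hb, ih, Finset.card_insert_of_notMem hb, Finset.prod_range_succ]
    ring

/-- the sum with the first blocks antisymmetrised -/
noncomputable def Wick_G (B : Fin m × Bool → Fin m × Bool → Fin m × Bool → Fin m × Bool → ℂ)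
    (T : Finset (Fin m)) : ℂ :=
  Wick_dbl fun σ τ => (∏ b ∈ T, (B (σ (b, false)) (τ (b, false)) (σ (b, true)) (τ (b, true)) -
      B (σ (b, true)) (τ (b, false)) (σ (b, false)) (τ (b, true)))) *
    ∏ b ∈ Tᶜ, B (σ (b, false)) (τ (b, false)) (σ (b, true)) (τ (b, true))

theorem Wick_G_step (B : Fin m × Bool → Fin m × Bool → Fin m × Bool → Fin m × Bool → ℂ)
    (T : Finset (Fin m)) (b : Fin m) (hb : b ∉ T) :
    Wick_G B (insert b T) = 2 * Wick_G B T := by
  have e6 : Tᶜ = insert b (insert b T)ᶜ := by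
    ext x
    simp only [Finset.mem_compl, Finset.mem_insert, not_or]
    constructor
    · intro hx
      by_cases hxb : x = b
      · exact Or.inl hxb
      · exact Or.inr ⟨hxb, hx⟩
    · rintro (rfl | hx)
      · exact hb
      · exact hx.2
  have h0 : Wick_G B (insert b T) = Wick_G B T - Wick_dbl fun σ τ =>
      (∏ b ∈ T, (B (σ (b, false)) (τ (b, false)) (σ (b, true)) (τ (b, true)) -
      B (σ (b, true)) (τ (b, false)) (σ (b, false)) (τ (b, true)))) *
      (B (σ (b, true)) (τ (b, false)) (σ (b, false)) (τ (b, true)) *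
      ∏ b ∈ (insert b T)ᶜ, B (σ (b, false)) (τ (b, false)) (σ (b, true)) (τ (b, true))) := by
    unfold Wick_G Wick_dbl
    rw [← Finset.sum_sub_distrib]
    refine Finset.sum_congr rfl fun σ _ => ?_
    rw [← Finset.sum_sub_distrib]
    refine Finset.sum_congr rfl fun τ _ => ?_
    beta_reduce
    rw [Finset.prod_insert hb]
    conv_rhs => rw [e6, Finset.prod_insert (show b ∉ (insert b T)ᶜ by simp)]
    ring
  have h1 : (Wick_dbl fun σ τ =>
      (∏ b ∈ T, (B (σ (b, false)) (τ (b, false)) (σ (b, true)) (τ (b, true)) -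
      B (σ (b, true)) (τ (b, false)) (σ (b, false)) (τ (b, true)))) *
      (B (σ (b, true)) (τ (b, false)) (σ (b, false)) (τ (b, true)) *
      ∏ b ∈ (insert b T)ᶜ, B (σ (b, false)) (τ (b, false)) (σ (b, true)) (τ (b, true)))) =
      - Wick_G B T := by
    rw [Wick_dbl_comp1 (Equiv.swap (b, false) (b, true))]
    rw [Equiv.Perm.sign_swap (by simp)]
    have h2 : (fun σ τ : Equiv.Perm (Fin m × Bool) =>
      (∏ c ∈ T, (B ((σ * Equiv.swap (b, false) (b, true)) (c, false)) (τ (c, false))
        ((σ * Equiv.swap (b, false) (b, true)) (c, true)) (τ (c, true)) -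
      B ((σ * Equiv.swap (b, false) (b, true)) (c, true)) (τ (c, false))
        ((σ * Equiv.swap (b, false) (b, true)) (c, false)) (τ (c, true)))) *
      (B ((σ * Equiv.swap (b, false) (b, true)) (b, true)) (τ (b, false))
        ((σ * Equiv.swap (b, false) (b, true)) (b, false)) (τ (b, true)) *
      ∏ c ∈ (insert b T)ᶜ, B ((σ * Equiv.swap (b, false) (b, true)) (c, false)) (τ (c, false))
        ((σ * Equiv.swap (b, false) (b, true)) (c, true)) (τ (c, true)))) =
      fun σ τ => (∏ b ∈ T, (B (σ (b, false)) (τ (b, false)) (σ (b, true)) (τ (b, true)) -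
      B (σ (b, true)) (τ (b, false)) (σ (b, false)) (τ (b, true)))) *
      ∏ b ∈ Tᶜ, B (σ (b, false)) (τ (b, false)) (σ (b, true)) (τ (b, true)) := by
      funext σ τ
      have e3 : ∀ c : Fin m, c ≠ b → ∀ z : Bool,
          Equiv.swap (b, false) (b, true) (c, z) = (c, z) := by
        intro c hc z
        refine Equiv.swap_apply_of_ne_of_ne ?_ ?_
        · intro h
          exact hc (congrArg Prod.fst h)
        · intro h
          exact hc (congrArg Prod.fst h)
      conv_rhs => rw [e6, Finset.prod_insert (show b ∉ (insert b T)ᶜ by simp)]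
      congr 1
      · refine Finset.prod_congr rfl fun c hc => ?_
        have hcb : c ≠ b := fun h => hb (h ▸ hc)
        simp only [Equiv.Perm.mul_apply, e3 c hcb]
      · congr 1
        · simp only [Equiv.Perm.mul_apply, Equiv.swap_apply_left, Equiv.swap_apply_right]
        · refine Finset.prod_congr rfl fun c hc => ?_
          have hcb : c ≠ b := by
            rintro rfl
            simp at hc
          simp only [Equiv.Perm.mul_apply, e3 c hcb]
    rw [h2]
    simp [Wick_G]
  rw [h0, h1]
  ring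

theorem Wick_G_card (B : Fin m × Bool → Fin m × Bool → Fin m × Bool → Fin m × Bool → ℂ)
    (T : Finset (Fin m)) : Wick_G B T = 2 ^ T.card * Wick_G B ∅ := by
  induction T using Finset.induction_on with
  | empty => simp
  | insert b T hb ih =>
    rw [Wick_G_step B T b hb, ih, Finset.card_insert_of_notMem hb, pow_succ]
    ring

end blocks

theorem wick : WickStm := by
  intro m
  refine ⟨(∏ j ∈ Finset.range m, (2 * (j : ℝ) + 1)) / (Nat.factorial (2 * m) * 2 ^ m), ?_, ?_⟩
  · have : 0 < ∏ j ∈ Finset.range m, (2 * (j : ℝ) + 1) :=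
      Finset.prod_pos fun j _ => by positivity
    positivity
  intro r A0 A
  -- the full sum
  have h1 := Wick_F_card A0 A Finset.univ
  rw [Finset.card_univ, Fintype.card_fin] at h1
  have h2 : Wick_F A0 A Finset.univ = (Nat.factorial (2 * m) : ℂ) * E r (GA A0 A).det := by
    have h3 := Wick_det (GA A0 A)
    rw [Fintype.card_prod, Fintype.card_fin, Fintype.card_bool, mul_comm m 2] at h3
    rw [← h3, Wick_F]
    congr 1
    funext σ τ
    rw [Finset.compl_univ, Finset.prod_empty, one_mul]
    have hp : Wick_pos (Finset.univ : Finset (Fin m)) = Finset.univ := Finset.univ_product_univ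
    rw [hp]
  have h4 : Wick_F A0 A ∅ = (-1) ^ m * Wick_G (fun i j k l => ((Bf A0 A i j k l : ℝ) : ℂ)) ∅ := by
    rw [Wick_F, Wick_G]
    unfold Wick_dbl
    rw [Finset.mul_sum]
    refine Finset.sum_congr rfl fun σ _ => ?_
    rw [Finset.mul_sum]
    refine Finset.sum_congr rfl fun τ _ => ?_
    have h5 : E r (∏ x ∈ Wick_pos (∅ : Finset (Fin m)), GA A0 A (σ x) (τ x)) = 1 := by
      rw [show Wick_pos (∅ : Finset (Fin m)) = ∅ by simp [Wick_pos], Finset.prod_empty, E_one]
    beta_reduce
    rw [h5]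
    simp only [Wick_cov_eq, Finset.prod_neg, Finset.prod_empty, Finset.compl_empty,
      Finset.card_univ, Fintype.card_fin]
    ring
  have h6 := Wick_G_card (fun i j k l : Fin m × Bool => ((Bf A0 A i j k l : ℝ) : ℂ)) Finset.univ
  rw [Finset.card_univ, Fintype.card_fin] at h6
  have h7 : Wick_G (fun i j k l : Fin m × Bool => ((Bf A0 A i j k l : ℝ) : ℂ)) Finset.univ =
      ((gbJ (fun i k j l => Bf A0 A i j k l - Bf A0 A k j i l) : ℝ) : ℂ) := by
    rw [Wick_G, Wick_dbl, gbJ]
    push_cast
    refine Finset.sum_congr rfl fun σ _ => ?_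
    refine Finset.sum_congr rfl fun τ _ => ?_
    rw [Finset.compl_univ, Finset.prod_empty, mul_one]
  rw [h2, h4] at h1
  rw [h7] at h6
  have hf : (Nat.factorial (2 * m) : ℂ) ≠ 0 := by
    exact_mod_cast Nat.factorial_ne_zero _
  have h8 : E r (GA A0 A).det = ((∏ j ∈ Finset.range m, (2 * (j : ℂ) + 1)) *
      ((-1) ^ m * Wick_G (fun i j k l => ((Bf A0 A i j k l : ℝ) : ℂ)) ∅)) /
        (Nat.factorial (2 * m) : ℂ) := by
    rw [eq_div_iff hf, ← h1, mul_comm]
  rw [h8]
  push_cast
  rw [h6]
  field_simp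

end Pool.Agent.Helper27.HY
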