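import Pool.Agent.Helper27.HY.Nondeg
import Pool.Agent.Helper27.HY.Outer
import Pool.Agent.Helper27.HY.Contra
import Pool.Agent.Helper27.HY.Sign2
import Pool.Agent.Helper27.HY.Wick

/-!
# The nonvanishing theorem and the sign
-/

set_option autoImplicit false

namespace Pool.Agent.Helper27.HY

/-- nonvanishing -/
theorem nonvanish : NonvanishStm := outer nondeg contra

/-- the sign of the Gauss-Bonnet sum for arrays with a Lorentzian representation -/
theorem sign_rep (m : ℕ) (R : Fin m × Bool → Fin m × Bool → Fin m × Bool → Fin m × Bool → ℝ)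
    (h : Rep R) : 0 ≤ gbJ R := sign2 wick nonvanish m R h

end Pool.Agent.Helper27.HY
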