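import Pool.Agent.Helper27.HY.Stm2

/-!
# Nonvanishing of the derivative in rank one directions
-/

set_option autoImplicit false
set_option linter.unusedSectionVars false

open scoped BigOperators
open MvPolynomial

namespace Pool.Agent.Helper27.HY

/-- an invertible matrix which sends a nonzero vector to the first unit vector -/
theorem exists_unit_trf {n : ℕ} (e : Fin (n + 1) → ℝ) (he : e ≠ 0) :
    ∃ T : Matrix (Fin (n + 1)) (Fin (n + 1)) ℝ, T.det ≠ 0 ∧
      T.transpose.mulVec e = Pi.single 0 1 := by
  obtain ⟨p, hp⟩ : ∃ p, e p ≠ 0 := by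
    by_contra hc
    push Not at hc
    exact he (funext hc)
  set N : Matrix (Fin (n + 1)) (Fin (n + 1)) ℝ :=
    (1 : Matrix (Fin (n + 1)) (Fin (n + 1)) ℝ).updateCol p e with hN
  set B : Matrix (Fin (n + 1)) (Fin (n + 1)) ℝ := N.submatrix id (Equiv.swap 0 p) with hB
  have hNd : N.det = e p := by
    rw [hN, ← Matrix.cramer_apply, Matrix.cramer_one]
    rfl
  have hBd : B.det ≠ 0 := by
    rw [hB, Matrix.det_permute', hNd]
    refine mul_ne_zero ?_ hp
    exact_mod_cast (Equiv.Perm.sign (Equiv.swap 0 p)).ne_zero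
  have hBe : B.mulVec (Pi.single 0 1) = e := by
    funext i
    rw [Matrix.mulVec_single_one]
    show N i (Equiv.swap 0 p 0) = e i
    rw [Equiv.swap_apply_left, hN, Matrix.updateCol_self]
  refine ⟨(B⁻¹).transpose, ?_, ?_⟩
  · rw [Matrix.det_transpose, Matrix.det_nonsing_inv]
    rw [Ring.inverse_eq_inv']
    exact inv_ne_zero hBd
  · rw [Matrix.transpose_transpose]
    conv_lhs => rw [← hBe]
    rw [Matrix.mulVec_mulVec, Matrix.nonsing_inv_mul _ (isUnit_iff_ne_zero.2 hBd), Matrix.one_mulVec]

theorem im_trf {J : Type} [Fintype J] [DecidableEq J] (T : Matrix J J ℝ) (Y : Matrix J J ℂ) :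
    im ((cm T).transpose * Y * cm T) = trf T (im Y) := by
  ext i j
  simp only [im, trf, cm, Matrix.map_apply, Matrix.mul_apply, Matrix.transpose_apply]
  rw [Complex.im_sum]
  refine Finset.sum_congr rfl fun k _ => ?_
  rw [Complex.im_mul_ofReal, Complex.im_sum]
  congr 1
  refine Finset.sum_congr rfl fun l _ => ?_
  rw [Complex.im_ofReal_mul]

theorem nondeg : NondegStm := by
  intro n r θ IH A0 A hAd Y hYs hYp e he
  obtain ⟨T, hT, hTe⟩ := exists_unit_trf e he
  set Y' : Matrix (Fin (n + 1)) (Fin (n + 1)) ℂ := (cm T).transpose * Y * cm T with hY'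
  have hce : cm (Matrix.vecMulVec e e) =
      Matrix.vecMulVec (fun i => (e i : ℂ)) (fun i => (e i : ℂ)) := by
    ext i j
    simp [cm, Matrix.vecMulVec_apply]
  have hTc : (cm T).transpose.mulVec (fun i => (e i : ℂ)) = Pi.single 0 1 := by
    funext i
    have h1 := congrFun hTe i
    have h2 : (cm T).transpose.mulVec (fun i => (e i : ℂ)) i = ((T.transpose.mulVec e i : ℝ) : ℂ) := by
      simp [cm, Matrix.mulVec, dotProduct]
    rw [h2, h1]
    by_cases hi : i = 0
    · subst hi
      simp
    · simp [hi]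
  have h1 := D1_trf A0 A T Y (fun i => (e i : ℂ))
  rw [hTc, D1_single] at h1
  have h2 : f ((trf T A0).submatrix Fin.succ Fin.succ)
      (fun k => (trf T (A k)).submatrix Fin.succ Fin.succ) (Y'.submatrix Fin.succ Fin.succ) ≠ 0 := by
    refine IH _ _ ?_ _ ?_ ?_
    · have h3 := (hAd.trf T).sub 0
      rw [Fin.succAbove_zero] at h3
      exact h3
    · intro i j
      have hs : Y'.transpose = Y' := by
        rw [hY', Matrix.transpose_mul, Matrix.transpose_mul, Matrix.transpose_transpose,
          Matrix.mul_assoc]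
        congr 2
        ext a b
        exact hYs b a
      show Y' i.succ j.succ = Y' j.succ i.succ
      exact congrFun (congrFun hs j.succ) i.succ
    · intro x hx
      have h4 : im (Y'.submatrix Fin.succ Fin.succ) =
          (im Y').submatrix (0 : Fin (n + 1)).succAbove (0 : Fin (n + 1)).succAbove := by
        rw [Fin.succAbove_zero]
        rfl
      rw [h4, qf_sub, hY', im_trf, qf_trf]
      refine hYp _ fun h5 => hx ?_
      have h6 : (Fin.insertNth 0 0 x : Fin (n + 1) → ℝ) = 0 :=
        Matrix.eq_zero_of_mulVec_eq_zero hT h5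
      funext i
      have h7 := congrFun h6 ((0 : Fin (n + 1)).succAbove i)
      rw [Fin.insertNth_apply_succAbove] at h7
      exact h7
  intro h0
  rw [hce] at h0
  rw [h0, mul_zero] at h1
  exact h2 h1

end Pool.Agent.Helper27.HY
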