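import Pool.Agent.Helper27.HY.Core

/-!
# Statements of the pieces
-/

set_option autoImplicit false

open scoped BigOperators
open MvPolynomial

namespace Pool.Agent.Helper27.HY

/-- the array `B_{ij,kl} = A₀_ij A₀_kl - ∑ A_ij A_kl` -/
def Bf {J : Type} {r : ℕ} (A0 : Matrix J J ℝ) (A : Fin r → Matrix J J ℝ) (i j k l : J) : ℝ :=
  A0 i j * A0 k l - ∑ a, A a i j * A a k l

/-- the Gauss-Bonnet sum of an array -/
def gbJ {m : ℕ} (Q : Fin m × Bool → Fin m × Bool → Fin m × Bool → Fin m × Bool → ℝ) : ℝ :=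
  ∑ σ : Equiv.Perm (Fin m × Bool), ∑ τ : Equiv.Perm (Fin m × Bool),
    ((Equiv.Perm.sign σ : ℤ) : ℝ) * ((Equiv.Perm.sign τ : ℤ) : ℝ) *
      ∏ b : Fin m, Q (σ (b, false)) (σ (b, true)) (τ (b, false)) (τ (b, true))

/-- P1: the expectation of the determinant of the Gaussian matrix (Wick formula). -/
def WickStm : Prop :=
  ∀ m : ℕ, ∃ c : ℝ, 0 < c ∧ ∀ (r : ℕ) (A0 : Matrix (Fin m × Bool) (Fin m × Bool) ℝ)
    (A : Fin r → Matrix (Fin m × Bool) (Fin m × Bool) ℝ),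
    E r (Matrix.det (GA A0 A)) =
      (((-1) ^ m * c * gbJ (fun i k j l => Bf A0 A i j k l - Bf A0 A k j i l) : ℝ) : ℂ)

/-- P2: decomposition of an array with strictly nonpositive form on the traceless symmetric matrices. -/
def DecompStm : Prop :=
  ∀ (J : Type) [Fintype J] [DecidableEq J] (R : J → J → J → J → ℝ),
    (∀ a b c d, R b a c d = - R a b c d) → (∀ a b c d, R c d a b = R a b c d) →
    (∀ a b c d, R a b c d + R b c a d + R c a b d = 0) → ∀ κ : ℝ, 0 < κ →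
    (∀ h : J → J → ℝ, (∀ a b, h a b = h b a) → ∑ a, h a a = 0 →
      ∑ i, ∑ j, ∑ k, ∑ l, R i k j l * (h i j * h k l) ≤ -(κ * ∑ i, ∑ j, h i j * h i j)) →
    ∃ (r : ℕ) (A : Fin r → Matrix J J ℝ) (lam : ℝ), 0 < lam ∧ (∀ k i j, A k i j = A k j i) ∧
      ∀ i j k l, Bf (lam • (1 : Matrix J J ℝ)) A i j k l = 1 / 2 * (R i k j l + R i l j k)

/-- NV: nonvanishing (the main theorem). -/
def NonvanishStm : Prop :=
  ∀ (n r : ℕ) (θ : ℝ), 0 ≤ θ → θ < 1 → ∀ (A0 : Matrix (Fin n) (Fin n) ℝ)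
    (A : Fin r → Matrix (Fin n) (Fin n) ℝ), (∀ i j, A0 i j = A0 j i) →
    (∀ k i j, A k i j = A k j i) → (∀ x : Fin n → ℝ, 0 ≤ ∑ i, ∑ j, A0 i j * (x i * x j)) →
    (∀ x : Fin n → ℝ, ∑ k, (∑ i, ∑ j, A k i j * (x i * x j)) ^ 2 ≤
      θ ^ 2 * (∑ i, ∑ j, A0 i j * (x i * x j)) ^ 2) →
    ∀ v : ℝ, 0 < v → f A0 A ((Complex.I * (v : ℂ)) • (1 : Matrix (Fin n) (Fin n) ℂ)) ≠ 0

/-- P3: the sign from the other pieces. -/
def SignStm : Prop :=
  WickStm → DecompStm → NonvanishStm →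
  ∀ (m : ℕ) (R : Fin m × Bool → Fin m × Bool → Fin m × Bool → Fin m × Bool → ℝ),
    (∀ a b c d, R b a c d = - R a b c d) → (∀ a b c d, R c d a b = R a b c d) →
    (∀ a b c d, R a b c d + R b c a d + R c a b d = 0) →
    (∀ h : Fin m × Bool → Fin m × Bool → ℝ, (∀ a b, h a b = h b a) → ∑ a, h a a = 0 →
      ∑ i, ∑ j, ∑ k, ∑ l, R i k j l * (h i j * h k l) ≤ 0) → 0 ≤ gbJ R

end Pool.Agent.Helper27.HY
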