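import Pool.Agent.Helper27.HY.Stm
import Pool.Agent.Helper27.HY.Cpt

/-!
# Statements of the pieces, second list
-/

set_option autoImplicit false
set_option linter.unusedSectionVars false

open scoped BigOperators
open MvPolynomial

namespace Pool.Agent.Helper27.HY

/-- imaginary part of a matrix -/
def im {J : Type} (Y : Matrix J J ℂ) : Matrix J J ℝ := Y.map Complex.im

/-- nonvanishing on the Siegel upper half space, in dimension `n` -/
def NVn (n r : ℕ) (θ : ℝ) : Prop :=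
  ∀ (A0 : Matrix (Fin n) (Fin n) ℝ) (A : Fin r → Matrix (Fin n) (Fin n) ℝ), Ad θ A0 A →
    ∀ Y : Matrix (Fin n) (Fin n) ℂ, (∀ i j, Y i j = Y j i) →
      (∀ x : Fin n → ℝ, x ≠ 0 → 0 < qf (im Y) x) → f A0 A Y ≠ 0

/-- N1: nonvanishing of the derivative in rank one directions. -/
def NondegStm : Prop :=
  ∀ (n r : ℕ) (θ : ℝ), NVn n r θ →
    ∀ (A0 : Matrix (Fin (n + 1)) (Fin (n + 1)) ℝ) (A : Fin r → Matrix (Fin (n + 1)) (Fin (n + 1)) ℝ),
      Ad θ A0 A → ∀ Y : Matrix (Fin (n + 1)) (Fin (n + 1)) ℂ, (∀ i j, Y i j = Y j i) →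
      (∀ x : Fin (n + 1) → ℝ, x ≠ 0 → 0 < qf (im Y) x) → ∀ e : Fin (n + 1) → ℝ, e ≠ 0 →
        D1 A0 A Y (cm (Matrix.vecMulVec e e)) ≠ 0

/-- N2: the extremal case. -/
def ContraStm : Prop :=
  ∀ (n r : ℕ) (θ : ℝ), 0 ≤ θ → θ < 1 →
    ∀ (A0 : Matrix (Fin (n + 1)) (Fin (n + 1)) ℝ) (A : Fin r → Matrix (Fin (n + 1)) (Fin (n + 1)) ℝ),
      Ad θ A0 A →
      (∀ (Y : Matrix (Fin (n + 1)) (Fin (n + 1)) ℂ) (Q : Matrix (Fin (n + 1)) (Fin (n + 1)) ℝ),
        (∀ i j, Y i j = Y j i) → (∀ x, 0 ≤ qf Q x) →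
        (∀ x, ∑ i, x i ^ 2 + qf Q x ≤ qf (im Y) x) → 0 < pr Q A0 → f A0 A Y ≠ 0) →
      (∀ Y : Matrix (Fin (n + 1)) (Fin (n + 1)) ℂ, (∀ i j, Y i j = Y j i) →
        (∀ x : Fin (n + 1) → ℝ, x ≠ 0 → 0 < qf (im Y) x) → ∀ e : Fin (n + 1) → ℝ, e ≠ 0 →
          D1 A0 A Y (cm (Matrix.vecMulVec e e)) ≠ 0) →
      ∀ x : Fin (n + 1) → ℝ,
        f A0 A (Matrix.diagonal fun j => (x j : ℂ) + Complex.I) ≠ 0

/-- N3: the induction. -/
def OuterStm : Prop := NondegStm → ContraStm → NonvanishStm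

/-! ### hyperplane conditions for arrays -/

/-- algebraic curvature arrays -/
def Cv {J : Type} (R : J → J → J → J → ℝ) : Prop :=
  (∀ a b c d, R b a c d = - R a b c d) ∧ (∀ a b c d, R c d a b = R a b c d) ∧
    ∀ a b c d, R a b c d + R b c a d + R c a b d = 0

/-- the quadratic form on symmetric matrices -/
def Bq {J : Type} [Fintype J] (R : J → J → J → J → ℝ) (h : J → J → ℝ) : ℝ :=
  ∑ i, ∑ j, ∑ k, ∑ l, R i k j l * (h i j * h k l)

/-- nonpositive on a hyperplane -/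
def OneP {J : Type} [Fintype J] (R : J → J → J → J → ℝ) : Prop :=
  ∃ N : J → J → ℝ, ∀ h : J → J → ℝ, (∀ a b, h a b = h b a) → ∑ i, ∑ j, N i j * h i j = 0 →
    Bq R h ≤ 0

/-- negative definite on a hyperplane -/
def OnePS {J : Type} [Fintype J] (R : J → J → J → J → ℝ) : Prop :=
  ∃ N : J → J → ℝ, ∀ h : J → J → ℝ, (∀ a b, h a b = h b a) → ∑ i, ∑ j, N i j * h i j = 0 →
    h ≠ 0 → Bq R h < 0

/-- the array of constant curvature -/
def Kc {J : Type} [DecidableEq J] (a b c d : J) : ℝ :=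
  (if a = c then 1 else 0) * (if b = d then 1 else 0) -
    (if a = d then 1 else 0) * (if b = c then 1 else 0)

/-- Lorentzian representation of an array -/
def Rep {J : Type} [Fintype J] (R : J → J → J → J → ℝ) : Prop :=
  ∃ (r : ℕ) (A0 : Matrix J J ℝ) (A : Fin r → Matrix J J ℝ), (∀ i j, A0 i j = A0 j i) ∧
    (∀ k i j, A k i j = A k j i) ∧ (∀ x : J → ℝ, 0 ≤ ∑ i, ∑ j, A0 i j * (x i * x j)) ∧
    (∀ x : J → ℝ, ∑ k, (∑ i, ∑ j, A k i j * (x i * x j)) ^ 2 ≤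
      (∑ i, ∑ j, A0 i j * (x i * x j)) ^ 2) ∧
    ∀ i j k l, Bf A0 A i j k l - Bf A0 A k j i l = 3 / 2 * R i k j l

/-- D2: a form which is nonpositive on a hyperplane has a Lorentzian representation. -/
def Decomp2Stm : Prop :=
  ∀ (J : Type) [Fintype J] [DecidableEq J] (R : J → J → J → J → ℝ), Cv R → OneP R → Rep R

/-- S2: the sign. -/
def Sign2Stm : Prop :=
  WickStm → NonvanishStm →
  ∀ (m : ℕ) (R : Fin m × Bool → Fin m × Bool → Fin m × Bool → Fin m × Bool → ℝ),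
    Rep R → 0 ≤ gbJ R

/-- SH: adding positive curvature. -/
def SharpStm : Prop :=
  ∀ P : ∀ m : ℕ, (Fin m × Bool → Fin m × Bool → Fin m × Bool → Fin m × Bool → ℝ) → Prop,
    (∀ (m : ℕ) (ι : Fin m × Bool → Fin (m + 1) × Bool), Function.Injective ι → ∀ R, P (m + 1) R →
      P m fun a b c d => R (ι a) (ι b) (ι c) (ι d)) →
    (∀ m R, P m R → 0 ≤ gbJ R) → ∀ m R, P m R → ∀ s : ℝ, 0 ≤ s →
      gbJ (m := m) (fun a b c d => s * Kc a b c d) ≤ gbJ (m := m) fun a b c d => R a b c d + s * Kc a b c d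

/-- RS: restriction to subsets of the indices. -/
def RestrStm : Prop :=
  ∀ (J J' : Type) [Fintype J] [DecidableEq J] [Fintype J'] [DecidableEq J'] (ι : J' → J),
    Function.Injective ι → ∀ R : J → J → J → J → ℝ, OneP R →
      OneP fun a b c d => R (ι a) (ι b) (ι c) (ι d)

/-- ST: the strict condition is open. -/
def StrictStm : Prop :=
  ∀ (J : Type) [Fintype J] [DecidableEq J] (R : J → J → J → J → ℝ), OnePS R →
    ∃ s : ℝ, 0 < s ∧ OneP fun a b c d => R a b c d - s * Kc a b c d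

end Pool.Agent.Helper27.HY
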